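import Pool.Agent.T6.H61.SL.Defs

/-!
# BOT: moves across squares of the bottom layer do not decrease the number of colourings
-/

set_option autoImplicit false

namespace Pool.Agent.T6.H61.SL

open KN

namespace ModBOT

theorem ind_congr {P Q : Prop} [Decidable P] [Decidable Q] (h : P ↔ Q) : ind P = ind Q := by
  unfold ind
  by_cases hP : P
  · rw [if_pos hP, if_pos (h.1 hP)]
  · rw [if_neg hP, if_neg (fun hQ => hP (h.2 hQ))]

/-- the degrees at a corner -/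
theorem corner {e1 e2 o1 o2 o3 f1 f2 : Prop} [Decidable e1] [Decidable e2] [Decidable o1]
    [Decidable o2] [Decidable o3] [Decidable f1] [Decidable f2] (h1 : f1 ↔ ¬ e1) (h2 : f2 ↔ ¬ e2)
    {n n' : ℕ} (hn : n = ind e1 + ind e2 + (ind o1 + ind o2 + ind o3))
    (hn' : n' = ind f1 + ind f2 + (ind o1 + ind o2 + ind o3))
    (h : n = 0 ∨ n = 2) (h' : n' = 0 ∨ n' = 2) :
    (o1 ∨ o2 ∨ o3 → ((e1 ∧ ¬ e2) ∨ (¬ e1 ∧ e2))) ∧ (¬ e1 → ¬ e2 → n = 0) ∧ (n' = 0 → e1 ∧ e2) := by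
  unfold ind at *
  by_cases a1 : e1 <;> by_cases a2 : e2 <;> by_cases a3 : o1 <;> by_cases a4 : o2 <;>
    by_cases a5 : o3 <;> simp [a1, a2, a3, a4, a5, h1, h2] at hn hn' ⊢ <;> omega

variable {ω ω' : Finset Ed} {x y : ℤ}

theorem mem_plaq (x y : ℤ) (e : Ed) : e ∈ plaq (x, y, 0) 0 1 ↔
    e = ((x, y, 0), 0) ∨ e = ((x, y + 1, 0), 0) ∨ e = ((x, y, 0), 1) ∨ e = ((x + 1, y, 0), 1) := by
  unfold plaq un
  simp

theorem TX_iff (h : ω' = symmDiff ω (plaq (x, y, 0) 0 1)) (a c : ℤ) : TX ω' a c ↔ TX ω a c := by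
  unfold TX
  rw [h, Finset.mem_symmDiff, mem_plaq]
  simp

theorem TY_iff (h : ω' = symmDiff ω (plaq (x, y, 0) 0 1)) (a c : ℤ) : TY ω' a c ↔ TY ω a c := by
  unfold TY
  rw [h, Finset.mem_symmDiff, mem_plaq]
  simp

theorem ZZ_iff (h : ω' = symmDiff ω (plaq (x, y, 0) 0 1)) (a c : ℤ) : ZZ ω' a c ↔ ZZ ω a c := by
  unfold ZZ
  rw [h, Finset.mem_symmDiff, mem_plaq]
  simp

theorem BX_far (h : ω' = symmDiff ω (plaq (x, y, 0) 0 1)) {a c : ℤ}
    (hn : ¬ (a = x ∧ (c = y ∨ c = y + 1))) : BX ω' a c ↔ BX ω a c := by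
  unfold BX
  rw [h, Finset.mem_symmDiff, mem_plaq]
  simp only [Prod.mk.injEq]
  have : ¬ (((a = x ∧ c = y ∧ (0 : ℤ) = 0) ∧ (0 : Fin 3) = 0) ∨ ((a = x ∧ c = y + 1 ∧ (0 : ℤ) = 0) ∧
      (0 : Fin 3) = 0) ∨ ((a = x ∧ c = y ∧ (0 : ℤ) = 0) ∧ (0 : Fin 3) = 1) ∨
      ((a = x + 1 ∧ c = y ∧ (0 : ℤ) = 0) ∧ (0 : Fin 3) = 1)) := by
    rintro (h1 | h1 | h1 | h1)
    · exact hn ⟨h1.1.1, Or.inl h1.1.2.1⟩
    · exact hn ⟨h1.1.1, Or.inr h1.1.2.1⟩
    · exact absurd h1.2 (by decide)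
    · exact absurd h1.2 (by decide)
  tauto

theorem BX_near (h : ω' = symmDiff ω (plaq (x, y, 0) 0 1)) {a c : ℤ}
    (hn : a = x ∧ (c = y ∨ c = y + 1)) : BX ω' a c ↔ ¬ BX ω a c := by
  unfold BX
  rw [h, Finset.mem_symmDiff, mem_plaq]
  simp only [Prod.mk.injEq]
  have : (((a = x ∧ c = y ∧ (0 : ℤ) = 0) ∧ (0 : Fin 3) = 0) ∨ ((a = x ∧ c = y + 1 ∧ (0 : ℤ) = 0) ∧
      (0 : Fin 3) = 0) ∨ ((a = x ∧ c = y ∧ (0 : ℤ) = 0) ∧ (0 : Fin 3) = 1) ∨
      ((a = x + 1 ∧ c = y ∧ (0 : ℤ) = 0) ∧ (0 : Fin 3) = 1)) := by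
    obtain ⟨h1, h2 | h2⟩ := hn
    · exact Or.inl ⟨⟨h1, h2, rfl⟩, rfl⟩
    · exact Or.inr (Or.inl ⟨⟨h1, h2, rfl⟩, rfl⟩)
  tauto

theorem BY_far (h : ω' = symmDiff ω (plaq (x, y, 0) 0 1)) {a c : ℤ}
    (hn : ¬ (c = y ∧ (a = x ∨ a = x + 1))) : BY ω' a c ↔ BY ω a c := by
  unfold BY
  rw [h, Finset.mem_symmDiff, mem_plaq]
  simp only [Prod.mk.injEq]
  have : ¬ (((a = x ∧ c = y ∧ (0 : ℤ) = 0) ∧ (1 : Fin 3) = 0) ∨ ((a = x ∧ c = y + 1 ∧ (0 : ℤ) = 0) ∧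
      (1 : Fin 3) = 0) ∨ ((a = x ∧ c = y ∧ (0 : ℤ) = 0) ∧ (1 : Fin 3) = 1) ∨
      ((a = x + 1 ∧ c = y ∧ (0 : ℤ) = 0) ∧ (1 : Fin 3) = 1)) := by
    rintro (h1 | h1 | h1 | h1)
    · exact absurd h1.2 (by decide)
    · exact absurd h1.2 (by decide)
    · exact hn ⟨h1.1.2.1, Or.inl h1.1.1⟩
    · exact hn ⟨h1.1.2.1, Or.inr h1.1.1⟩
  tauto

theorem BY_near (h : ω' = symmDiff ω (plaq (x, y, 0) 0 1)) {a c : ℤ}
    (hn : c = y ∧ (a = x ∨ a = x + 1)) : BY ω' a c ↔ ¬ BY ω a c := by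
  unfold BY
  rw [h, Finset.mem_symmDiff, mem_plaq]
  simp only [Prod.mk.injEq]
  have : (((a = x ∧ c = y ∧ (0 : ℤ) = 0) ∧ (1 : Fin 3) = 0) ∨ ((a = x ∧ c = y + 1 ∧ (0 : ℤ) = 0) ∧
      (1 : Fin 3) = 0) ∨ ((a = x ∧ c = y ∧ (0 : ℤ) = 0) ∧ (1 : Fin 3) = 1) ∨
      ((a = x + 1 ∧ c = y ∧ (0 : ℤ) = 0) ∧ (1 : Fin 3) = 1)) := by
    obtain ⟨h1, h2 | h2⟩ := hn
    · exact Or.inr (Or.inr (Or.inl ⟨⟨h2, h1, rfl⟩, rfl⟩))
    · exact Or.inr (Or.inr (Or.inr ⟨⟨h2, h1, rfl⟩, rfl⟩))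
  tauto

/-- the data of a move -/
structure Dt (ω ω' : Finset Ed) (x y : ℤ) (b t : ℤ → ℤ → Fin 3) : Prop where
  h : ω' = symmDiff ω (plaq (x, y, 0) 0 1)
  d : Deg ω
  d' : Deg ω'
  hG : G4 (BX ω x y) (BX ω x (y + 1)) (BY ω x y) (BY ω (x + 1) y)
  hc : Col ω b t

section
variable {b t : ℤ → ℤ → Fin 3}

/-- corner 00 -/
theorem c00 (D : Dt ω ω' x y b t) :
    (BX ω (x - 1) y ∨ BY ω x (y - 1) ∨ ZZ ω x y →
      ((BX ω x y ∧ ¬ BY ω x y) ∨ (¬ BX ω x y ∧ BY ω x y))) ∧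
    (¬ BX ω x y → ¬ BY ω x y → dB ω x y = 0) ∧ (dB ω' x y = 0 → BX ω x y ∧ BY ω x y) := by
  refine corner (f1 := BX ω' x y) (f2 := BY ω' x y) (BX_near D.h ⟨rfl, Or.inl rfl⟩)
    (BY_near D.h ⟨rfl, Or.inl rfl⟩) (n := dB ω x y) (n' := dB ω' x y) ?_ ?_ (D.d x y).1 (D.d' x y).1
  · unfold dB; omega
  · unfold dB
    rw [ind_congr (BX_far D.h (a := x - 1) (c := y) (by omega)),
      ind_congr (BY_far D.h (a := x) (c := y - 1) (by omega)), ind_congr (ZZ_iff D.h x y)]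
    omega

/-- corner 10 -/
theorem c10 (D : Dt ω ω' x y b t) :
    (BX ω (x + 1) y ∨ BY ω (x + 1) (y - 1) ∨ ZZ ω (x + 1) y →
      ((BX ω x y ∧ ¬ BY ω (x + 1) y) ∨ (¬ BX ω x y ∧ BY ω (x + 1) y))) ∧
    (¬ BX ω x y → ¬ BY ω (x + 1) y → dB ω (x + 1) y = 0) ∧
    (dB ω' (x + 1) y = 0 → BX ω x y ∧ BY ω (x + 1) y) := by
  refine corner (f1 := BX ω' x y) (f2 := BY ω' (x + 1) y) (BX_near D.h ⟨rfl, Or.inl rfl⟩)
    (BY_near D.h ⟨rfl, Or.inr rfl⟩) (n := dB ω (x + 1) y) (n' := dB ω' (x + 1) y) ?_ ?_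
    (D.d (x + 1) y).1 (D.d' (x + 1) y).1
  · unfold dB; rw [add_sub_cancel_right]; omega
  · unfold dB
    rw [add_sub_cancel_right, ind_congr (BX_far D.h (a := x + 1) (c := y) (by omega)),
      ind_congr (BY_far D.h (a := x + 1) (c := y - 1) (by omega)), ind_congr (ZZ_iff D.h (x + 1) y)]
    omega

/-- corner 01 -/
theorem c01 (D : Dt ω ω' x y b t) :
    (BX ω (x - 1) (y + 1) ∨ BY ω x (y + 1) ∨ ZZ ω x (y + 1) →
      ((BX ω x (y + 1) ∧ ¬ BY ω x y) ∨ (¬ BX ω x (y + 1) ∧ BY ω x y))) ∧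
    (¬ BX ω x (y + 1) → ¬ BY ω x y → dB ω x (y + 1) = 0) ∧
    (dB ω' x (y + 1) = 0 → BX ω x (y + 1) ∧ BY ω x y) := by
  refine corner (f1 := BX ω' x (y + 1)) (f2 := BY ω' x y) (BX_near D.h ⟨rfl, Or.inr rfl⟩)
    (BY_near D.h ⟨rfl, Or.inl rfl⟩) (n := dB ω x (y + 1)) (n' := dB ω' x (y + 1)) ?_ ?_
    (D.d x (y + 1)).1 (D.d' x (y + 1)).1
  · unfold dB; rw [add_sub_cancel_right]; omega
  · unfold dB
    rw [add_sub_cancel_right, ind_congr (BX_far D.h (a := x - 1) (c := y + 1) (by omega)),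
      ind_congr (BY_far D.h (a := x) (c := y + 1) (by omega)), ind_congr (ZZ_iff D.h x (y + 1))]
    omega

/-- corner 11 -/
theorem c11 (D : Dt ω ω' x y b t) :
    (BX ω (x + 1) (y + 1) ∨ BY ω (x + 1) (y + 1) ∨ ZZ ω (x + 1) (y + 1) →
      ((BX ω x (y + 1) ∧ ¬ BY ω (x + 1) y) ∨ (¬ BX ω x (y + 1) ∧ BY ω (x + 1) y))) ∧
    (¬ BX ω x (y + 1) → ¬ BY ω (x + 1) y → dB ω (x + 1) (y + 1) = 0) ∧
    (dB ω' (x + 1) (y + 1) = 0 → BX ω x (y + 1) ∧ BY ω (x + 1) y) := by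
  refine corner (f1 := BX ω' x (y + 1)) (f2 := BY ω' (x + 1) y) (BX_near D.h ⟨rfl, Or.inr rfl⟩)
    (BY_near D.h ⟨rfl, Or.inr rfl⟩) (n := dB ω (x + 1) (y + 1)) (n' := dB ω' (x + 1) (y + 1)) ?_ ?_
    (D.d (x + 1) (y + 1)).1 (D.d' (x + 1) (y + 1)).1
  · unfold dB; rw [add_sub_cancel_right, add_sub_cancel_right]; omega
  · unfold dB
    rw [add_sub_cancel_right, add_sub_cancel_right,
      ind_congr (BX_far D.h (a := x + 1) (c := y + 1) (by omega)),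
      ind_congr (BY_far D.h (a := x + 1) (c := y + 1) (by omega)),
      ind_congr (ZZ_iff D.h (x + 1) (y + 1))]
    omega

end


/-- passing under a strand of colour `τ` if `n` -/
def sg (n : Prop) [Decidable n] (τ a : Fin 3) : Fin 3 := if n then sc τ a else a

theorem sg_sg (n : Prop) [Decidable n] (τ a : Fin 3) : sg n τ (sg n τ a) = a := by
  unfold sg
  by_cases h : n
  · rw [if_pos h, if_pos h, sc_sc]
  · rw [if_neg h, if_neg h]

theorem sg_comm (n m : Prop) [Decidable n] [Decidable m] (τ a : Fin 3) :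
    sg n τ (sg m τ a) = sg m τ (sg n τ a) := by
  unfold sg
  by_cases h : n <;> by_cases h' : m <;> simp [h, h']

/-- the base value -/
def be (ω : Finset Ed) (x y : ℤ) (b t : ℤ → ℤ → Fin 3) : Fin 3 :=
  if BX ω x y ∨ BY ω x y then b x y
  else if BX ω x (y + 1) then sg (TX ω (x - 1) y) (t x y) (b x (y + 1))
  else sg (TY ω x (y - 1)) (t x y) (b (x + 1) y)

/-- the four new colours -/
def g10 (ω : Finset Ed) (x y : ℤ) (b t : ℤ → ℤ → Fin 3) : Fin 3 :=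
  sg (TY ω x (y - 1)) (t x y) (be ω x y b t)

def g01 (ω : Finset Ed) (x y : ℤ) (b t : ℤ → ℤ → Fin 3) : Fin 3 :=
  sg (TX ω (x - 1) y) (t x y) (be ω x y b t)

def g11 (ω : Finset Ed) (x y : ℤ) (b t : ℤ → ℤ → Fin 3) : Fin 3 :=
  sg (TX ω x y) (t x y) (g10 ω x y b t)

/-- the combinatorial core -/
theorem core (P1 P2 Q1 Q2 n1 n2 n3 n4 : Prop) [Decidable P1] [Decidable P2] [Decidable Q1]
    [Decidable Q2] [Decidable n1] [Decidable n2] [Decidable n3] [Decidable n4]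
    (τ b00 b10 b01 b11 : Fin 3) (hG : G4 P1 P2 Q1 Q2)
    (h1 : P1 → b10 = sg n1 τ b00) (h2 : P2 → b11 = sg n4 τ b01) (h3 : Q1 → b01 = sg n2 τ b00)
    (h4 : Q2 → b11 = sg n3 τ b10)
    (hn : (∀ a, sg n3 τ (sg n1 τ a) = sg n4 τ (sg n2 τ a)) ∨ ((P1 ∨ Q1) ∧ b00 = τ))
    (β : Fin 3) (hβ : β = if P1 ∨ Q1 then b00 else if P2 then sg n2 τ b01 else sg n1 τ b10) :
    sg n3 τ (sg n1 τ β) = sg n4 τ (sg n2 τ β) ∧
    (P1 ∨ Q1 → b00 = β) ∧ (P1 ∨ Q2 → b10 = sg n1 τ β) ∧ (P2 ∨ Q1 → b01 = sg n2 τ β) ∧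
    (P2 ∨ Q2 → b11 = sg n3 τ (sg n1 τ β)) := by
  have hc : sg n3 τ (sg n1 τ β) = sg n4 τ (sg n2 τ β) := by
    rcases hn with hn | ⟨hn, hb⟩
    · exact hn β
    · have e : β = τ := by rw [hβ, if_pos hn, hb]
      have f : ∀ (n : Prop) [Decidable n], sg n τ τ = τ := by
        intro n _
        unfold sg
        by_cases h : n
        · rw [if_pos h, sc_self]
        · rw [if_neg h]
      rw [e, f, f, f, f]
  have hA : P1 ∨ Q1 → b00 = β := by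
    intro h
    rw [hβ, if_pos h]
  have inj : ∀ (n : Prop) [Decidable n] (a c : Fin 3), sg n τ a = sg n τ c → a = c := by
    intro n _ a c h
    rw [← sg_sg n τ a, h, sg_sg]
  have hB : P1 ∨ Q2 → b10 = sg n1 τ β := by
    intro h
    by_cases p1 : P1
    · rw [h1 p1, hA (Or.inl p1)]
    · have q2 : Q2 := h.resolve_left p1
      by_cases p2 : P2
      · have e : b01 = sg n2 τ β := by
          by_cases q1 : Q1
          · rw [h3 q1, hA (Or.inr q1)]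
          · rw [hβ, if_neg (by tauto), if_pos p2, sg_sg]
        apply inj n3
        rw [← h4 q2, h2 p2, e, hc]
      · have q1 : ¬ Q1 := by
          intro q1
          exact hG.2.2.2 ⟨p1, p2, q1, q2⟩
        rw [hβ, if_neg (by tauto), if_neg p2, sg_sg]
  have hC : P2 ∨ Q1 → b01 = sg n2 τ β := by
    intro h
    by_cases q1 : Q1
    · rw [h3 q1, hA (Or.inr q1)]
    · have p2 : P2 := h.resolve_right q1
      by_cases p1 : P1
      · have q2 : Q2 := by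
          by_contra q2
          exact hG.2.2.1 ⟨p1, p2, q1, q2⟩
        apply inj n4
        rw [← h2 p2, h4 q2, hB (Or.inl p1), hc]
      · rw [hβ, if_neg (by tauto), if_pos p2, sg_sg]
  refine ⟨hc, hA, hB, hC, ?_⟩
  intro h
  rcases h with h | h
  · rw [h2 h, hC (Or.inl h), hc]
  · rw [h4 h, hB (Or.inr h)]

section
variable {b t : ℤ → ℤ → Fin 3}

/-- the colours of the corners -/
theorem corners (D : Dt ω ω' x y b t) :
    g11 ω x y b t = sg (TY ω x y) (t x y) (g01 ω x y b t) ∧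
    (BX ω x y ∨ BY ω x y → b x y = be ω x y b t) ∧
    (BX ω x y ∨ BY ω (x + 1) y → b (x + 1) y = g10 ω x y b t) ∧
    (BX ω x (y + 1) ∨ BY ω x y → b x (y + 1) = g01 ω x y b t) ∧
    (BX ω x (y + 1) ∨ BY ω (x + 1) y → b (x + 1) (y + 1) = g11 ω x y b t) := by
  refine core (BX ω x y) (BX ω x (y + 1)) (BY ω x y) (BY ω (x + 1) y) (TY ω x (y - 1))
    (TX ω (x - 1) y) (TX ω x y) (TY ω x y) (t x y) (b x y) (b (x + 1) y) (b x (y + 1))
    (b (x + 1) (y + 1)) D.hG ?_ ?_ ?_ ?_ ?_ (be ω x y b t) rfl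
  · intro h
    exact D.hc.bx x y h
  · intro h
    have h1 := D.hc.bx x (y + 1) h
    rw [add_sub_cancel_right] at h1
    rw [h1]
    unfold sg
    by_cases h2 : TY ω x y
    · rw [if_pos h2, if_pos h2, D.hc.ty x y h2]
    · rw [if_neg h2, if_neg h2]
  · intro h
    exact D.hc.yb x y h
  · intro h
    have h1 := D.hc.yb (x + 1) y h
    rw [add_sub_cancel_right] at h1
    rw [h1]
    unfold sg
    by_cases h2 : TX ω x y
    · rw [if_pos h2, if_pos h2, D.hc.tx x y h2]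
    · rw [if_neg h2, if_neg h2]
  · by_cases hz : ZZ ω x y
    · right
      obtain ⟨k1, -, -⟩ := c00 D
      refine ⟨?_, (D.hc.zz x y hz).symm⟩
      rcases k1 (Or.inr (Or.inr hz)) with h | h
      · exact Or.inl h.1
      · exact Or.inr h.2
    · left
      intro a
      have h1 := (D.d x y).2
      unfold dT ind at h1
      rw [if_neg hz] at h1
      unfold sg
      by_cases a1 : TX ω x y <;> by_cases a2 : TX ω (x - 1) y <;> by_cases a3 : TY ω x y <;>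
        by_cases a4 : TY ω x (y - 1) <;> simp [a1, a2, a3, a4, sc_sc] at h1 ⊢

end

open scoped Classical in
/-- the new colours of the bottom layer -/
noncomputable def bn (ω : Finset Ed) (x y : ℤ) (b t : ℤ → ℤ → Fin 3) (a c : ℤ) : Fin 3 :=
  if a = x ∧ c = y then (if ¬ BX ω x y ∨ ¬ BY ω x y then be ω x y b t else 0)
  else if a = x + 1 ∧ c = y then (if ¬ BX ω x y ∨ ¬ BY ω (x + 1) y then g10 ω x y b t else 0)
  else if a = x ∧ c = y + 1 then (if ¬ BX ω x (y + 1) ∨ ¬ BY ω x y then g01 ω x y b t else 0)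
  else if a = x + 1 ∧ c = y + 1 then
    (if ¬ BX ω x (y + 1) ∨ ¬ BY ω (x + 1) y then g11 ω x y b t else 0)
  else b a c

section
variable {b t : ℤ → ℤ → Fin 3}

theorem bn00 : bn ω x y b t x y = if ¬ BX ω x y ∨ ¬ BY ω x y then be ω x y b t else 0 := by
  unfold bn
  rw [if_pos ⟨rfl, rfl⟩]

theorem bn10 : bn ω x y b t (x + 1) y =
    if ¬ BX ω x y ∨ ¬ BY ω (x + 1) y then g10 ω x y b t else 0 := by
  unfold bn
  rw [if_neg (by omega), if_pos ⟨rfl, rfl⟩]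

theorem bn01 : bn ω x y b t x (y + 1) =
    if ¬ BX ω x (y + 1) ∨ ¬ BY ω x y then g01 ω x y b t else 0 := by
  unfold bn
  rw [if_neg (by omega), if_neg (by omega), if_pos ⟨rfl, rfl⟩]

theorem bn11 : bn ω x y b t (x + 1) (y + 1) =
    if ¬ BX ω x (y + 1) ∨ ¬ BY ω (x + 1) y then g11 ω x y b t else 0 := by
  unfold bn
  rw [if_neg (by omega), if_neg (by omega), if_neg (by omega), if_pos ⟨rfl, rfl⟩]

theorem bn_far {a c : ℤ} (h : ¬ ((a = x ∨ a = x + 1) ∧ (c = y ∨ c = y + 1))) :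
    bn ω x y b t a c = b a c := by
  unfold bn
  rw [if_neg (by omega), if_neg (by omega), if_neg (by omega), if_neg (by omega)]

/-- the colour of the bottom layer does not change at the ends of the other edges -/
theorem bn_eq (D : Dt ω ω' x y b t) {a c : ℤ}
    (h : (BX ω a c ∧ ¬ (a = x ∧ (c = y ∨ c = y + 1))) ∨
      (BX ω (a - 1) c ∧ ¬ (a - 1 = x ∧ (c = y ∨ c = y + 1))) ∨
      (BY ω a c ∧ ¬ (c = y ∧ (a = x ∨ a = x + 1))) ∨
      (BY ω a (c - 1) ∧ ¬ (c - 1 = y ∧ (a = x ∨ a = x + 1))) ∨ ZZ ω a c) :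
    bn ω x y b t a c = b a c := by
  by_cases hcor : (a = x ∨ a = x + 1) ∧ (c = y ∨ c = y + 1)
  swap
  · exact bn_far hcor
  obtain ⟨-, kA, kB, kC, kD⟩ := corners D
  obtain ⟨rfl | rfl, rfl | rfl⟩ := hcor
  · obtain ⟨k1, -, -⟩ := c00 D
    have h1 : BX ω (a - 1) c ∨ BY ω a (c - 1) ∨ ZZ ω a c := by
      rcases h with h | h | h | h | h
      · exact absurd ⟨rfl, Or.inl rfl⟩ h.2
      · exact Or.inl h.1
      · exact absurd ⟨rfl, Or.inl rfl⟩ h.2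
      · exact Or.inr (Or.inl h.1)
      · exact Or.inr (Or.inr h)
    rw [bn00]
    rcases k1 h1 with ⟨k2, k3⟩ | ⟨k2, k3⟩
    · rw [if_pos (Or.inr k3), kA (Or.inl k2)]
    · rw [if_pos (Or.inl k2), kA (Or.inr k3)]
  · obtain ⟨k1, -, -⟩ := c01 D
    have h1 : BX ω (a - 1) (y + 1) ∨ BY ω a (y + 1) ∨ ZZ ω a (y + 1) := by
      rcases h with h | h | h | h | h
      · exact absurd ⟨rfl, Or.inr rfl⟩ h.2
      · exact Or.inl h.1
      · exact Or.inr (Or.inl h.1)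
      · exact absurd ⟨by omega, Or.inl rfl⟩ h.2
      · exact Or.inr (Or.inr h)
    rw [bn01]
    rcases k1 h1 with ⟨k2, k3⟩ | ⟨k2, k3⟩
    · rw [if_pos (Or.inr k3), kC (Or.inl k2)]
    · rw [if_pos (Or.inl k2), kC (Or.inr k3)]
  · obtain ⟨k1, -, -⟩ := c10 D
    have h1 : BX ω (x + 1) c ∨ BY ω (x + 1) (c - 1) ∨ ZZ ω (x + 1) c := by
      rcases h with h | h | h | h | h
      · exact Or.inl h.1
      · exact absurd ⟨by omega, Or.inl rfl⟩ h.2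
      · exact absurd ⟨rfl, Or.inr rfl⟩ h.2
      · exact Or.inr (Or.inl h.1)
      · exact Or.inr (Or.inr h)
    rw [bn10]
    rcases k1 h1 with ⟨k2, k3⟩ | ⟨k2, k3⟩
    · rw [if_pos (Or.inr k3), kB (Or.inl k2)]
    · rw [if_pos (Or.inl k2), kB (Or.inr k3)]
  · obtain ⟨k1, -, -⟩ := c11 D
    have h1 : BX ω (x + 1) (y + 1) ∨ BY ω (x + 1) (y + 1) ∨ ZZ ω (x + 1) (y + 1) := by
      rcases h with h | h | h | h | h
      · exact Or.inl h.1
      · exact absurd ⟨by omega, Or.inr rfl⟩ h.2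
      · exact Or.inr (Or.inl h.1)
      · exact absurd ⟨by omega, Or.inr rfl⟩ h.2
      · exact Or.inr (Or.inr h)
    rw [bn11]
    rcases k1 h1 with ⟨k2, k3⟩ | ⟨k2, k3⟩
    · rw [if_pos (Or.inr k3), kD (Or.inl k2)]
    · rw [if_pos (Or.inl k2), kD (Or.inr k3)]

theorem dT_eq (h : ω' = symmDiff ω (plaq (x, y, 0) 0 1)) (a c : ℤ) : dT ω' a c = dT ω a c := by
  unfold dT
  rw [ind_congr (TX_iff h a c), ind_congr (TX_iff h (a - 1) c), ind_congr (TY_iff h a c),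
    ind_congr (TY_iff h a (c - 1)), ind_congr (ZZ_iff h a c)]

theorem if_iff {P Q : Prop} [Decidable P] [Decidable Q] (h : Q ↔ P) (u v : Fin 3) :
    (if Q then u else v) = if P then u else v := by
  by_cases hP : P
  · rw [if_pos hP, if_pos (h.2 hP)]
  · rw [if_neg hP, if_neg (fun hq => hP (h.1 hq))]

/-- the new colouring -/
theorem col_new (D : Dt ω ω' x y b t) : Col ω' (bn ω x y b t) t := by
  obtain ⟨kE, kA, kB, kC, kD⟩ := corners D
  constructor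
  · intro a c hz
    rw [ZZ_iff D.h] at hz
    rw [bn_eq D (Or.inr (Or.inr (Or.inr (Or.inr hz))))]
    exact D.hc.zz _ _ hz
  · intro a c hx
    rw [TX_iff D.h] at hx
    exact D.hc.tx _ _ hx
  · intro a c hx
    rw [TY_iff D.h] at hx
    exact D.hc.ty _ _ hx
  · intro a c hx
    rw [if_iff (TY_iff D.h a (c - 1))]
    by_cases h1 : a = x ∧ (c = y ∨ c = y + 1)
    · rw [BX_near D.h h1] at hx
      obtain ⟨rfl, rfl | rfl⟩ := h1
      · rw [bn00, bn10, if_pos (Or.inl hx), if_pos (Or.inl hx)]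
        rfl
      · rw [bn01, bn11, if_pos (Or.inl hx), if_pos (Or.inl hx), kE, add_sub_cancel_right]
        unfold sg
        by_cases h2 : TY ω a y
        · rw [if_pos h2, if_pos h2, D.hc.ty a y h2]
        · rw [if_neg h2, if_neg h2]
    · rw [BX_far D.h h1] at hx
      rw [bn_eq D (Or.inl ⟨hx, h1⟩), bn_eq D (Or.inr (Or.inl (by
        rw [add_sub_cancel_right]; exact ⟨hx, h1⟩)))]
      exact D.hc.bx _ _ hx
  · intro a c hx
    rw [if_iff (TX_iff D.h (a - 1) c)]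
    by_cases h1 : c = y ∧ (a = x ∨ a = x + 1)
    · rw [BY_near D.h h1] at hx
      obtain ⟨rfl, rfl | rfl⟩ := h1
      · rw [bn00, bn01, if_pos (Or.inr hx), if_pos (Or.inr hx)]
        rfl
      · rw [bn10, bn11, if_pos (Or.inr hx), if_pos (Or.inr hx), add_sub_cancel_right]
        unfold g11 sg
        by_cases h2 : TX ω x c
        · rw [if_pos h2, if_pos h2, D.hc.tx x c h2]
        · rw [if_neg h2, if_neg h2]
    · rw [BY_far D.h h1] at hx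
      rw [bn_eq D (Or.inr (Or.inr (Or.inl ⟨hx, h1⟩))), bn_eq D (Or.inr (Or.inr (Or.inr (Or.inl (by
        rw [add_sub_cancel_right]; exact ⟨hx, h1⟩)))))]
      exact D.hc.yb _ _ hx
  · intro a c hd
    by_cases hcor : (a = x ∨ a = x + 1) ∧ (c = y ∨ c = y + 1)
    · obtain ⟨rfl | rfl, rfl | rfl⟩ := hcor
      · obtain ⟨h1, h2⟩ := (c00 D).2.2 hd
        rw [bn00, if_neg (by tauto)]
      · obtain ⟨h1, h2⟩ := (c01 D).2.2 hd
        rw [bn01, if_neg (by tauto)]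
      · obtain ⟨h1, h2⟩ := (c10 D).2.2 hd
        rw [bn10, if_neg (by tauto)]
      · obtain ⟨h1, h2⟩ := (c11 D).2.2 hd
        rw [bn11, if_neg (by tauto)]
    · rw [bn_far hcor]
      apply D.hc.b0
      have e : dB ω' a c = dB ω a c := by
        unfold dB
        rw [ind_congr (BX_far D.h (a := a) (c := c) (by omega)),
          ind_congr (BX_far D.h (a := a - 1) (c := c) (by omega)),
          ind_congr (BY_far D.h (a := a) (c := c) (by omega)),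
          ind_congr (BY_far D.h (a := a) (c := c - 1) (by omega)), ind_congr (ZZ_iff D.h a c)]
      rw [← e]
      exact hd
  · intro a c hd
    rw [dT_eq D.h] at hd
    exact D.hc.t0 _ _ hd

end

/-- a corner which lies on an edge of both -/
theorem mixed (hG : G4 (BX ω x y) (BX ω x (y + 1)) (BY ω x y) (BY ω (x + 1) y)) :
    (¬ (BX ω x y ↔ BY ω x y)) ∨ (¬ (BX ω x y ↔ BY ω (x + 1) y)) ∨
    (¬ (BX ω x (y + 1) ↔ BY ω x y)) ∨ (¬ (BX ω x (y + 1) ↔ BY ω (x + 1) y)) := by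
  unfold G4 at hG
  tauto

theorem sg_inj (n : Prop) [Decidable n] (τ : Fin 3) {a c : Fin 3} (h : sg n τ a = sg n τ c) :
    a = c := by
  rw [← sg_sg n τ a, h, sg_sg]

/-- the base value can be read off -/
theorem be_inj {b t b₂ : ℤ → ℤ → Fin 3} (D : Dt ω ω' x y b t)
    (h : bn ω x y b t = bn ω x y b₂ t) : be ω x y b t = be ω x y b₂ t := by
  rcases mixed D.hG with h1 | h1 | h1 | h1
  · have h2 := congrFun (congrFun h x) y
    rw [bn00, bn00, if_pos (by tauto), if_pos (by tauto)] at h2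
    exact h2
  · have h2 := congrFun (congrFun h (x + 1)) y
    rw [bn10, bn10, if_pos (by tauto), if_pos (by tauto)] at h2
    exact sg_inj _ _ h2
  · have h2 := congrFun (congrFun h x) (y + 1)
    rw [bn01, bn01, if_pos (by tauto), if_pos (by tauto)] at h2
    exact sg_inj _ _ h2
  · have h2 := congrFun (congrFun h (x + 1)) (y + 1)
    rw [bn11, bn11, if_pos (by tauto), if_pos (by tauto)] at h2
    exact sg_inj _ _ (sg_inj _ _ h2)

theorem b_inj {b t b₂ : ℤ → ℤ → Fin 3} (D : Dt ω ω' x y b t) (D₂ : Dt ω ω' x y b₂ t)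
    (h : bn ω x y b t = bn ω x y b₂ t) : b = b₂ := by
  have hk := be_inj D h
  obtain ⟨-, kA, kB, kC, kD⟩ := corners D
  obtain ⟨-, kA₂, kB₂, kC₂, kD₂⟩ := corners D₂
  have hk1 : g10 ω x y b t = g10 ω x y b₂ t := by unfold g10; rw [hk]
  have hk2 : g01 ω x y b t = g01 ω x y b₂ t := by unfold g01; rw [hk]
  have hk3 : g11 ω x y b t = g11 ω x y b₂ t := by unfold g11; rw [hk1]
  funext a c
  by_cases hcor : (a = x ∨ a = x + 1) ∧ (c = y ∨ c = y + 1)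
  · obtain ⟨rfl | rfl, rfl | rfl⟩ := hcor
    · by_cases h1 : BX ω a c ∨ BY ω a c
      · rw [kA h1, kA₂ h1, hk]
      · rw [D.hc.b0 _ _ ((c00 D).2.1 (not_or.1 h1).1 (not_or.1 h1).2),
          D₂.hc.b0 _ _ ((c00 D).2.1 (not_or.1 h1).1 (not_or.1 h1).2)]
    · by_cases h1 : BX ω a (y + 1) ∨ BY ω a y
      · rw [kC h1, kC₂ h1, hk2]
      · rw [D.hc.b0 _ _ ((c01 D).2.1 (not_or.1 h1).1 (not_or.1 h1).2),
          D₂.hc.b0 _ _ ((c01 D).2.1 (not_or.1 h1).1 (not_or.1 h1).2)]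
    · by_cases h1 : BX ω x c ∨ BY ω (x + 1) c
      · rw [kB h1, kB₂ h1, hk1]
      · rw [D.hc.b0 _ _ ((c10 D).2.1 (not_or.1 h1).1 (not_or.1 h1).2),
          D₂.hc.b0 _ _ ((c10 D).2.1 (not_or.1 h1).1 (not_or.1 h1).2)]
    · by_cases h1 : BX ω x (y + 1) ∨ BY ω (x + 1) y
      · rw [kD h1, kD₂ h1, hk3]
      · rw [D.hc.b0 _ _ ((c11 D).2.1 (not_or.1 h1).1 (not_or.1 h1).2),
          D₂.hc.b0 _ _ ((c11 D).2.1 (not_or.1 h1).1 (not_or.1 h1).2)]
  · have h2 := congrFun (congrFun h a) c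
    rw [bn_far hcor, bn_far hcor] at h2
    exact h2

end ModBOT

open ModBOT in
theorem bot : StmBOT := by
  intro hF ω ω' x y hd hd' h hG
  unfold NC
  have hD : ∀ c ∈ CS ω, Dt ω ω' x y c.1 c.2 := fun c hc => ⟨h, hd, hd', hG, hc⟩
  refine Set.ncard_le_ncard_of_injOn (fun c => (bn ω x y c.1 c.2, c.2)) ?_ ?_ (hF ω')
  · intro c hc
    exact col_new (hD c hc)
  · rintro ⟨b, t⟩ hc ⟨b₂, t₂⟩ hc₂ he
    have he2 : t = t₂ := congrArg Prod.snd he
    subst he2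
    have he1 : bn ω x y b t = bn ω x y b₂ t := congrArg Prod.fst he
    exact Prod.ext (b_inj (hD _ hc) (hD _ hc₂) he1) rfl

end Pool.Agent.T6.H61.SL
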