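import Pool.Agent.T6.H61.SL.CNT0

/-!
# Module CNT: the long word increases the number of colourings, main part (helper61)
-/

set_option autoImplicit false

namespace Pool.Agent.T6.H61.SL

open KN

namespace ModCNT

theorem es_append (p : Z3) (X Y : List Dir) : es p (X ++ Y) = es (p + pos Y) X ++ es p Y := by
  induction X with
  | nil => rfl
  | cons d X ih =>
    rw [List.cons_append, es, es, ih, pos_append]
    simp only [List.cons_append]
    congr 2
    abel

theorem edg_shift (p q : Z3) (d : Dir) : edg (p + q) d = ((edg p d).1 + q, (edg p d).2) := by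
  cases d <;> simp only [edg, Prod.mk.injEq, and_true] <;> abel

theorem es_shift (p q : Z3) (w : List Dir) :
    es (p + q) w = (es p w).map (fun e => (e.1 + q, e.2)) := by
  induction w with
  | nil => rfl
  | cons d w ih =>
    rw [es, es, ih, List.map_cons, ← edg_shift]
    congr 2
    abel

/-- both ends of an edge of a walk are vertices of the walk -/
theorem ends_of_mem {p : Z3} {w : List Dir} {e : Ed} (h : e ∈ es p w) :
    (∃ q ∈ path w, e.1 = p + q) ∧ ∃ q ∈ path w, e.1 + un e.2 = p + q := by
  induction w with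
  | nil => simp [es] at h
  | cons d w ih =>
    rw [es, List.mem_cons] at h
    rcases h with rfl | h
    · have h1 : pos w ∈ path (d :: w) := by
        simp only [path]; exact List.mem_cons_of_mem _ (pos_mem_path w)
      have h2 : pos w + vec d ∈ path (d :: w) := by simp [path]
      cases d
      · exact ⟨⟨_, h1, rfl⟩, ⟨_, h2, by simp [edg, un, vec]; abel⟩⟩
      · refine ⟨⟨_, h2, ?_⟩, ⟨_, h1, ?_⟩⟩
        · have : un 0 = - vec .xm := by decide
          simp only [edg]
          rw [this]; abel
        · simp [edg]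
      · exact ⟨⟨_, h1, rfl⟩, ⟨_, h2, by simp [edg, un, vec]; abel⟩⟩
      · refine ⟨⟨_, h2, ?_⟩, ⟨_, h1, ?_⟩⟩
        · have : un 1 = - vec .ym := by decide
          simp only [edg]
          rw [this]; abel
        · simp [edg]
      · exact ⟨⟨_, h1, rfl⟩, ⟨_, h2, by simp [edg, un, vec]; abel⟩⟩
      · refine ⟨⟨_, h2, ?_⟩, ⟨_, h1, ?_⟩⟩
        · have : un 2 = - vec .zm := by decide
          simp only [edg]
          rw [this]; abel
        · simp [edg]
    · obtain ⟨⟨q, hq, h1⟩, ⟨q', hq', h2⟩⟩ := ih h
      refine ⟨⟨q, ?_, h1⟩, ⟨q', ?_, h2⟩⟩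
      · simp only [path]; exact List.mem_cons_of_mem _ hq
      · simp only [path]; exact List.mem_cons_of_mem _ hq'

/-- the situation: everything in terms of the edge sets -/
structure Sit (ω ω' : Finset Ed) (f : Dir) (x0 y0 : ℤ) : Prop where
  hf : f = .yp ∨ f = .ym
  /-- edges of the nice polygon -/
  old : ∀ v i, (v, i) ∈ ω → v.1 < x0 ∨ (v.1 = x0 ∧ i = 1 ∧ v.2.2 = 1)
  /-- the vertices in the plane `x = x0` -/
  plane : ∀ v i, (v, i) ∈ ω → (v.1 = x0 → v = (x0, y0, 1) ∨ v = (x0, y0, 1) + vec f) ∧
    ((v + un i).1 = x0 → v + un i = (x0, y0, 1) ∨ v + un i = (x0, y0, 1) + vec f)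
  /-- the edge `f` -/
  e0 : TY ω x0 (if f = .yp then y0 else y0 - 1)
  /-- edges of the new polygon -/
  new1 : ∀ v i, v.1 < x0 → ((v, i) ∈ ω' ↔ (v, i) ∈ ω)
  new2 : ∀ v i, (x0 < v.1 ∨ (v.1 = x0 ∧ i ≠ 1)) →
    ((v, i) ∈ ω' ↔ ((v.1 - x0, v.2.1 - y0, v.2.2), i) ∈ E0 f)
  new3 : ∀ v, v.1 = x0 → (v, (1 : Fin 3)) ∈ ω' → (v, (1 : Fin 3)) ∈ ω

section

variable {ω ω' : Finset Ed} {f : Dir} {x0 y0 : ℤ}

/-- local colourings -/
structure LC (f : Dir) (g : Z3 → Fin 3) (k : Fin 3) : Prop where
  rel : ∀ e ∈ E0 f, relOK (E0 f) g e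
  s0 : g (0, 0, 1) = k
  s1 : g ((0, 0, 1) + vec f) = k
  out : ∀ v, v ∉ V0 f → g v = 0

/-- extension of a colouring -/
def eb (x0 y0 : ℤ) (g : Z3 → Fin 3) (b : ℤ → ℤ → Fin 3) : ℤ → ℤ → Fin 3 :=
  fun x y => if x0 < x then g (x - x0, y - y0, 0) else b x y

def et (x0 y0 : ℤ) (g : Z3 → Fin 3) (t : ℤ → ℤ → Fin 3) : ℤ → ℤ → Fin 3 :=
  fun x y => if x0 < x then g (x - x0, y - y0, 1) else t x y

theorem ind_pos {P : Prop} [Decidable P] (h : P) : ind P = 1 := by simp [ind, h]
theorem ind_zero {P : Prop} [Decidable P] : ind P = 0 ↔ ¬ P := by simp [ind]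

theorem dB_zero {ω : Finset Ed} {x y : ℤ} : dB ω x y = 0 ↔
    ¬ BX ω x y ∧ ¬ BX ω (x - 1) y ∧ ¬ BY ω x y ∧ ¬ BY ω x (y - 1) ∧ ¬ ZZ ω x y := by
  unfold dB
  simp only [Nat.add_eq_zero_iff, ind_zero]
  tauto

theorem dT_zero {ω : Finset Ed} {x y : ℤ} : dT ω x y = 0 ↔
    ¬ TX ω x y ∧ ¬ TX ω (x - 1) y ∧ ¬ TY ω x y ∧ ¬ TY ω x (y - 1) ∧ ¬ ZZ ω x y := by
  unfold dT
  simp only [Nat.add_eq_zero_iff, ind_zero]
  tauto

/-- the extension is a colouring -/
theorem ext_col (S : Sit ω ω' f x0 y0) {b t : ℤ → ℤ → Fin 3} (hc : Col ω b t) {g : Z3 → Fin 3}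
    (hg : LC f g (t x0 y0)) : Col ω' (eb x0 y0 g b) (et x0 y0 g t) := by
  have hE := E0_pos f S.hf
  -- colours at the two ends
  have ht1 : ∀ y, ((0 : ℤ), y - y0, (1 : ℤ)) = (0, 0, 1) ∨
      ((0 : ℤ), y - y0, (1 : ℤ)) = (0, 0, 1) + vec f → g (0, y - y0, 1) = t x0 y := by
    intro y hy
    rcases hy with hy | hy
    · rw [hy, hg.s0]
      have : y = y0 := by
        have := congrArg (fun p : Z3 => p.2.1) hy
        simp only at this; omega
      rw [this]
    · rw [hy, hg.s1]
      have he := S.e0
      rcases S.hf with hf | hf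
      · subst hf
        rw [if_pos rfl] at he
        have : y = y0 + 1 := by
          have := congrArg (fun p : Z3 => p.2.1) hy
          simp [vec] at this; omega
        rw [this, hc.ty _ _ he]
      · subst hf
        rw [if_neg (by decide)] at he
        have : y = y0 - 1 := by
          have := congrArg (fun p : Z3 => p.2.1) hy
          simp [vec] at this; omega
        have h2 := hc.ty _ _ he
        rw [sub_add_cancel] at h2
        rw [this, h2]
  refine ⟨?_, ?_, ?_, ?_, ?_, ?_, ?_⟩
  · -- vertical edges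
    intro x y h
    unfold ZZ at h
    unfold eb et
    by_cases hx : x0 < x
    · rw [if_pos hx, if_pos hx]
      rw [S.new2 _ _ (Or.inl hx)] at h
      have := hg.rel _ h
      simpa [relOK] using this
    · rw [if_neg hx, if_neg hx]
      rcases lt_or_eq_of_le (not_lt.1 hx) with hx | hx
      · exact hc.zz x y ((S.new1 _ _ hx).1 h)
      · rw [S.new2 _ _ (Or.inr ⟨hx, by decide⟩)] at h
        have := (hE _ h).1
        simp only at this
        rcases this with h1 | h1
        · omega
        · exact absurd h1.2.1 (by decide)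
  · -- TX
    intro x y h
    unfold TX at h
    unfold et
    by_cases hx : x0 < x
    · rw [if_pos hx, if_pos (by omega)]
      rw [S.new2 _ _ (Or.inl hx)] at h
      have := hg.rel _ h
      simp only [relOK] at this
      simp at this
      rw [show x + 1 - x0 = x - x0 + 1 by ring]
      exact this
    · rw [if_neg hx]
      rcases lt_or_eq_of_le (not_lt.1 hx) with hx | hx
      · rw [if_neg (by omega)]
        exact hc.tx x y ((S.new1 _ _ hx).1 h)
      · rw [if_pos (by omega)]
        rw [S.new2 _ _ (Or.inr ⟨hx, by decide⟩)] at h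
        have h1 := hg.rel _ h
        simp only [relOK] at h1
        simp at h1
        rw [show x + 1 - x0 = x - x0 + 1 by ring, h1]
        have hp := (hE _ h).1
        simp only at hp
        rw [show x - x0 = 0 by omega] at hp ⊢
        rcases hp with h2 | h2
        · omega
        · rw [ht1 y h2.2.2.2, hx]
  · -- TY
    intro x y h
    unfold TY at h
    unfold et
    by_cases hx : x0 < x
    · rw [if_pos hx, if_pos hx]
      rw [S.new2 _ _ (Or.inl hx)] at h
      have := hg.rel _ h
      simp only [relOK] at this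
      simp at this
      rw [show y + 1 - y0 = y - y0 + 1 by ring]
      exact this
    · rw [if_neg hx, if_neg hx]
      rcases lt_or_eq_of_le (not_lt.1 hx) with hx | hx
      · exact hc.ty x y ((S.new1 _ _ hx).1 h)
      · exact hc.ty x y (S.new3 _ hx h)
  · -- BX
    intro x y h
    unfold BX at h
    unfold et eb
    by_cases hx : x0 < x
    · rw [if_pos hx, if_pos hx, if_pos (by omega)]
      rw [S.new2 _ _ (Or.inl hx)] at h
      have h1 := hg.rel _ h
      simp only [relOK] at h1
      simp at h1
      rw [show x + 1 - x0 = x - x0 + 1 by ring, h1]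
      have h2 : TY ω' x (y - 1) ↔ ((x - x0, y - y0 - 1, (1 : ℤ)), (1 : Fin 3)) ∈ E0 f := by
        unfold TY
        rw [S.new2 _ _ (Or.inl hx)]
        simp only
        rw [show y - 1 - y0 = y - y0 - 1 by ring]
      by_cases h3 : TY ω' x (y - 1)
      · rw [if_pos h3, if_pos (h2.1 h3)]
      · rw [if_neg h3, if_neg (fun h4 => h3 (h2.2 h4))]
    · rcases lt_or_eq_of_le (not_lt.1 hx) with hx' | hx'
      · rw [if_neg hx, if_neg hx, if_neg (by omega)]
        have h1 := hc.bx x y ((S.new1 _ _ hx').1 h)
        have h2 : TY ω' x (y - 1) ↔ TY ω x (y - 1) := by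
          unfold TY; exact S.new1 _ _ hx'
        rw [h1]
        by_cases h3 : TY ω x (y - 1)
        · rw [if_pos h3, if_pos (h2.2 h3)]
        · rw [if_neg h3, if_neg (fun h4 => h3 (h2.1 h4))]
      · rw [S.new2 _ _ (Or.inr ⟨hx', by decide⟩)] at h
        have := (hE _ h).1
        simp only at this
        rcases this with h1 | h1
        · omega
        · exact absurd h1.2.2.1 (by decide)
  · -- BY
    intro x y h
    unfold BY at h
    unfold et eb
    by_cases hx : x0 < x
    · rw [if_pos hx, if_pos hx, if_pos hx]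
      rw [S.new2 _ _ (Or.inl hx)] at h
      have h1 := hg.rel _ h
      simp only [relOK] at h1
      simp at h1
      rw [show y + 1 - y0 = y - y0 + 1 by ring, h1]
      have h2 : TX ω' (x - 1) y ↔ ((x - x0 - 1, y - y0, (1 : ℤ)), (0 : Fin 3)) ∈ E0 f := by
        unfold TX
        rw [S.new2 _ _ (by
          rcases lt_or_eq_of_le (show x0 ≤ x - 1 by omega) with h5 | h5
          · exact Or.inl h5
          · exact Or.inr ⟨h5.symm, by decide⟩)]
        simp only
        rw [show x - 1 - x0 = x - x0 - 1 by ring]
      by_cases h3 : TX ω' (x - 1) y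
      · rw [if_pos h3, if_pos (h2.1 h3)]
      · rw [if_neg h3, if_neg (fun h4 => h3 (h2.2 h4))]
    · rcases lt_or_eq_of_le (not_lt.1 hx) with hx' | hx'
      · rw [if_neg hx, if_neg hx, if_neg hx]
        have h1 := hc.yb x y ((S.new1 _ _ hx').1 h)
        have h2 : TX ω' (x - 1) y ↔ TX ω (x - 1) y := by
          unfold TX; exact S.new1 _ _ (by simp only; omega)
        rw [h1]
        by_cases h3 : TX ω (x - 1) y
        · rw [if_pos h3, if_pos (h2.2 h3)]
        · rw [if_neg h3, if_neg (fun h4 => h3 (h2.1 h4))]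
      · have := S.old _ _ (S.new3 _ hx' h)
        simp only at this
        rcases this with h1 | h1
        · omega
        · exact absurd h1.2.2 (by decide)
  · -- b0
    intro x y h
    rw [dB_zero] at h
    unfold eb
    by_cases hx : x0 < x
    · rw [if_pos hx]
      apply hg.out
      intro hv
      rcases V0_edge f S.hf _ hv with ⟨-, h1⟩ | ⟨h1, -⟩
      · unfold atB at h1
        simp only at h1
        obtain ⟨n1, n2, n3, n4, n5⟩ := h
        unfold BX at n1 n2
        unfold BY at n3 n4
        unfold ZZ at n5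
        rw [S.new2 _ _ (Or.inl hx)] at n1 n3 n4 n5
        rw [S.new2 _ _ (by
          rcases lt_or_eq_of_le (show x0 ≤ x - 1 by omega) with h5 | h5
          · exact Or.inl h5
          · exact Or.inr ⟨h5.symm, by decide⟩)] at n2
        simp only at n1 n2 n3 n4 n5
        rw [show x - 1 - x0 = x - x0 - 1 by ring] at n2
        rw [show y - 1 - y0 = y - y0 - 1 by ring] at n4
        tauto
      · exact absurd h1 (by simp)
    · rw [if_neg hx]
      apply hc.b0
      rw [dB_zero]
      obtain ⟨n1, n2, n3, n4, n5⟩ := h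
      unfold BX at n1 n2 ⊢
      unfold BY at n3 n4 ⊢
      unfold ZZ at n5 ⊢
      rcases lt_or_eq_of_le (not_lt.1 hx) with hx' | hx'
      · rw [S.new1 _ _ hx'] at n1 n3 n4 n5
        rw [S.new1 _ _ (by simp only; omega)] at n2
        exact ⟨n1, n2, n3, n4, n5⟩
      · rw [S.new1 _ _ (by simp only; omega)] at n2
        refine ⟨?_, n2, ?_, ?_, ?_⟩
        · intro h1
          have := S.old _ _ h1
          simp only at this
          rcases this with h2 | h2
          · omega
          · exact absurd h2.2.2 (by decide)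
        · intro h1
          have := S.old _ _ h1
          simp only at this
          rcases this with h2 | h2
          · omega
          · exact absurd h2.2.2 (by decide)
        · intro h1
          have := S.old _ _ h1
          simp only at this
          rcases this with h2 | h2
          · omega
          · exact absurd h2.2.2 (by decide)
        · intro h1
          have := S.old _ _ h1
          simp only at this
          rcases this with h2 | h2
          · omega
          · exact absurd h2.2.2 (by decide)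
  · -- t0
    intro x y h
    rw [dT_zero] at h
    unfold et
    by_cases hx : x0 < x
    · rw [if_pos hx]
      apply hg.out
      intro hv
      rcases V0_edge f S.hf _ hv with ⟨h1, -⟩ | ⟨-, h1⟩
      · exact absurd h1 (by simp)
      · unfold atT at h1
        simp only at h1
        obtain ⟨n1, n2, n3, n4, n5⟩ := h
        unfold TX at n1 n2
        unfold TY at n3 n4
        unfold ZZ at n5
        rw [S.new2 _ _ (Or.inl hx)] at n1 n3 n4 n5
        rw [S.new2 _ _ (by
          rcases lt_or_eq_of_le (show x0 ≤ x - 1 by omega) with h5 | h5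
          · exact Or.inl h5
          · exact Or.inr ⟨h5.symm, by decide⟩)] at n2
        simp only at n1 n2 n3 n4 n5
        rw [show x - 1 - x0 = x - x0 - 1 by ring] at n2
        rw [show y - 1 - y0 = y - y0 - 1 by ring] at n4
        tauto
    · rw [if_neg hx]
      apply hc.t0
      rw [dT_zero]
      obtain ⟨n1, n2, n3, n4, n5⟩ := h
      rcases lt_or_eq_of_le (not_lt.1 hx) with hx' | hx'
      · unfold TX at n1 n2 ⊢
        unfold TY at n3 n4 ⊢
        unfold ZZ at n5 ⊢
        rw [S.new1 _ _ hx'] at n1 n3 n4 n5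
        rw [S.new1 _ _ (by simp only; omega)] at n2
        exact ⟨n1, n2, n3, n4, n5⟩
      · -- `(x0, y, 1)` is not one of the two ends
        have hnot : ¬ ((x, y, (1 : ℤ)) = (x0, y0, 1) ∨ (x, y, (1 : ℤ)) = (x0, y0, 1) + vec f) := by
          intro h1
          apply n1
          unfold TX
          rw [S.new2 _ _ (Or.inr ⟨hx', by decide⟩)]
          simp only
          rcases h1 with h1 | h1
          · have e1 := congrArg (fun p : Z3 => p.1) h1
            have e2 := congrArg (fun p : Z3 => p.2.1) h1
            simp only at e1 e2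
            rw [e1, e2, sub_self, sub_self]
            exact (E0_conn f S.hf).1
          · have h3 : ((x - x0, y - y0, (1 : ℤ)) : Z3) = (0, 0, 1) + vec f := by
              have e1 : ((x, y, (1 : ℤ)) : Z3) - (x0, y0, 0) =
                (x0, y0, 1) + vec f - (x0, y0, 0) := by rw [h1]
              have e2 : ((x, y, (1 : ℤ)) : Z3) - (x0, y0, 0) = (x - x0, y - y0, 1) := by simp
              have e3 : ((x0, y0, (1 : ℤ)) : Z3) + vec f - (x0, y0, 0) = (0, 0, 1) + vec f := by
                have : ((x0, y0, (1 : ℤ)) : Z3) = (x0, y0, 0) + (0, 0, 1) := by simp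
                rw [this]; abel
              rw [e2, e3] at e1
              exact e1
            rw [h3]
            exact (E0_conn f S.hf).2
        refine ⟨?_, ?_, ?_, ?_, ?_⟩
        · intro h1
          exact hnot (by simpa using (S.plane _ _ h1).1 hx')
        · intro h1
          have h2 := (S.plane _ _ h1).2
          have h3 : ((x - 1, y, (1 : ℤ)) : Z3) + un 0 = (x, y, 1) := by simp [un]
          rw [h3] at h2
          exact hnot (h2 hx')
        · intro h1
          exact hnot (by simpa using (S.plane _ _ h1).1 hx')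
        · intro h1
          have h2 := (S.plane _ _ h1).2
          have h3 : ((x, y - 1, (1 : ℤ)) : Z3) + un 1 = (x, y, 1) := by simp [un]
          rw [h3] at h2
          exact hnot (h2 hx')
        · intro h1
          have h2 := (S.plane _ _ h1).2
          have h3 : ((x, y, (0 : ℤ)) : Z3) + un 2 = (x, y, 1) := by simp [un]
          rw [h3] at h2
          exact hnot (h2 hx')

/-- the constant colourings are colourings -/
theorem const_col (ω : Finset Ed) (k : Fin 3) :
    Col ω (fun x y => if dB ω x y = 0 then 0 else k) (fun x y => if dT ω x y = 0 then 0 else k) := by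
  have hB : ∀ x y, ¬ (dB ω x y = 0) → (if dB ω x y = 0 then (0 : Fin 3) else k) = k :=
    fun x y h => if_neg h
  have hT : ∀ x y, ¬ (dT ω x y = 0) → (if dT ω x y = 0 then (0 : Fin 3) else k) = k :=
    fun x y h => if_neg h
  refine ⟨?_, ?_, ?_, ?_, ?_, ?_, ?_⟩
  · intro x y h
    rw [hB, hT]
    · rw [dT_zero]; tauto
    · rw [dB_zero]; tauto
  · intro x y h
    rw [hT, hT]
    · rw [dT_zero]; tauto
    · rw [dT_zero, add_sub_cancel_right]; tauto
  · intro x y h
    rw [hT, hT]
    · rw [dT_zero]; tauto
    · rw [dT_zero, add_sub_cancel_right]; tauto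
  · intro x y h
    rw [hB, hB]
    · by_cases h2 : TY ω x (y - 1)
      · rw [if_pos h2, hT, sc_self]
        rw [dT_zero]; tauto
      · rw [if_neg h2]
    · rw [dB_zero]; tauto
    · rw [dB_zero, add_sub_cancel_right]; tauto
  · intro x y h
    rw [hB, hB]
    · by_cases h2 : TX ω (x - 1) y
      · rw [if_pos h2, hT, sc_self]
        rw [dT_zero]; tauto
      · rw [if_neg h2]
    · rw [dB_zero]; tauto
    · rw [dB_zero, add_sub_cancel_right]; tauto
  · intro x y h
    exact if_pos h
  · intro x y h
    exact if_pos h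

theorem lc_k (hf : f = .yp ∨ f = .ym) (k : Fin 3) : LC f (gk f k) k := by
  refine ⟨rel_gk f hf k, ?_, ?_, ?_⟩
  · unfold gk; rw [if_pos (ends_mem f hf).1]
  · unfold gk; rw [if_pos (ends_mem f hf).2]
  · intro v hv
    unfold gk; rw [if_neg hv]

theorem lookup_none {α β : Type} [BEq α] [LawfulBEq α] (l : List α) (l' : List β) (a : α) (h : a ∉ l) :
    (l.zip l').lookup a = none := by
  induction l generalizing l' with
  | nil => rfl
  | cons b l ih =>
    cases l' with
    | nil => rfl
    | cons c l' =>
      rw [List.zip_cons_cons, List.lookup_cons]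
      have hab : (a == b) = false := by
        rw [beq_eq_false_iff_ne]
        intro h1
        exact h (h1 ▸ List.mem_cons_self)
      rw [hab]
      exact ih l' (fun h1 => h (List.mem_cons_of_mem _ h1))

theorem lc_s (hf : f = .yp ∨ f = .ym) : LC f (gs f) 0 := by
  refine ⟨rel_gs f hf, (gs_ends f hf).1, (gs_ends f hf).2, ?_⟩
  intro v hv
  unfold gs
  rw [lookup_none _ _ _ hv]
  rfl

/-- no vertices of the nice polygon at the right -/
theorem right_zero (S : Sit ω ω' f x0 y0) {b t : ℤ → ℤ → Fin 3} (hc : Col ω b t) {x y : ℤ}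
    (hx : x0 < x) : b x y = 0 ∧ t x y = 0 := by
  have key : ∀ v i, (v, i) ∈ ω → x0 < v.1 → False := by
    intro v i h h1
    rcases S.old v i h with h2 | h2
    · omega
    · omega
  have key2 : ∀ v, (v, (0 : Fin 3)) ∈ ω → x0 < v.1 + 1 → False := by
    intro v h h1
    rcases S.old v 0 h with h2 | h2
    · omega
    · exact absurd h2.2.1 (by decide)
  constructor
  · apply hc.b0
    rw [dB_zero]
    exact ⟨fun h => key _ _ h hx, fun h => key2 _ h (by simp only; omega), fun h => key _ _ h hx,
      fun h => key _ _ h hx, fun h => key _ _ h hx⟩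
  · apply hc.t0
    rw [dT_zero]
    exact ⟨fun h => key _ _ h hx, fun h => key2 _ h (by simp only; omega), fun h => key _ _ h hx,
      fun h => key _ _ h hx, fun h => key _ _ h hx⟩

/-- more colourings -/
theorem more (hfin : StmFIN) (S : Sit ω ω' f x0 y0) : NC ω < NC ω' := by
  classical
  let Φ : (ℤ → ℤ → Fin 3) × (ℤ → ℤ → Fin 3) → (ℤ → ℤ → Fin 3) × (ℤ → ℤ → Fin 3) := fun c =>
    (eb x0 y0 (gk f (c.2 x0 y0)) c.1, et x0 y0 (gk f (c.2 x0 y0)) c.2)
  have hmaps : ∀ c ∈ CS ω, Φ c ∈ CS ω' := fun c hc => ext_col S hc (lc_k S.hf _)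
  have hinj : Set.InjOn Φ (CS ω) := by
    rintro ⟨b, t⟩ hc ⟨b', t'⟩ hc' he
    have e1 : eb x0 y0 (gk f (t x0 y0)) b = eb x0 y0 (gk f (t' x0 y0)) b' := congrArg Prod.fst he
    have e2 : et x0 y0 (gk f (t x0 y0)) t = et x0 y0 (gk f (t' x0 y0)) t' := congrArg Prod.snd he
    have hb : b = b' := by
      funext x y
      by_cases hx : x0 < x
      · have a1 : Col ω b t := hc
        have a2 : Col ω b' t' := hc'
        rw [(right_zero S a1 hx).1, (right_zero S a2 hx).1]
      · have := congrFun (congrFun e1 x) y
        simpa only [eb, if_neg hx] using this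
    have ht : t = t' := by
      funext x y
      by_cases hx : x0 < x
      · have a1 : Col ω b t := hc
        have a2 : Col ω b' t' := hc'
        rw [(right_zero S a1 hx).2, (right_zero S a2 hx).2]
      · have := congrFun (congrFun e2 x) y
        simpa only [et, if_neg hx] using this
    rw [hb, ht]
  obtain ⟨v, hv, hv1, hv2, hv3⟩ := gs_non f S.hf
  -- the colour of the constant colouring at the end
  have hP : ((x0, y0, (1 : ℤ)) : Z3) = (x0, y0, 1) := rfl
  have hd : ¬ dT ω x0 y0 = 0 := by
    rw [dT_zero]
    have he := S.e0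
    split_ifs at he with h1
    · tauto
    · tauto
  set c0 : (ℤ → ℤ → Fin 3) × (ℤ → ℤ → Fin 3) :=
    (fun x y => if dB ω x y = 0 then 0 else 0, fun x y => if dT ω x y = 0 then 0 else 0) with hc0
  have h00 : c0.2 x0 y0 = 0 := by rw [hc0]; simp
  have hcs : ((eb x0 y0 (gs f) c0.1, et x0 y0 (gs f) c0.2) :
      (ℤ → ℤ → Fin 3) × (ℤ → ℤ → Fin 3)) ∈ CS ω' := by
    refine ext_col S (const_col ω 0) ?_
    have : (if dT ω x0 y0 = 0 then (0 : Fin 3) else 0) = 0 := by simp
    simp only [this]
    exact lc_s S.hf
  have hnot : ((eb x0 y0 (gs f) c0.1, et x0 y0 (gs f) c0.2) :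
      (ℤ → ℤ → Fin 3) × (ℤ → ℤ → Fin 3)) ∉ Φ '' CS ω := by
    rintro ⟨⟨b, t⟩, -, he⟩
    have e2 : et x0 y0 (gk f (t x0 y0)) t = et x0 y0 (gs f) c0.2 := congrArg Prod.snd he
    have e3 := congrFun (congrFun e2 x0) y0
    have e4 := congrFun (congrFun e2 (v.1 + x0)) (v.2.1 + y0)
    simp only [et, lt_irrefl, if_false] at e3
    rw [h00] at e3
    simp only [et] at e4
    rw [if_pos (by omega), if_pos (by omega), e3, add_sub_cancel_right, add_sub_cancel_right] at e4
    have hvv : ((v.1, v.2.1, (1 : ℤ)) : Z3) = v := by rw [← hv2]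
    rw [hvv] at e4
    apply hv3
    rw [← e4]
    unfold gk
    rw [if_pos hv]
  have h1 : (Φ '' CS ω).ncard < (CS ω').ncard := by
    refine Set.ncard_lt_ncard ?_ (hfin ω')
    refine ⟨?_, fun h => hnot (h hcs)⟩
    rintro _ ⟨c, hc, rfl⟩
    exact hmaps c hc
  rw [Set.ncard_image_of_injOn hinj] at h1
  exact h1

end

end ModCNT

open ModCNT in
theorem cnt : StmCNT := by
  intro hfin ω ω' p A f B hR hS hN hR'
  obtain ⟨hf, hz, hpl⟩ := hN
  set P : Z3 := p + pos B with hP
  have hPeq : P = (P.1, P.2.1, 1) := by
    rw [← hz]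
  -- the edges
  have hω : ∀ e, e ∈ ω ↔ e ∈ es p (A ++ f :: B) := by
    intro e; rw [hR.2, List.mem_toFinset]
  have hω' : ∀ e, e ∈ ω' ↔ e ∈ es p (A ++ TT f ++ B) := by
    intro e; rw [hR'.2, List.mem_toFinset]
  have hposT : pos (TT f) = vec f := by
    rcases hf with rfl | rfl
    · decide +kernel
    · decide +kernel
  have hsplit : ∀ e, e ∈ ω ↔ (e ∈ es (p + pos (f :: B)) A ∨ e ∈ es p B) ∨ e = edg P f := by
    intro e
    rw [hω, es_append, List.mem_append, es, List.mem_cons]
    tauto
  have hposB : pos (TT f ++ B) = pos (f :: B) := by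
    rw [pos_append, hposT]; simp only [pos]; abel
  have hsplit' : ∀ e, e ∈ ω' ↔ (e ∈ es (p + pos (f :: B)) A ∨ e ∈ es p B) ∨
      ((e.1.1 - P.1, e.1.2.1 - P.2.1, e.1.2.2), e.2) ∈ E0 f := by
    intro e
    rw [hω', List.append_assoc, es_append, List.mem_append, es_append, List.mem_append, hposB]
    have h1 : e ∈ es (p + pos B) (TT f) ↔
        (((e.1.1 - P.1, e.1.2.1 - P.2.1, e.1.2.2), e.2) : Ed) ∈ E0 f := by
      have h2 : p + pos B = (0, 0, 1) + (P.1, P.2.1, 0) := by
        rw [← hP]
        conv_lhs => rw [hPeq]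
        simp
      rw [h2, es_shift, List.mem_map]
      constructor
      · rintro ⟨e', he', rfl⟩
        have : (((e'.1 + (P.1, P.2.1, 0)).1 - P.1, (e'.1 + (P.1, P.2.1, 0)).2.1 - P.2.1,
          (e'.1 + (P.1, P.2.1, 0)).2.2) : Z3) = e'.1 := by simp
        simp only [this]
        exact he'
      · intro h
        refine ⟨_, h, ?_⟩
        simp
    rw [h1]
    tauto
  have hvert : ∀ e ∈ ω, (e.1.1 < P.1 ∨ e.1 = P ∨ e.1 = P + vec f) ∧
      ((e.1 + un e.2).1 < P.1 ∨ e.1 + un e.2 = P ∨ e.1 + un e.2 = P + vec f) := by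
    intro e he
    have h1 := (hω e).1 he
    obtain ⟨⟨q, hq, h2⟩, ⟨q', hq', h3⟩⟩ := ends_of_mem h1
    rw [h3, h2]
    constructor
    · rcases hpl q hq with h4 | h4 | h4
      · left; simp only [hP, Prod.fst_add]; omega
      · right; left; rw [h4]
      · right; right; rw [h4, hP, add_assoc]
    · rcases hpl q' hq' with h4 | h4 | h4
      · left; simp only [hP, Prod.fst_add]; omega
      · right; left; rw [h4]
      · right; right; rw [h4, hP, add_assoc]
  have hvf : (vec f).1 = 0 ∧ (vec f).2.2 = 0 ∧ (vec f).2.1 ≠ 0 := by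
    rcases hf with rfl | rfl <;> simp [vec]
  have hold : ∀ v i, (v, i) ∈ ω → v.1 < P.1 ∨ (v.1 = P.1 ∧ i = 1 ∧ v.2.2 = 1) := by
    intro v i h
    obtain ⟨h1, h2⟩ := hvert _ h
    simp only at h1 h2
    rcases h1 with h1 | h1
    · exact Or.inl h1
    · right
      have hv1 : v.1 = P.1 := by
        rcases h1 with h1 | h1
        · rw [h1]
        · rw [h1, Prod.fst_add, hvf.1, add_zero]
      have hv3 : v.2.2 = 1 := by
        rcases h1 with h1 | h1
        · rw [h1]; exact hz
        · rw [h1, Prod.snd_add, Prod.snd_add, hvf.2.1, add_zero]; exact hz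
      refine ⟨hv1, ?_, hv3⟩
      have h3 : v + un i = P ∨ v + un i = P + vec f := by
        rcases h2 with h2 | h2
        · exfalso
          rw [Prod.fst_add] at h2
          have : 0 ≤ (un i).1 := by fin_cases i <;> simp [un]
          omega
        · exact h2
      have h4 : (v + un i).1 = P.1 := by
        rcases h3 with h3 | h3
        · rw [h3]
        · rw [h3, Prod.fst_add, hvf.1, add_zero]
      have h5 : (v + un i).2.2 = 1 := by
        rcases h3 with h3 | h3
        · rw [h3]; exact hz
        · rw [h3, Prod.snd_add, Prod.snd_add, hvf.2.1, add_zero]; exact hz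
      rw [Prod.fst_add] at h4
      rw [Prod.snd_add, Prod.snd_add] at h5
      have h6 : (un i).1 = 0 := by omega
      have h7 : (un i).2.2 = 0 := by omega
      revert h6 h7
      fin_cases i <;> simp [un]
  have hE := E0_pos f hf
  have hsit : Sit ω ω' f P.1 P.2.1 := by
    refine ⟨hf, hold, ?_, ?_, ?_, ?_, ?_⟩
    · intro v i h
      obtain ⟨h1, h2⟩ := hvert _ h
      simp only at h1 h2
      rw [← hPeq]
      constructor
      · intro h3
        rcases h1 with h1 | h1
        · omega
        · exact h1
      · intro h3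
        rcases h2 with h2 | h2
        · omega
        · exact h2
    · have h1 : edg P f ∈ ω := (hsplit _).2 (Or.inr rfl)
      rcases hf with rfl | rfl
      · rw [if_pos rfl]
        unfold TY
        simp only [edg] at h1
        rw [hPeq] at h1
        exact h1
      · rw [if_neg (by decide)]
        unfold TY
        simp only [edg] at h1
        rw [hPeq] at h1
        have : ((P.1, P.2.1, (1 : ℤ)) : Z3) - un 1 = (P.1, P.2.1 - 1, 1) := by simp [un]
        rw [this] at h1
        exact h1
    · intro v i hv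
      rw [hsplit', hsplit]
      constructor
      · rintro (h | h)
        · exact Or.inl h
        · have := (hE _ h).1
          simp only at this
          rcases this with h1 | h1
          · omega
          · omega
      · rintro (h | h)
        · exact Or.inl h
        · exfalso
          have h1 := congrArg Prod.fst h
          simp only at h1
          rcases hf with rfl | rfl
          · simp only [edg] at h1
            rw [h1] at hv
            exact lt_irrefl _ hv
          · simp only [edg] at h1
            rw [h1] at hv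
            have : (P - un 1).1 = P.1 := by simp [un]
            omega
    · intro v i hv
      rw [hsplit']
      constructor
      · rintro (h | h)
        · exfalso
          have h1 := hold v i ((hsplit _).2 (Or.inl h))
          rcases hv with hv | ⟨hv, hi⟩
          · rcases h1 with h1 | h1 <;> omega
          · rcases h1 with h1 | h1
            · omega
            · exact hi h1.2.1
        · exact h
      · exact Or.inr
    · intro v hv h
      rw [hsplit'] at h
      rcases h with h | h
      · exact (hsplit _).2 (Or.inl h)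
      · exfalso
        have := (hE _ h).1
        simp only at this
        rcases this with h1 | h1
        · omega
        · exact absurd h1.2.1 (by decide)
  refine ⟨?_, more hfin hsit⟩
  intro e he
  rcases (hsplit' e).1 he with h | h
  · exact hS e ((hsplit e).2 (Or.inl h))
  · obtain ⟨-, h1, h2⟩ := hE _ h
    simp only at h1 h2
    refine ⟨h1, ?_⟩
    rw [Prod.snd_add, Prod.snd_add] at h2 ⊢
    exact h2

end Pool.Agent.T6.H61.SL
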