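import Pool.Agent.T6.H61.SL.Defs

/-!
# Project SL, module DEG: the degrees of the vertices of a polygon
-/

set_option autoImplicit false

namespace Pool.Agent.T6.H61.SL

open KN

namespace ModDEG

theorem edg_eq {q q' : Z3} {d d' : Dir} (h : edg q d = edg q' d') :
    (q = q' ∧ d = d') ∨ (q' = q + vec d ∧ q = q' + vec d') := by
  obtain ⟨a, b, c⟩ := q
  obtain ⟨a', b', c'⟩ := q'
  cases d <;> cases d' <;>
    simp [edg, un, vec, Prod.ext_iff] at h ⊢ <;> omega

theorem ind_congr {P Q : Prop} [Decidable P] [Decidable Q] (h : P ↔ Q) : ind P = ind Q := by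
  unfold ind
  by_cases hP : P
  · rw [if_pos hP, if_pos (h.1 hP)]
  · rw [if_neg hP, if_neg (fun hq => hP (h.2 hq))]

/-- indicator of the equality of two points -/
def iv (a v : Z3) : ℕ := if a = v then 1 else 0

/-- number of ends of `e` at `v` -/
def inc (v : Z3) (e : Ed) : ℕ := iv e.1 v + iv (e.1 + un e.2) v

theorem inc_edg (v q : Z3) (d : Dir) : inc v (edg q d) = iv q v + iv (q + vec d) v := by
  obtain ⟨a, b, c⟩ := q
  obtain ⟨x, y, z⟩ := v
  unfold inc iv
  cases d
  · simp [edg, un, vec]
  · simp [edg, un, vec, add_comm, ← sub_eq_add_neg]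
  · simp [edg, un, vec]
  · simp [edg, un, vec, add_comm, ← sub_eq_add_neg]
  · simp [edg, un, vec]
  · simp [edg, un, vec, add_comm, ← sub_eq_add_neg]

theorem es_length (p : Z3) (w : List Dir) : (es p w).length = w.length := by
  induction w with
  | nil => rfl
  | cons d l ih => simp [es, ih]

theorem es_getElem (p : Z3) (w : List Dir) (i : ℕ) (h : i < (es p w).length)
    (h' : i < w.length) : (es p w)[i] = edg (p + pos (w.drop (i + 1))) w[i] := by
  induction w generalizing i with
  | nil => simp at h'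
  | cons d l ih =>
    cases i with
    | zero => simp [es]
    | succ i =>
      simp only [es, List.getElem_cons_succ, List.drop_succ_cons]
      exact ih i (by rw [es_length]; simpa using h') (by simpa using h')

theorem pos_drop_inj {w : List Dir} (hw : SAP w) {i j : ℕ} (hi : i < w.length)
    (hj : j < w.length) (h : pos (w.drop (i + 1)) = pos (w.drop (j + 1))) : i = j := by
  have h1 := hw.2.2
  have li : i < (path w).tail.length := by rw [List.length_tail, path_length]; omega
  have lj : j < (path w).tail.length := by rw [List.length_tail, path_length]; omega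
  have ei : (path w).tail[i] = pos (w.drop (i + 1)) := by
    rw [List.getElem_tail, path_getElem]
  have ej : (path w).tail[j] = pos (w.drop (j + 1)) := by
    rw [List.getElem_tail, path_getElem]
  exact (List.Nodup.getElem_inj_iff h1).1 (by rw [ei, ej, h])

theorem pos_drop' (w : List Dir) (i : ℕ) (h : i < w.length) :
    pos (w.drop i) = pos (w.drop (i + 1)) + vec w[i] := by
  rw [List.drop_eq_getElem_cons h, pos]

theorem es_nodup {w : List Dir} (hw : SAP w) (p : Z3) : (es p w).Nodup := by
  rw [List.nodup_iff_pairwise_ne, List.pairwise_iff_getElem]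
  intro i j hi hj hij heq
  have hi' : i < w.length := by rwa [es_length] at hi
  have hj' : j < w.length := by rwa [es_length] at hj
  rw [es_getElem p w i hi hi', es_getElem p w j hj hj'] at heq
  have h4 := hw.1
  rcases edg_eq heq with ⟨h1, -⟩ | ⟨h1, h2⟩
  · have := pos_drop_inj hw hi' hj' (add_left_cancel h1)
    omega
  · rw [add_assoc, ← pos_drop' w i hi'] at h1
    rw [add_assoc, ← pos_drop' w j hj'] at h2
    have h1' := add_left_cancel h1
    have h2' := add_left_cancel h2
    obtain ⟨j', rfl⟩ : ∃ j', j = j' + 1 := ⟨j - 1, by omega⟩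
    have e1 := pos_drop_inj hw hi' (by omega) h2'
    subst e1
    rcases Nat.eq_zero_or_pos i with h0 | h0
    · subst h0
      rw [List.drop_zero, hw.2.1] at h1'
      have h3 : pos (w.drop (w.length - 1 + 1)) = 0 := by
        rw [Nat.sub_add_cancel (by omega), List.drop_length, pos]
      have := pos_drop_inj hw hj' (by omega) (h1'.trans h3.symm)
      omega
    · obtain ⟨i', rfl⟩ : ∃ i', i = i' + 1 := ⟨i - 1, by omega⟩
      have := pos_drop_inj hw hj' (by omega) h1'
      omega

theorem sum_inc (p v : Z3) (w : List Dir) :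
    ((es p w).map (inc v)).sum + iv (p + pos w) v + iv p v =
      2 * ((path w).map (fun q => iv (p + q) v)).sum := by
  induction w with
  | nil =>
    simp only [es, path, pos, List.map_nil, List.sum_nil, List.map_cons, List.sum_cons, add_zero]
    ring
  | cons d l ih =>
    simp only [es, path, pos, List.map_cons, List.sum_cons, inc_edg]
    rw [mul_add, ← ih, ← add_assoc p]
    ring

theorem sum_ind_le {l : List Z3} (h : l.Nodup) (p v : Z3) :
    (l.map (fun q => iv (p + q) v)).sum ≤ 1 := by
  induction l with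
  | nil => simp
  | cons a l ih =>
    rw [List.nodup_cons] at h
    rw [List.map_cons, List.sum_cons]
    by_cases ha : p + a = v
    · have h1 : (l.map (fun q => iv (p + q) v)).sum = 0 := by
        rw [List.sum_eq_zero_iff]
        intro x hx
        rw [List.mem_map] at hx
        obtain ⟨q, hq, rfl⟩ := hx
        unfold iv
        rw [if_neg]
        intro h2
        rw [← ha] at h2
        have := add_left_cancel h2
        exact h.1 (this ▸ hq)
      rw [h1]
      unfold iv
      rw [if_pos ha]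
    · have h1 := ih h.2
      have h2 : iv (p + a) v = 0 := if_neg ha
      omega

theorem deg_all {ω : Finset Ed} {p : Z3} {w : List Dir} (h : Rep ω p w) (v : Z3) :
    ∑ e ∈ ω, inc v e = 0 ∨ ∑ e ∈ ω, inc v e = 2 := by
  obtain ⟨hw, rfl⟩ := h
  have h0 : ∑ e ∈ (es p w).toFinset, inc v e = ((es p w).map (inc v)).sum :=
    List.sum_toFinset _ (es_nodup hw p)
  rw [h0]
  have h1 := sum_inc p v w
  have h2 : path w = pos w :: (path w).tail := by
    cases w <;> rfl
  rw [h2, List.map_cons, List.sum_cons, hw.2.1, add_zero] at h1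
  have h3 := sum_ind_le hw.2.2 p v
  omega

theorem sum_inc_eq (ω : Finset Ed) (v : Z3) : ∑ e ∈ ω, inc v e =
    (ind ((v, 0) ∈ ω) + ind ((v, 1) ∈ ω) + ind ((v, 2) ∈ ω)) +
      (ind ((v - un 0, 0) ∈ ω) + ind ((v - un 1, 1) ∈ ω) + ind ((v - un 2, 2) ∈ ω)) := by
  have key : ∀ a : Ed, ind (a ∈ ω) = ∑ e ∈ ω, if e = a then 1 else 0 := by
    intro a
    rw [Finset.sum_ite_eq']
    rfl
  have e1 : ∀ e : Ed, iv e.1 v = ∑ i : Fin 3, if e = (v, i) then 1 else 0 := by
    rintro ⟨a, k⟩
    rw [Fin.sum_univ_three]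
    fin_cases k <;> simp [iv]
  have e2 : ∀ e : Ed, iv (e.1 + un e.2) v = ∑ i : Fin 3, if e = (v - un i, i) then 1 else 0 := by
    rintro ⟨a, k⟩
    rw [Fin.sum_univ_three]
    fin_cases k <;> simp [iv, eq_sub_iff_add_eq]
  unfold inc
  rw [Finset.sum_add_distrib]
  congr 1
  · rw [key, key, key, Finset.sum_congr rfl fun e _ => e1 e, Finset.sum_comm, Fin.sum_univ_three]
  · rw [key, key, key, Finset.sum_congr rfl fun e _ => e2 e, Finset.sum_comm, Fin.sum_univ_three]

end ModDEG

open ModDEG

theorem deg : StmDEG := by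
  intro ω hP hS x y
  obtain ⟨p, w, h⟩ := hP
  constructor
  · have h1 := deg_all h (x, y, 0)
    rw [sum_inc_eq] at h1
    have h2 : ind (((x, y, (0 : ℤ)) - un 2, (2 : Fin 3)) ∈ ω) = 0 := by
      unfold ind
      rw [if_neg]
      intro h3
      have := (hS _ h3).1
      simp [un] at this
    have e1 : ind (((x, y, (0 : ℤ)) - un 0, (0 : Fin 3)) ∈ ω) = ind (BX ω (x - 1) y) :=
      ind_congr (by simp [BX, un])
    have e2 : ind (((x, y, (0 : ℤ)) - un 1, (1 : Fin 3)) ∈ ω) = ind (BY ω x (y - 1)) :=
      ind_congr (by simp [BY, un])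
    have e3 : ind (((x, y, (0 : ℤ)), (0 : Fin 3)) ∈ ω) = ind (BX ω x y) := rfl
    have e4 : ind (((x, y, (0 : ℤ)), (1 : Fin 3)) ∈ ω) = ind (BY ω x y) := rfl
    have e5 : ind (((x, y, (0 : ℤ)), (2 : Fin 3)) ∈ ω) = ind (ZZ ω x y) := rfl
    unfold dB
    omega
  · have h1 := deg_all h (x, y, 1)
    rw [sum_inc_eq] at h1
    have h2 : ind (((x, y, (1 : ℤ)), (2 : Fin 3)) ∈ ω) = 0 := by
      unfold ind
      rw [if_neg]
      intro h3
      have := (hS _ h3).2
      simp [un] at this
    have e1 : ind (((x, y, (1 : ℤ)) - un 0, (0 : Fin 3)) ∈ ω) = ind (TX ω (x - 1) y) :=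
      ind_congr (by simp [TX, un])
    have e2 : ind (((x, y, (1 : ℤ)) - un 1, (1 : Fin 3)) ∈ ω) = ind (TY ω x (y - 1)) :=
      ind_congr (by simp [TY, un])
    have e3 : ind (((x, y, (1 : ℤ)), (0 : Fin 3)) ∈ ω) = ind (TX ω x y) := rfl
    have e4 : ind (((x, y, (1 : ℤ)), (1 : Fin 3)) ∈ ω) = ind (TY ω x y) := rfl
    have e5 : ind (((x, y, (1 : ℤ)) - un 2, (2 : Fin 3)) ∈ ω) = ind (ZZ ω x y) :=
      ind_congr (by simp [ZZ, un])
    unfold dT
    omega

end Pool.Agent.T6.H61.SL
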