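import Pool.Agent.T6.H61.SL.Defs

/-!
# Module FIN: there are finitely many colourings (helper61)
-/

set_option autoImplicit false

namespace Pool.Agent.T6.H61.SL

open KN

namespace ModFIN

/-- the coordinates that occur -/
def sup (ω : Finset Ed) : Finset (ℤ × ℤ) :=
  ω.biUnion fun e => {(e.1.1, e.1.2.1), (e.1.1 + 1, e.1.2.1), (e.1.1, e.1.2.1 + 1)}

theorem mem_sup {ω : Finset Ed} {v : Z3} {i : Fin 3} (h : (v, i) ∈ ω) :
    (v.1, v.2.1) ∈ sup ω ∧ (v.1 + 1, v.2.1) ∈ sup ω ∧ (v.1, v.2.1 + 1) ∈ sup ω := by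
  unfold sup
  simp only [Finset.mem_biUnion]
  exact ⟨⟨_, h, by simp⟩, ⟨_, h, by simp⟩, ⟨_, h, by simp⟩⟩

theorem ind_zero {P : Prop} [Decidable P] : ind P = 0 ↔ ¬ P := by simp [ind]

theorem dB_sup {ω : Finset Ed} {x y : ℤ} (h : (x, y) ∉ sup ω) : dB ω x y = 0 := by
  unfold dB
  simp only [Nat.add_eq_zero_iff, ind_zero]
  refine ⟨⟨⟨⟨fun h1 => h (mem_sup h1).1, fun h1 => h ?_⟩, fun h1 => h (mem_sup h1).1⟩,
    fun h1 => h ?_⟩, fun h1 => h (mem_sup h1).1⟩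
  · have := (mem_sup h1).2.1
    simpa using this
  · have := (mem_sup h1).2.2
    simpa using this

theorem dT_sup {ω : Finset Ed} {x y : ℤ} (h : (x, y) ∉ sup ω) : dT ω x y = 0 := by
  unfold dT
  simp only [Nat.add_eq_zero_iff, ind_zero]
  refine ⟨⟨⟨⟨fun h1 => h (mem_sup h1).1, fun h1 => h ?_⟩, fun h1 => h (mem_sup h1).1⟩,
    fun h1 => h ?_⟩, fun h1 => h (mem_sup h1).1⟩
  · have := (mem_sup h1).2.1
    simpa using this
  · have := (mem_sup h1).2.2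
    simpa using this

end ModFIN

open ModFIN in
theorem fin : StmFIN := by
  intro ω
  let r : (ℤ → ℤ → Fin 3) × (ℤ → ℤ → Fin 3) →
      ((sup ω → Fin 3) × (sup ω → Fin 3)) := fun c =>
    (fun q => c.1 q.1.1 q.1.2, fun q => c.2 q.1.1 q.1.2)
  refine Set.Finite.of_finite_image (f := r) (Set.toFinite _) ?_
  rintro ⟨b, t⟩ hc ⟨b', t'⟩ hc' he
  have a1 : Col ω b t := hc
  have a2 : Col ω b' t' := hc'
  have e1 : (fun q : sup ω => b q.1.1 q.1.2) = fun q => b' q.1.1 q.1.2 := congrArg Prod.fst he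
  have e2 : (fun q : sup ω => t q.1.1 q.1.2) = fun q => t' q.1.1 q.1.2 := congrArg Prod.snd he
  have hb : b = b' := by
    funext x y
    by_cases h : (x, y) ∈ sup ω
    · exact congrFun e1 ⟨(x, y), h⟩
    · rw [a1.b0 x y (dB_sup h), a2.b0 x y (dB_sup h)]
  have ht : t = t' := by
    funext x y
    by_cases h : (x, y) ∈ sup ω
    · exact congrFun e2 ⟨(x, y), h⟩
    · rw [a1.t0 x y (dT_sup h), a2.t0 x y (dT_sup h)]
  rw [hb, ht]

end Pool.Agent.T6.H61.SL
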