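import Pool.Agent.T6.H61.SL.Defs
import Pool.Agent.H246KN.All
import Pool.Agent.H246K2.All2

/-!
# Module GRO: the long word can be inserted without changing the knot type (helper61)
-/

set_option autoImplicit false

namespace Pool.Agent.T6.H61.SL

open KN

namespace ModGRO

/-- insertion of three letters around a square -/
theorem ins_word {l1 l2 : List Dir} {e d : Dir} (hS : SAP (l1 ++ e :: l2)) (hp : perp d e)
    (h1 : pos l2 + vec d ∉ path (l1 ++ e :: l2))
    (h2 : pos l2 + vec e + vec d ∉ path (l1 ++ e :: l2)) :
    SAP (l1 ++ neg d :: e :: d :: l2) ∧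
      Same (vl (l1 ++ e :: l2)) (vl (l1 ++ neg d :: e :: d :: l2)) := by
  have hget : (l1 ++ e :: l2).getD l1.length .xp = e := by
    rw [List.getD_eq_getElem?_getD, List.getElem?_append_right (le_refl _)]
    simp
  have hdrop : (l1 ++ e :: l2).drop (l1.length + 1) = l2 := by
    rw [List.drop_append]
    simp
  have htake : (l1 ++ e :: l2).take l1.length = l1 := by simp
  have hsite : site (l1 ++ e :: l2) l1.length d := by
    refine ⟨by simp, by rw [hget]; exact hp, by rw [hdrop]; exact h1, ?_⟩
    rw [hdrop, hget]
    intro h
    apply h2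
    have : pos l2 + vec e + vec d = pos l2 + vec d + vec e := by abel
    rw [this]; exact h
  have hins : ins (l1 ++ e :: l2) l1.length d = l1 ++ neg d :: e :: d :: l2 := by
    unfold ins
    rw [htake, hget, hdrop]
    simp
  have e1 := (S_ins_proof _ _ _ hS hsite).1
  have e2 := c_local _ _ _ hS hsite
  rw [hins] at e1 e2
  exact ⟨e1, e2⟩

/-- interior vertices of a subwalk -/
def inn (B : List Dir) : List Z3 := (path B).dropLast.tail

theorem inn_sub {B : List Dir} {p : Z3} (h : p ∈ inn B) : p ∈ path B :=
  List.mem_of_mem_dropLast (List.mem_of_mem_tail h)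

theorem path_dropLast (B : List Dir) (hB : B ≠ []) : (path B).dropLast = pos B :: inn B := by
  cases B with
  | nil => exact absurd rfl hB
  | cons d B =>
    simp only [inn, path, List.dropLast_cons_of_ne_nil (path_ne_nil B), List.tail_cons, pos]

theorem mem_block {L1 B L2 : List Dir} {f : Dir} (hB : pos B = vec f) (hne : B ≠ []) {q : Z3}
    (hq : q ∈ path (L1 ++ B ++ L2)) :
    q ∈ path (L1 ++ f :: L2) ∨ ∃ p ∈ inn B, q = p + pos L2 := by
  have h1 : pos (B ++ L2) = pos (f :: L2) := by
    rw [pos_append, hB]; simp only [pos]; abel
  have h2 : pos B + pos L2 = pos (f :: L2) := by rw [← pos_append, h1]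
  rw [List.append_assoc, path_append L1 (B ++ L2), h1, path_append B L2, path_dropLast B hne,
    List.map_cons, h2, List.cons_append, List.mem_append, List.mem_cons, List.mem_append,
    List.mem_map] at hq
  rw [path_append L1 (f :: L2), List.mem_append]
  simp only [path]
  rw [List.mem_cons]
  rcases hq with h | h | h | h
  · exact Or.inl (Or.inl (List.mem_map.2 h))
  · exact Or.inl (Or.inr (Or.inl h))
  · obtain ⟨p, hp, rfl⟩ := List.mem_map.1 h
    exact Or.inr ⟨p, hp, rfl⟩
  · exact Or.inl (Or.inr (Or.inr h))

section

variable {A B : List Dir} {f : Dir}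

/-- a new vertex of the local word is a new vertex of the whole word -/
theorem new_vertex (hR : ∀ q ∈ path (A ++ f :: B), q.1 ≤ (pos B).1) {u : List Dir}
    (hpu : pos u = vec f) (hne : u ≠ []) {r : Z3} (h1 : 1 ≤ r.1) (h2 : r ∉ path u) :
    r + pos B ∉ path (A ++ u ++ B) := by
  intro h
  rcases mem_block hpu hne h with h3 | ⟨p, hp, h3⟩
  · have := hR _ h3
    simp only [Prod.fst_add] at this
    omega
  · have : r = p := add_right_cancel h3
    rw [this] at h2
    exact h2 (inn_sub hp)

/-- the state of the runner -/
structure St (A B : List Dir) (f : Dir) (u : List Dir) : Prop where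
  ps : pos u = vec f
  ne : u ≠ []
  sap : SAP (A ++ u ++ B)
  same : Same (vl (A ++ f :: B)) (vl (A ++ u ++ B))

theorem step_sound (hR : ∀ q ∈ path (A ++ f :: B), q.1 ≤ (pos B).1) (hSf : SAP (A ++ f :: B))
    {u u' : List Dir} {o : Op}
    (h : St A B f u) (ho : stepO u o = some u') : St A B f u' := by
  cases o with
  | F i =>
    simp only [stepO] at ho
    split at ho
    · rename_i a b u2 hdrop
      split_ifs at ho with hc
      obtain ⟨c1, c2, c3⟩ := hc
      have hu : u = u.take i ++ a :: b :: u2 := by rw [← hdrop, List.take_append_drop]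
      have hu' : u' = u.take i ++ b :: a :: u2 := (Option.some.inj ho).symm
      have hnew := new_vertex (A := A) (B := B) hR h.ps h.ne c2 c3
      have hW : A ++ u ++ B = (A ++ u.take i) ++ a :: b :: (u2 ++ B) := by
        conv_lhs => rw [hu]
        simp
      have hW' : A ++ u' ++ B = (A ++ u.take i) ++ b :: a :: (u2 ++ B) := by
        rw [hu']; simp
      have hpos : pos (u2 ++ B) + vec a = pos u2 + vec a + pos B := by
        rw [pos_append]; abel
      have hs := h.sap
      rw [hW] at hs hnew
      have := T_flip_proof (A ++ u.take i) (u2 ++ B) a b c1 hs (by rw [hpos]; exact hnew)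
      refine ⟨?_, ?_, ?_, ?_⟩
      · rw [← h.ps, hu', hu]
        simp only [pos_append, pos]
        have : (List.take i (List.take i u ++ a :: b :: u2)) = List.take i u := by
          rw [← hu]
        rw [this]
        abel
      · rw [hu']; simp
      · rw [hW']; exact this.1
      · refine h.same.trans ?_
        rw [hW, hW']; exact this.2.1
    · exact absurd ho (by simp)
  | I i d =>
    simp only [stepO] at ho
    split at ho
    · rename_i e u2 hdrop
      split_ifs at ho with hc
      obtain ⟨c1, c2, c3, c4, c5⟩ := hc
      have hu : u = u.take i ++ e :: u2 := by rw [← hdrop, List.take_append_drop]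
      have hu' : u' = u.take i ++ neg d :: e :: d :: u2 := (Option.some.inj ho).symm
      have hnew1 := new_vertex (A := A) (B := B) hR h.ps h.ne c2 c4
      have hnew2 := new_vertex (A := A) (B := B) hR h.ps h.ne c3 c5
      have hW : A ++ u ++ B = (A ++ u.take i) ++ e :: (u2 ++ B) := by
        conv_lhs => rw [hu]
        simp
      have hW' : A ++ u' ++ B = (A ++ u.take i) ++ neg d :: e :: d :: (u2 ++ B) := by
        rw [hu']; simp
      have hpos1 : pos (u2 ++ B) + vec d = pos u2 + vec d + pos B := by
        rw [pos_append]; abel
      have hpos2 : pos (u2 ++ B) + vec e + vec d = pos u2 + vec e + vec d + pos B := by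
        rw [pos_append]; abel
      have hs := h.sap
      rw [hW] at hs hnew1 hnew2
      have := ins_word hs c1 (by rw [hpos1]; exact hnew1) (by rw [hpos2]; exact hnew2)
      refine ⟨?_, ?_, ?_, ?_⟩
      · rw [← h.ps, hu']
        conv_rhs => rw [hu]
        simp only [pos_append, pos, vec_neg]
        abel
      · rw [hu']; simp
      · rw [hW']; exact this.1
      · refine h.same.trans ?_
        rw [hW, hW']; exact this.2
    · exact absurd ho (by simp)
  | R i =>
    simp only [stepO] at ho
    split at ho
    · rename_i a e d u2 hdrop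
      split_ifs at ho with hc
      obtain ⟨c0, c1, c2, c3, c4, c5⟩ := hc
      have hu : u = u.take i ++ neg d :: e :: d :: u2 := by
        rw [← c0, ← hdrop, List.take_append_drop]
      have hu' : u' = u.take i ++ e :: u2 := (Option.some.inj ho).symm
      have hps' : pos u' = vec f := by
        rw [← h.ps, hu']
        conv_rhs => rw [hu]
        simp only [pos_append, pos, vec_neg]
        abel
      have hne' : u' ≠ [] := by rw [hu']; simp
      rw [← hu'] at c4 c5
      have hnew1 := new_vertex (A := A) (B := B) hR hps' hne' c2 c4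
      have hnew2 := new_vertex (A := A) (B := B) hR hps' hne' c3 c5
      have hW : A ++ u ++ B = (A ++ u.take i) ++ [neg d, e, d] ++ (u2 ++ B) := by
        conv_lhs => rw [hu]
        simp
      have hW0 : A ++ u ++ B = (A ++ u.take i) ++ neg d :: e :: d :: (u2 ++ B) := by
        conv_lhs => rw [hu]
        simp
      have hW' : A ++ u' ++ B = (A ++ u.take i) ++ e :: (u2 ++ B) := by
        rw [hu']; simp
      have hpos1 : pos (u2 ++ B) + vec d = pos u2 + vec d + pos B := by
        rw [pos_append]; abel
      have hpos2 : pos (u2 ++ B) + vec e + vec d = pos u2 + vec e + vec d + pos B := by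
        rw [pos_append]; abel
      have hs := h.sap
      rw [hW] at hs
      have hlen : 4 ≤ ((A ++ u.take i) ++ e :: (u2 ++ B)).length := by
        have h4 := hSf.1
        simp only [List.length_append, List.length_cons] at h4 ⊢
        omega
      have hs' : SAP ((A ++ u.take i) ++ e :: (u2 ++ B)) := by
        refine (T_Wrep_proof (A ++ u.take i) (u2 ++ B) [neg d, e, d] e ?_ (by simp)).2 hs hlen
        simp only [pos, vec_neg]
        abel
      rw [hW'] at hnew1 hnew2
      have := ins_word hs' c1 (by rw [hpos1]; exact hnew1) (by rw [hpos2]; exact hnew2)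
      refine ⟨hps', hne', ?_, ?_⟩
      · rw [hW']; exact hs'
      · refine h.same.trans ?_
        rw [hW0, hW']; exact this.2.symm
    · exact absurd ho (by simp)

theorem run_sound (hR : ∀ q ∈ path (A ++ f :: B), q.1 ≤ (pos B).1) (hSf : SAP (A ++ f :: B)) :
    ∀ (os : List Op) (u u' : List Dir), St A B f u → runO os u = some u' → St A B f u' := by
  intro os
  induction os with
  | nil =>
    intro u u' h ho
    simp only [runO, Option.some.injEq] at ho
    rw [← ho]; exact h
  | cons o os ih =>
    intro u u' h ho
    simp only [runO] at ho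
    split at ho
    · rename_i u1 h1
      exact ih u1 u' (step_sound hR hSf h h1) ho
    · exact absurd ho (by simp)

end

end ModGRO

open ModGRO in
theorem gro : StmGRO := by
  intro A f B hf hS hR
  have h0 : St A B f [f] := by
    refine ⟨by simp [pos], by simp, by simpa using hS, ?_⟩
    have : A ++ [f] ++ B = A ++ f :: B := by simp
    rw [this]
    exact Same.refl _
  rcases hf with rfl | rfl
  · have := run_sound hR hS _ _ _ h0 runA
    exact ⟨this.sap, this.same⟩
  · have := run_sound hR hS _ _ _ h0 runB
    exact ⟨this.sap, this.same⟩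

end Pool.Agent.T6.H61.SL
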