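import Pool.Agent.T6.H61.SL.Defs
import Pool.Agent.H246KN.All

/-!
# Module INS of the project SL (MP_dd2c10_pr): a letter is replaced by three letters around a square
-/

set_option autoImplicit false

namespace Pool.Agent.T6.H61.SL

open KN

namespace ModINS

/-- `v` is an end of the edge `x` -/
def End (x : Ed) (v : Z3) : Prop := v = x.1 ∨ v = x.1 + un x.2

theorem end_edg (p v : Z3) (d : Dir) : End (edg p d) v ↔ v = p ∨ v = p + vec d := by
  obtain ⟨a, b, c⟩ := p
  obtain ⟨v1, v2, v3⟩ := v
  cases d <;> simp [End, edg, un, vec] <;> omega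

/-- an edge is determined by its ends -/
theorem edg_neg (q : Z3) (d : Dir) : edg (q + vec d) (neg d) = edg q d := by
  obtain ⟨a, b, c⟩ := q
  cases d <;> simp [edg, un, vec, neg] <;> omega

/-- the lower end of the step `d` -/
def lo (d : Dir) : Z3 := match d with
  | .xp => 0
  | .xm => - un 0
  | .yp => 0
  | .ym => - un 1
  | .zp => 0
  | .zm => - un 2

theorem edg_eq (q : Z3) (d : Dir) : edg q d = (q + lo d, ax d) := by
  cases d <;> simp [edg, lo, ax, sub_eq_add_neg]

theorem lo_cases (d : Dir) : (vec d = un (ax d) ∧ lo d = 0) ∨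
    (vec d = - un (ax d) ∧ lo d = - un (ax d)) := by
  cases d <;> simp [vec, un, ax, lo]

theorem plaq_iff (q : Z3) (e d : Dir) : ∀ x : Ed, x ∈ plaq (q + lo e + lo d) (ax e) (ax d) ↔
    (x = edg q e ∨ x = edg (q + vec d) e ∨ x = edg q d ∨ x = edg (q + vec e) d) := by
  intro x
  simp only [plaq, Finset.mem_insert, Finset.mem_singleton, edg_eq]
  rcases lo_cases e with ⟨h1, h2⟩ | ⟨h1, h2⟩ <;> rcases lo_cases d with ⟨h3, h4⟩ | ⟨h3, h4⟩ <;>
    rw [h1, h2, h3, h4]
  · have a1 : q + 0 + 0 = q + 0 := by abel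
    have a2 : q + 0 + 0 + un (ax d) = q + un (ax d) + 0 := by abel
    have a3 : q + 0 + 0 + un (ax e) = q + un (ax e) + 0 := by abel
    rw [a2, a3, a1]
  · have a1 : q + 0 + - un (ax d) = q + - un (ax d) + 0 := by abel
    have a2 : q + 0 + - un (ax d) + un (ax d) = q + 0 := by abel
    have a3 : q + 0 + - un (ax d) = q + - un (ax d) := by abel
    have a4 : q + 0 + - un (ax d) + un (ax e) = q + un (ax e) + - un (ax d) := by abel
    rw [a2, a4, a1]
    have a5 : q + - un (ax d) + 0 = q + - un (ax d) := by abel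
    rw [a5]
    tauto
  · have a1 : q + - un (ax e) + 0 = q + - un (ax e) := by abel
    have a2 : q + - un (ax e) + 0 + un (ax d) = q + un (ax d) + - un (ax e) := by abel
    have a3 : q + - un (ax e) + 0 + un (ax e) = q + 0 := by abel
    rw [a2, a3, a1]
    tauto
  · have a1 : q + - un (ax e) + - un (ax d) + un (ax d) = q + - un (ax e) := by abel
    have a2 : q + - un (ax e) + - un (ax d) + un (ax e) = q + - un (ax d) := by abel
    have a3 : q + - un (ax e) + - un (ax d) = q + - un (ax d) + - un (ax e) := by abel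
    rw [a1, a2]
    constructor
    · rintro (h | h | h | h)
      · rw [a3] at h; tauto
      · tauto
      · tauto
      · tauto
    · rintro (h | h | h | h)
      · tauto
      · rw [← a3] at h; tauto
      · tauto
      · tauto

theorem es_append (p : Z3) (A C : List Dir) : es p (A ++ C) = es (p + pos C) A ++ es p C := by
  induction A with
  | nil => simp [es]
  | cons a A ih =>
    simp only [List.cons_append, es, ih, pos_append]
    congr 2
    abel

/-- the ends of the edges of a walk are vertices of the walk -/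
theorem end_es {p : Z3} {w : List Dir} {x : Ed} (hx : x ∈ es p w) {v : Z3} (hv : End x v) :
    ∃ a ∈ path w, v = p + a := by
  induction w with
  | nil => simp [es] at hx
  | cons d w ih =>
    simp only [es, List.mem_cons] at hx
    rcases hx with hx | hx
    · subst hx
      rw [end_edg] at hv
      rcases hv with hv | hv
      · exact ⟨pos w, List.mem_cons_of_mem _ (pos_mem_path w), hv⟩
      · exact ⟨pos w + vec d, List.mem_cons_self, by rw [hv]; abel⟩
    · obtain ⟨a, ha, h⟩ := ih hx
      exact ⟨a, List.mem_cons_of_mem _ ha, h⟩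

theorem es_nodup_saw (p : Z3) (w : List Dir) (h : (path w).Nodup) : (es p w).Nodup := by
  induction w with
  | nil => simp [es]
  | cons d w ih =>
    simp only [path, List.nodup_cons] at h
    simp only [es, List.nodup_cons]
    refine ⟨fun hx => ?_, ih h.2⟩
    obtain ⟨a, ha, hE⟩ := end_es hx (v := p + pos w + vec d) ((end_edg _ _ _).2 (Or.inr rfl))
    apply h.1
    have : pos w + vec d = a := by
      have := hE
      rw [add_assoc] at this
      exact add_left_cancel this
    rw [this]
    exact ha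

theorem vec_ne_zero (d : Dir) : vec d ≠ 0 := by
  cases d <;> decide

/-- the edges of a self-avoiding polygon are pairwise different -/
theorem es_nodup (p : Z3) (w : List Dir) (h : SAP w) : (es p w).Nodup := by
  obtain ⟨h4, h0, hn⟩ := h
  match w, h4, h0, hn with
  | d :: d1 :: d2 :: w2, h4, h0, hn =>
    simp only [path, List.tail_cons] at hn
    have hn' : (path (d1 :: d2 :: w2)).Nodup := hn
    rw [es, List.nodup_cons]
    refine ⟨fun hx => ?_, es_nodup_saw p _ hn'⟩
    have hq : p + pos (d1 :: d2 :: w2) + vec d = p := by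
      have : pos (d1 :: d2 :: w2) + vec d = 0 := h0
      rw [add_assoc, this, add_zero]
    rw [es, List.mem_cons] at hx
    have hE1 : End (edg (p + pos (d1 :: d2 :: w2)) d) (p + pos (d1 :: d2 :: w2)) :=
      (end_edg _ _ _).2 (Or.inl rfl)
    have hE2 : End (edg (p + pos (d1 :: d2 :: w2)) d) p :=
      (end_edg _ _ _).2 (Or.inr hq.symm)
    have hn2 : pos (d1 :: d2 :: w2) ∉ path (d2 :: w2) := by
      have := (List.nodup_cons.1 hn').1
      exact this
    rcases hx with hx | hx
    · rw [hx] at hE2
      rw [end_edg] at hE2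
      have hp2 : pos (d2 :: w2) = 0 ∨ pos (d1 :: d2 :: w2) = 0 := by
        rcases hE2 with h | h
        · left
          have : p + 0 = p + pos (d2 :: w2) := by rw [add_zero]; exact h
          exact (add_left_cancel this).symm
        · right
          have : p + 0 = p + pos (d1 :: d2 :: w2) := by
            rw [add_zero]
            rw [add_assoc] at h
            exact h
          exact (add_left_cancel this).symm
      rcases hp2 with h | h
      · have h1 : pos (d2 :: w2) ∉ path w2 := by
          have := (List.nodup_cons.1 (List.nodup_cons.1 hn').2).1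
          exact this
        exact h1 (h ▸ zero_mem_path w2)
      · exact hn2 (h ▸ zero_mem_path _)
    · obtain ⟨a, ha, hE⟩ := end_es hx hE1
      have : pos (d1 :: d2 :: w2) = a := add_left_cancel hE
      exact hn2 (this ▸ ha)
  | [], h4, _, _ => simp at h4
  | [_], h4, _, _ => simp at h4
  | [_, _], h4, _, _ => simp at h4

theorem slab_iff (x : Ed) : (0 ≤ x.1.2.2 ∧ (x.1 + un x.2).2.2 ≤ 1) ↔
    ∀ v, End x v → 0 ≤ v.2.2 ∧ v.2.2 ≤ 1 := by
  obtain ⟨⟨a, b, c⟩, i⟩ := x
  constructor
  · rintro h v (h1 | h1) <;> subst h1 <;> fin_cases i <;> simp [un] at h ⊢ <;> omega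
  · intro h
    have h1 := h (a, b, c) (Or.inl rfl)
    have h2 := h ((a, b, c) + un i) (Or.inr rfl)
    exact ⟨h1.1, h2.2⟩

theorem prop_aux (PA PB P0 P1 P2 P3 Pw : Prop) (hm : Pw ↔ (PA ∨ P0 ∨ PB)) (a : P0 → ¬ PA)
    (b : P0 → ¬ PB) (c1 : P0 → ¬ P1) (c2 : P0 → ¬ P2) (c3 : P0 → ¬ P3) (d1 : P1 → ¬ Pw)
    (d2 : P2 → ¬ Pw) (d3 : P3 → ¬ Pw) : (PA ∨ P1 ∨ P2 ∨ P3 ∨ PB) ↔
      (Pw ∧ ¬ (P0 ∨ P2 ∨ P3 ∨ P1) ∨ (P0 ∨ P2 ∨ P3 ∨ P1) ∧ ¬ Pw) := by
  by_cases h0 : P0
  · have := a h0
    have := b h0
    have := c1 h0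
    have := c2 h0
    have := c3 h0
    have : Pw := hm.2 (Or.inr (Or.inl h0))
    simp_all
  · by_cases hw : Pw
    · have : PA ∨ PB := by
        rcases hm.1 hw with h | h | h
        · exact Or.inl h
        · exact absurd h h0
        · exact Or.inr h
      have e1 : ¬ P1 := fun h => d1 h hw
      have e2 : ¬ P2 := fun h => d2 h hw
      have e3 : ¬ P3 := fun h => d3 h hw
      simp_all
    · have e1 : ¬ PA := fun h => hw (hm.2 (Or.inl h))
      have e2 : ¬ PB := fun h => hw (hm.2 (Or.inr (Or.inr h)))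
      simp only [h0, e1, e2, hw, false_or, or_false, false_and, not_false_eq_true, and_true]
      constructor
      · rintro (h | h | h)
        · exact Or.inr (Or.inr h)
        · exact Or.inl h
        · exact Or.inr (Or.inl h)
      · rintro (h | h | h)
        · exact Or.inr (Or.inl h)
        · exact Or.inr (Or.inr h)
        · exact Or.inl h

end ModINS

open ModINS

theorem ins_ : StmINS := by
  intro ω p A B e d hR hS hde hn1 hn2 hz1 hz2 hz3 hz4
  obtain ⟨hW, hω⟩ := hR
  have hlen : A.length < (A ++ e :: B).length := by simp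
  have hget : (A ++ e :: B).getD A.length .xp = e := by simp
  have hdrop : (A ++ e :: B).drop (A.length + 1) = B := by
    rw [← List.drop_drop, List.drop_left']
    · rfl
    · rfl
  have hsite : site (A ++ e :: B) A.length d := by
    refine ⟨hlen, ?_, ?_, ?_⟩
    · rw [hget]; exact hde
    · rw [hdrop]; exact hn1
    · rw [hdrop, hget]
      have : pos B + vec d + vec e = pos B + vec e + vec d := by abel
      rw [this]; exact hn2
  have hins : ins (A ++ e :: B) A.length d = A ++ neg d :: e :: d :: B := by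
    rw [ins, hget, hdrop, List.take_left']
    · simp
    · rfl
  have hW' : SAP (A ++ neg d :: e :: d :: B) := by
    have := (S_ins_proof _ _ _ hW hsite).1
    rwa [hins] at this
  have hsame : Same (vl (A ++ e :: B)) (vl (A ++ neg d :: e :: d :: B)) := by
    have := c_local _ _ _ hW hsite
    rwa [hins] at this
  -- the edges
  have hposA : pos (neg d :: e :: d :: B) = pos (e :: B) := by
    simp only [pos, vec_neg]; abel
  have hes : es p (A ++ e :: B) = es (p + pos (e :: B)) A ++ edg (p + pos B) e :: es p B := by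
    rw [es_append, es]
  have hes' : es p (A ++ neg d :: e :: d :: B) = es (p + pos (e :: B)) A ++
      edg (p + pos (e :: d :: B)) (neg d) :: edg (p + pos (d :: B)) e :: edg (p + pos B) d ::
        es p B := by
    rw [es_append, hposA, es, es, es]
  have h1 : edg (p + pos (e :: d :: B)) (neg d) = edg (p + pos B + vec e) d := by
    have : p + pos (e :: d :: B) = (p + pos B + vec e) + vec d := by
      simp only [pos]; abel
    rw [this, edg_neg]
  have h2 : edg (p + pos (d :: B)) e = edg (p + pos B + vec d) e := by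
    simp only [pos, add_assoc]
  rw [h1, h2] at hes'
  set EA := es (p + pos (e :: B)) A with hEA
  set EB := es p B with hEB
  set q := p + pos B with hq
  have hnd := es_nodup p _ hW
  rw [hes] at hnd
  have hmem : ∀ x, x ∈ ω ↔ (x ∈ EA ∨ x = edg q e ∨ x ∈ EB) := by
    intro x
    rw [hω, List.mem_toFinset, hes, List.mem_append, List.mem_cons]
  have hmem' : ∀ x, x ∈ (es p (A ++ neg d :: e :: d :: B)).toFinset ↔
      (x ∈ EA ∨ x = edg (q + vec e) d ∨ x = edg (q + vec d) e ∨ x = edg q d ∨ x ∈ EB) := by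
    intro x
    rw [List.mem_toFinset, hes', List.mem_append, List.mem_cons, List.mem_cons, List.mem_cons]
  have hA1 : edg q e ∉ EA := by
    intro h
    have := (List.nodup_append.1 hnd).2.2 _ h _ List.mem_cons_self
    exact this rfl
  have hB1 : edg q e ∉ EB := by
    exact (List.nodup_cons.1 (List.nodup_append.1 hnd).2.1).1
  have hout : ∀ x : Ed, (End x (q + vec d) ∨ End x (q + vec e + vec d)) → x ∉ ω := by
    intro x hx hxω
    rw [hω, List.mem_toFinset] at hxω
    rcases hx with hx | hx
    · obtain ⟨a, ha, h⟩ := end_es hxω hx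
      apply hn1
      have : pos B + vec d = a := by
        rw [hq, add_assoc] at h
        exact add_left_cancel h
      rw [this]; exact ha
    · obtain ⟨a, ha, h⟩ := end_es hxω hx
      apply hn2
      have : pos B + vec e + vec d = a := by
        rw [hq, add_assoc, add_assoc] at h
        rw [add_assoc]
        exact add_left_cancel h
      rw [this]; exact ha
  have ho1 : edg (q + vec e) d ∉ ω := hout _ (Or.inr ((end_edg _ _ _).2 (Or.inr rfl)))
  have ho2 : edg (q + vec d) e ∉ ω := hout _ (Or.inl ((end_edg _ _ _).2 (Or.inl rfl)))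
  have ho3 : edg q d ∉ ω := hout _ (Or.inl ((end_edg _ _ _).2 (Or.inr rfl)))
  have hin : edg q e ∈ ω := (hmem _).2 (Or.inr (Or.inl rfl))
  have hne : edg q e ≠ edg (q + vec e) d ∧ edg q e ≠ edg (q + vec d) e ∧ edg q e ≠ edg q d :=
    ⟨fun h => ho1 (h ▸ hin), fun h => ho2 (h ▸ hin), fun h => ho3 (h ▸ hin)⟩
  have hsym : (es p (A ++ neg d :: e :: d :: B)).toFinset =
      symmDiff ω (plaq (q + lo e + lo d) (ax e) (ax d)) := by
    ext x
    rw [Finset.mem_symmDiff, plaq_iff, hmem']
    have hm := hmem x
    exact prop_aux _ _ _ _ _ _ _ hm (fun h => h ▸ hA1) (fun h => h ▸ hB1) (fun h => h ▸ hne.1)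
      (fun h => h ▸ hne.2.1) (fun h => h ▸ hne.2.2) (fun h => h ▸ ho1) (fun h => h ▸ ho2)
      (fun h => h ▸ ho3)
  have hS' : Slab (es p (A ++ neg d :: e :: d :: B)).toFinset := by
    intro x hx
    have hzq := (slab_iff _).1 (hS _ hin)
    have hz5 := hzq q ((end_edg _ _ _).2 (Or.inl rfl))
    have hz6 := hzq (q + vec e) ((end_edg _ _ _).2 (Or.inr rfl))
    rw [hmem'] at hx
    rcases hx with hx | hx | hx | hx | hx
    · exact hS _ ((hmem x).2 (Or.inl hx))
    · subst hx
      rw [slab_iff]
      intro v hv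
      rw [end_edg] at hv
      rcases hv with hv | hv <;> rw [hv]
      · exact hz6
      · exact ⟨hz3, hz4⟩
    · subst hx
      rw [slab_iff]
      intro v hv
      rw [end_edg] at hv
      rcases hv with hv | hv <;> rw [hv]
      · exact ⟨hz1, hz2⟩
      · have : q + vec d + vec e = q + vec e + vec d := by abel
        rw [this]
        exact ⟨hz3, hz4⟩
    · subst hx
      rw [slab_iff]
      intro v hv
      rw [end_edg] at hv
      rcases hv with hv | hv <;> rw [hv]
      · exact hz5
      · exact ⟨hz1, hz2⟩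
    · exact hS _ ((hmem x).2 (Or.inr (Or.inr hx)))
  have hone : ∀ x, x ∈ ω ∩ plaq (q + lo e + lo d) (ax e) (ax d) → x = edg q e := by
    intro x hx
    rw [Finset.mem_inter, plaq_iff] at hx
    obtain ⟨hx1, hx2 | hx2 | hx2 | hx2⟩ := hx
    · exact hx2
    · exact absurd (hx2 ▸ hx1) ho2
    · exact absurd (hx2 ▸ hx1) ho3
    · exact absurd (hx2 ▸ hx1) ho1
  have hun : ∀ i : Fin 3, un i ≠ 0 := by decide
  have hpair : ∀ (u : Z3) (i j : Fin 3),
      ω ∩ plaq (q + lo e + lo d) (ax e) (ax d) ≠ {(u, i), (u + un j, i)} := by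
    intro u i j h
    have e1 := hone (u, i) (by rw [h]; simp)
    have e2 := hone (u + un j, i) (by rw [h]; simp)
    have e3 : u = u + un j := congrArg Prod.fst (e1.trans e2.symm)
    exact hun j (left_eq_add.1 e3)
  refine ⟨(es p (A ++ neg d :: e :: d :: B)).toFinset, ⟨hW', rfl⟩, hS', ?_, hsame⟩
  refine ⟨⟨p, _, hW, hω⟩, hS, ⟨p, _, hW', rfl⟩, hS', q + lo e + lo d, ax e, ax d, ?_, hsym, ?_, ?_,
    hpair _ _ _, hpair _ _ _⟩
  · exact fun h => hde h.symm
  · exact ⟨edg q e, Finset.mem_inter.2 ⟨hin, (plaq_iff _ _ _ _).2 (Or.inl rfl)⟩⟩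
  · intro h
    exact ho3 (h ((plaq_iff _ _ _ _).2 (Or.inr (Or.inr (Or.inl rfl)))))

end Pool.Agent.T6.H61.SL
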