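import Pool.Agent.T6.H61.SL.Defs

/-!
# The number of colourings is invariant under moves (module INV, helper49)
-/

set_option autoImplicit false

namespace Pool.Agent.T6.H61.SL

open KN

namespace ModINV

lemma un0 : un 0 = (1, 0, 0) := rfl
lemma un1 : un 1 = (0, 1, 0) := rfl
lemma un2 : un 2 = (0, 0, 1) := rfl

lemma add0 (x y z : ℤ) : ((x, y, z) : Z3) + un 0 = (x + 1, y, z) := by
  simp [un0]

lemma add1 (x y z : ℤ) : ((x, y, z) : Z3) + un 1 = (x, y + 1, z) := by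
  simp [un1]

lemma add2 (x y z : ℤ) : ((x, y, z) : Z3) + un 2 = (x, y, z + 1) := by
  simp [un2]

lemma plaq_comm (v : Z3) (i j : Fin 3) : plaq v i j = plaq v j i := by
  unfold plaq
  ext e
  simp only [Finset.mem_insert, Finset.mem_singleton]
  tauto

lemma g4_swap {P1 P2 Q1 Q2 : Prop} (h : G4 P1 P2 Q1 Q2) : G4 Q1 Q2 P1 P2 := by
  unfold G4 at h ⊢
  tauto

lemma mem_plaq {v : Z3} {i j : Fin 3} {e : Ed} : e ∈ plaq v i j ↔
    e = (v, i) ∨ e = (v + un j, i) ∨ e = (v, j) ∨ e = (v + un i, j) := by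
  unfold plaq
  simp only [Finset.mem_insert, Finset.mem_singleton]

/-- every edge of the square is in one of the two polygons -/
lemma in_slab {ω ω' : Finset Ed} {v : Z3} {i j : Fin 3} (hs : Slab ω) (hs' : Slab ω')
    (h : ω' = symmDiff ω (plaq v i j)) {e : Ed} (he : e ∈ plaq v i j) :
    0 ≤ e.1.2.2 ∧ (e.1 + un e.2).2.2 ≤ 1 := by
  by_cases h1 : e ∈ ω
  · exact hs e h1
  · refine hs' e ?_
    rw [h, Finset.mem_symmDiff]
    exact Or.inr ⟨he, h1⟩

/-- the condition on the square as `G4` -/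
lemma g4_of {ω : Finset Ed} {v : Z3} {i j : Fin 3} (h1 : (ω ∩ plaq v i j).Nonempty)
    (h2 : ¬ plaq v i j ⊆ ω) (h3 : ω ∩ plaq v i j ≠ {(v, i), (v + un j, i)})
    (h4 : ω ∩ plaq v i j ≠ {(v, j), (v + un i, j)}) :
    G4 ((v, i) ∈ ω) ((v + un j, i) ∈ ω) ((v, j) ∈ ω) ((v + un i, j) ∈ ω) := by
  refine ⟨?_, ?_, ?_, ?_⟩
  · rintro ⟨a1, a2, a3, a4⟩
    apply h2
    intro e he
    rw [mem_plaq] at he
    rcases he with rfl | rfl | rfl | rfl <;> assumption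
  · rintro ⟨a1, a2, a3, a4⟩
    obtain ⟨e, he⟩ := h1
    rw [Finset.mem_inter, mem_plaq] at he
    rcases he with ⟨h0, rfl | rfl | rfl | rfl⟩
    · exact a1 h0
    · exact a2 h0
    · exact a3 h0
    · exact a4 h0
  · rintro ⟨a1, a2, a3, a4⟩
    apply h3
    ext e
    rw [Finset.mem_inter, mem_plaq, Finset.mem_insert, Finset.mem_singleton]
    constructor
    · rintro ⟨h0, rfl | rfl | rfl | rfl⟩
      · exact Or.inl rfl
      · exact Or.inr rfl
      · exact absurd h0 a3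
      · exact absurd h0 a4
    · rintro (rfl | rfl)
      · exact ⟨a1, Or.inl rfl⟩
      · exact ⟨a2, Or.inr (Or.inl rfl)⟩
  · rintro ⟨a1, a2, a3, a4⟩
    apply h4
    ext e
    rw [Finset.mem_inter, mem_plaq, Finset.mem_insert, Finset.mem_singleton]
    constructor
    · rintro ⟨h0, rfl | rfl | rfl | rfl⟩
      · exact absurd h0 a1
      · exact absurd h0 a2
      · exact Or.inl rfl
      · exact Or.inr rfl
    · rintro (rfl | rfl)
      · exact ⟨a3, Or.inr (Or.inr (Or.inl rfl))⟩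
      · exact ⟨a4, Or.inr (Or.inr (Or.inr rfl))⟩

/-- `G4` is invariant under complement -/
lemma g4_compl {P1 P2 Q1 Q2 R1 R2 S1 S2 : Prop} (a1 : R1 ↔ ¬ P1) (a2 : R2 ↔ ¬ P2)
    (a3 : S1 ↔ ¬ Q1) (a4 : S2 ↔ ¬ Q2) (h : G4 P1 P2 Q1 Q2) : G4 R1 R2 S1 S2 := by
  unfold G4 at h ⊢
  rw [a1, a2, a3, a4]
  tauto

lemma mem_flip {ω ω' : Finset Ed} {v : Z3} {i j : Fin 3} (h : ω' = symmDiff ω (plaq v i j))
    {e : Ed} (he : e ∈ plaq v i j) : e ∈ ω' ↔ ¬ e ∈ ω := by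
  rw [h, Finset.mem_symmDiff]
  tauto

lemma flip_back {ω ω' : Finset Ed} {v : Z3} {i j : Fin 3} (h : ω' = symmDiff ω (plaq v i j)) :
    ω = symmDiff ω' (plaq v i j) := by
  rw [h, symmDiff_symmDiff_cancel_right]

lemma cases_lt : ∀ i j : Fin 3, i < j →
    (i = 0 ∧ j = 1) ∨ (i = 0 ∧ j = 2) ∨ (i = 1 ∧ j = 2) := by decide

lemma le_aux (hF : StmFIN) (hT : StmTOP) (hB : StmBOT) (hX : StmVX) (hY : StmVY)
    {ω ω' : Finset Ed} (hd : Deg ω) (hd' : Deg ω') (hs : Slab ω) (hs' : Slab ω') {v : Z3}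
    {i j : Fin 3} (hij : i < j) (h : ω' = symmDiff ω (plaq v i j))
    (hg : G4 ((v, i) ∈ ω) ((v + un j, i) ∈ ω) ((v, j) ∈ ω) ((v + un i, j) ∈ ω)) :
    NC ω ≤ NC ω' := by
  obtain ⟨x, y, z⟩ := v
  have hcases : (i = 0 ∧ j = 1) ∨ (i = 0 ∧ j = 2) ∨ (i = 1 ∧ j = 2) := cases_lt i j hij
  rcases hcases with ⟨rfl, rfl⟩ | ⟨rfl, rfl⟩ | ⟨rfl, rfl⟩
  · have h1 := in_slab hs hs' h (e := ((x, y, z), 0)) (mem_plaq.2 (Or.inl rfl))
    simp only [add0] at h1
    rw [add0, add1] at hg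
    have hz : z = 0 ∨ z = 1 := by omega
    rcases hz with rfl | rfl
    · exact hB hF ω ω' x y hd hd' h hg
    · exact hT hF ω ω' x y hd hd' h hg
  · have h1 := in_slab hs hs' h (e := ((x, y, z), 2)) (mem_plaq.2 (Or.inr (Or.inr (Or.inl rfl))))
    simp only [add2] at h1
    rw [add0, add2] at hg
    have hz : z = 0 := by omega
    subst hz
    exact hX hF ω ω' x y hd hd' h hg
  · have h1 := in_slab hs hs' h (e := ((x, y, z), 2)) (mem_plaq.2 (Or.inr (Or.inr (Or.inl rfl))))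
    simp only [add2] at h1
    rw [add1, add2] at hg
    have hz : z = 0 := by omega
    subst hz
    exact hY hF ω ω' x y hd hd' h hg

lemma le_main (hF : StmFIN) (hT : StmTOP) (hB : StmBOT) (hX : StmVX) (hY : StmVY)
    {ω ω' : Finset Ed} (hd : Deg ω) (hd' : Deg ω') (hs : Slab ω) (hs' : Slab ω') {v : Z3}
    {i j : Fin 3} (hij : i ≠ j) (h : ω' = symmDiff ω (plaq v i j))
    (hg : G4 ((v, i) ∈ ω) ((v + un j, i) ∈ ω) ((v, j) ∈ ω) ((v + un i, j) ∈ ω)) :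
    NC ω ≤ NC ω' := by
  rcases lt_or_gt_of_ne hij with h1 | h1
  · exact le_aux hF hT hB hX hY hd hd' hs hs' h1 h hg
  · rw [plaq_comm] at h
    exact le_aux hF hT hB hX hY hd hd' hs hs' h1 h (g4_swap hg)

end ModINV

open ModINV in
/-- moves do not change the number of colourings -/
theorem inv : StmINV := by
  intro hD hF hT hB hX hY ω ω' hM
  obtain ⟨hp, hs, hp', hs', v, i, j, hij, h, h1, h2, h3, h4⟩ := hM
  have hd := hD ω hp hs
  have hd' := hD ω' hp' hs'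
  have hg := g4_of h1 h2 h3 h4
  refine le_antisymm (le_main hF hT hB hX hY hd hd' hs hs' hij h hg) ?_
  refine le_main hF hT hB hX hY hd' hd hs' hs hij (flip_back h) ?_
  refine g4_compl ?_ ?_ ?_ ?_ hg
  · exact mem_flip h (mem_plaq.2 (Or.inl rfl))
  · exact mem_flip h (mem_plaq.2 (Or.inr (Or.inl rfl)))
  · exact mem_flip h (mem_plaq.2 (Or.inr (Or.inr (Or.inl rfl))))
  · exact mem_flip h (mem_plaq.2 (Or.inr (Or.inr (Or.inr rfl))))

end Pool.Agent.T6.H61.SL
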