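import Pool.Agent.T6.H61.SL.Defs

/-!
Project SL (helper61), module NIC: every polygon can be changed by moves into a nice one.
-/

set_option autoImplicit false

namespace Pool.Agent.T6.H61.SL

open KN

namespace ModNIC

/-- the vertices of a closed self-avoiding word -/
theorem inj {w : List Dir} (h : SAP w) {a b : ℕ} (ha : 1 ≤ a) (ha' : a ≤ w.length) (hb : 1 ≤ b)
    (hb' : b ≤ w.length) (he : pos (w.drop a) = pos (w.drop b)) : a = b := by
  have hl := path_length w
  have h1 : a - 1 < (path w).tail.length := by rw [List.length_tail, hl]; omega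
  have h2 : b - 1 < (path w).tail.length := by rw [List.length_tail, hl]; omega
  have h3 : ∀ (c : ℕ) (hc : 1 ≤ c) (h : c - 1 < (path w).tail.length) (h' : c < (path w).length),
      (path w).tail[c - 1] = pos (w.drop c) := by
    intro c hc h h'
    rw [List.getElem_tail]
    rw [← path_getElem w c h']
    congr 1
    omega
  have h4 : (path w).tail[a - 1] = (path w).tail[b - 1] := by
    rw [h3 a ha h1 (by rw [hl]; omega), h3 b hb h2 (by rw [hl]; omega), he]
  have h5 := (List.Nodup.getElem_inj_iff h.2.2).1 h4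
  omega

/-- a letter at the maximal first coordinate -/
theorem extremal {w : List Dir} (h : SAP w) : ∃ (A : List Dir) (e : Dir) (B : List Dir),
    w = A ++ e :: B ∧ (vec e).1 = 0 ∧ ∀ q ∈ path w, q.1 ≤ (pos B).1 := by
  obtain ⟨q, hq, hmax⟩ := Finset.exists_max_image (path w).toFinset (fun q : Z3 => q.1)
    ⟨0, List.mem_toFinset.2 (zero_mem_path w)⟩
  rw [List.mem_toFinset] at hq
  have hmax' : ∀ q' ∈ path w, q'.1 ≤ q.1 := fun q' hq' => hmax q' (List.mem_toFinset.2 hq')
  have hn : 4 ≤ w.length := h.1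
  have hp0 : pos (w.drop 0) = 0 := by rw [List.drop_zero]; exact h.2.1
  have hpn : pos (w.drop w.length) = 0 := by rw [List.drop_length]; rfl
  -- an index less than the length
  obtain ⟨i, hi, hqi⟩ : ∃ i < w.length, q = pos (w.drop i) := by
    obtain ⟨i, hi, hqi⟩ := (mem_path_iff w q).1 hq
    rcases Nat.lt_or_ge i w.length with h1 | h1
    · exact ⟨i, h1, hqi⟩
    · have h2 : i = w.length := le_antisymm hi h1
      refine ⟨0, by omega, ?_⟩
      rw [hqi, h2, hpn, hp0]
  have hle : ∀ j ≤ w.length, (pos (w.drop j)).1 ≤ q.1 := fun j hj =>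
    hmax' _ ((mem_path_iff w _).2 ⟨j, hj, rfl⟩)
  have hsplit : ∀ j < w.length, w = w.take j ++ w.getD j .xp :: w.drop (j + 1) := by
    intro j hj
    rw [← drop_eq_getD_cons w j hj, List.take_append_drop]
  have hstep : ∀ j < w.length, pos (w.drop j) = pos (w.drop (j + 1)) + vec (w.getD j .xp) :=
    fun j hj => pos_drop w j hj
  have hcase : ∀ d : Dir, (vec d).1 = 0 ∨ vec d = (1, 0, 0) ∨ vec d = (-1, 0, 0) := by
    intro d
    cases d <;> simp [vec]
  -- the letter before (in the list: at) `i`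
  have h1 := hstep i hi
  rcases hcase (w.getD i .xp) with hd | hd | hd
  · refine ⟨_, _, _, hsplit i hi, hd, fun q' hq' => ?_⟩
    have h2 := hmax' q' hq'
    rw [hqi, h1, Prod.fst_add, hd, add_zero] at h2
    exact h2
  · -- the next letter
    obtain ⟨j, hj, hji, hj2⟩ : ∃ j < w.length, pos (w.drop (j + 1)) = q ∧
        (j + 1 = i ∨ (i = 0 ∧ j + 1 = w.length)) := by
      rcases Nat.eq_zero_or_pos i with h2 | h2
      · refine ⟨w.length - 1, by omega, ?_, Or.inr ⟨h2, by omega⟩⟩
        have : w.length - 1 + 1 = w.length := by omega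
        rw [this, hqi, h2, hpn, hp0]
      · refine ⟨i - 1, by omega, ?_, Or.inl (by omega)⟩
        have : i - 1 + 1 = i := by omega
        rw [this, hqi]
    have h3 := hstep j hj
    rcases hcase (w.getD j .xp) with he | he | he
    · refine ⟨_, _, _, hsplit j hj, he, fun q' hq' => ?_⟩
      rw [hji]
      exact hmax' q' hq'
    · exfalso
      have h4 := hle j hj.le
      rw [h3, hji, he, Prod.fst_add] at h4
      simp only at h4
      linarith
    · exfalso
      have h4 : pos (w.drop j) = pos (w.drop (i + 1)) := by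
        rw [h3, hji, hqi, h1, hd, he, add_assoc]
        simp
      rcases hj2 with h5 | ⟨h5, h6⟩
      · rcases Nat.eq_zero_or_pos j with h7 | h7
        · have h8 : pos (w.drop w.length) = pos (w.drop (i + 1)) := by
            rw [← h4, h7, hpn, hp0]
          have := inj h (by omega) le_rfl (by omega) (by omega) h8
          omega
        · have := inj h h7 hj.le (by omega) (by omega) h4
          omega
      · have := inj h (by omega) hj.le (by omega) (by omega) h4
        omega
  · exfalso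
    have h2 := hle (i + 1) (by omega)
    rw [hqi, h1, hd, Prod.fst_add] at h2
    simp only at h2
    linarith

/-- the vertices of the word after an insertion -/
theorem path_ins {A B : List Dir} {e d : Dir} {q : Z3}
    (h : q ∈ path (A ++ neg d :: e :: d :: B)) :
    q ∈ path (A ++ e :: B) ∨ q = pos B + vec d ∨ q = pos B + vec d + vec e := by
  have hp : pos (neg d :: e :: d :: B) = pos (e :: B) := by
    simp only [pos, vec_neg]
    abel
  rw [path_append, hp, List.mem_append] at h
  rw [path_append, List.mem_append]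
  rcases h with h | h
  · exact Or.inl (Or.inl h)
  · simp only [path, List.mem_cons, pos] at h
    rcases h with h | h | h | h
    · left
      right
      rw [path, List.mem_cons]
      left
      rw [h, vec_neg]
      abel
    · exact Or.inr (Or.inr h)
    · exact Or.inr (Or.inl h)
    · left
      right
      rw [path, List.mem_cons]
      exact Or.inr h

/-- an edge of the word is an edge of the polygon -/
theorem mem_es (p : Z3) (e : Dir) (B : List Dir) : ∀ A : List Dir,
    edg (p + pos B) e ∈ es p (A ++ e :: B)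
  | [] => by
    rw [List.nil_append, es]
    exact List.mem_cons_self
  | a :: A => by
    rw [List.cons_append, es]
    exact List.mem_cons_of_mem _ (mem_es p e B A)

/-- heights of the ends of an edge -/
theorem height {ω : Finset Ed} {p : Z3} {A B : List Dir} {e : Dir} (h : Rep ω p (A ++ e :: B))
    (hs : Slab ω) : (0 ≤ (p + pos B).2.2 ∧ (p + pos B).2.2 ≤ 1) ∧
      (0 ≤ (p + pos B + vec e).2.2 ∧ (p + pos B + vec e).2.2 ≤ 1) := by
  have h1 : edg (p + pos B) e ∈ ω := by
    rw [h.2, List.mem_toFinset]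
    exact mem_es p e B A
  have h2 := hs _ h1
  generalize p + pos B = r at h2 ⊢
  obtain ⟨x, y, z⟩ := r
  cases e <;> simp [edg, un, vec] at h2 ⊢ <;> omega

/-- the maximal first coordinate is the one of `pos B` -/
def Mx (A : List Dir) (e : Dir) (B : List Dir) : Prop := ∀ q ∈ path (A ++ e :: B), q.1 ≤ (pos B).1

/-- only the ends of the letter have the maximal first coordinate -/
def Ex (A : List Dir) (e : Dir) (B : List Dir) : Prop :=
  ∀ q ∈ path (A ++ e :: B), q.1 < (pos B).1 ∨ q = pos B ∨ q = pos B + vec e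

/-- the goal -/
def C (ω : Finset Ed) (p : Z3) (w : List Dir) : Prop :=
  ∃ (ω' : Finset Ed) (A : List Dir) (f : Dir) (B : List Dir), Rep ω' p (A ++ f :: B) ∧ Slab ω' ∧
    Relation.EqvGen Mv ω ω' ∧ Same (vl w) (vl (A ++ f :: B)) ∧ Nice p A f B

theorem pull {ω ω₁ : Finset Ed} {p : Z3} {w w₁ : List Dir} (h : Mv ω ω₁)
    (hw : Same (vl w) (vl w₁)) (hC : C ω₁ p w₁) : C ω p w := by
  obtain ⟨ω', A, f, B, h1, h2, h3, h4, h5⟩ := hC
  exact ⟨ω', A, f, B, h1, h2, (Relation.EqvGen.rel _ _ h).trans _ _ _ h3, hw.trans h4, h5⟩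

theorem perp_xp {e : Dir} (he : (vec e).1 = 0) : perp .xp e := by
  cases e <;> simp [vec] at he <;> decide

/-- insertion outwards -/
theorem out (hINS : StmINS) {ω : Finset Ed} {p : Z3} {A B : List Dir} {e : Dir}
    (h : Rep ω p (A ++ e :: B)) (hs : Slab ω) (he : (vec e).1 = 0) (hM : Mx A e B) :
    ∃ ω', Rep ω' p ((A ++ [.xm]) ++ e :: (.xp :: B)) ∧ Slab ω' ∧ Mv ω ω' ∧
      Same (vl (A ++ e :: B)) (vl ((A ++ [.xm]) ++ e :: (.xp :: B))) ∧
      Ex (A ++ [.xm]) e (.xp :: B) ∧ (p + pos (.xp :: B)).2.2 = (p + pos B).2.2 := by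
  have hh := height h hs
  have e1 : ∀ z : Z3, z + vec .xp = (z.1 + 1, z.2.1, z.2.2) := by
    intro z
    ext <;> simp [vec]
  have hn1 : pos B + vec .xp ∉ path (A ++ e :: B) := by
    intro hq
    have := hM _ hq
    rw [e1] at this
    simp only at this
    linarith
  have hn2 : pos B + vec e + vec .xp ∉ path (A ++ e :: B) := by
    intro hq
    have := hM _ hq
    rw [e1] at this
    simp only [Prod.fst_add, he] at this
    linarith
  obtain ⟨ω', h1, h2, h3, h4⟩ := hINS ω p A B e .xp h hs (perp_xp he) hn1 hn2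
    (by rw [e1]; exact hh.1.1) (by rw [e1]; exact hh.1.2) (by rw [e1]; exact hh.2.1)
    (by rw [e1]; exact hh.2.2)
  have hw : A ++ neg .xp :: e :: .xp :: B = (A ++ [.xm]) ++ e :: (.xp :: B) := by
    simp [neg]
  refine ⟨ω', hw ▸ h1, h2, h3, hw ▸ h4, ?_, ?_⟩
  · intro q hq
    rw [← hw] at hq
    rcases path_ins hq with h5 | h5 | h5
    · left
      have := hM q h5
      simp only [pos]
      rw [e1]
      simp only
      linarith
    · right; left
      simp only [pos]
      exact h5
    · right; right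
      simp only [pos]
      exact h5
  · simp only [pos]
    rw [← add_assoc, e1]

/-- the last step -/
theorem fin (hINS : StmINS) {ω : Finset Ed} {p : Z3} {A B : List Dir} {f : Dir}
    (h : Rep ω p (A ++ f :: B)) (hs : Slab ω) (hf : f = .yp ∨ f = .ym)
    (hz : (p + pos B).2.2 = 1) (hM : Mx A f B) : C ω p (A ++ f :: B) := by
  have he : (vec f).1 = 0 := by rcases hf with rfl | rfl <;> rfl
  obtain ⟨ω', h1, h2, h3, h4, h5, h6⟩ := out hINS h hs he hM
  refine ⟨ω', A ++ [Dir.xm], f, Dir.xp :: B, h1, h2, Relation.EqvGen.rel _ _ h3, h4, hf, ?_, h5⟩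
  rw [h6]
  exact hz

/-- insertion sideways at an exposed letter -/
theorem side (hINS : StmINS) {ω : Finset Ed} {p : Z3} {A B : List Dir} {e d : Dir}
    (h : Rep ω p (A ++ e :: B)) (hs : Slab ω) (he : (vec e).1 = 0) (hd : (vec d).1 = 0)
    (hp : perp d e) (hE : Ex A e B)
    (h1 : 0 ≤ (p + pos B + vec d).2.2) (h2 : (p + pos B + vec d).2.2 ≤ 1)
    (h3 : 0 ≤ (p + pos B + vec e + vec d).2.2) (h4 : (p + pos B + vec e + vec d).2.2 ≤ 1) :
    ∃ ω', Rep ω' p (A ++ neg d :: e :: d :: B) ∧ Slab ω' ∧ Mv ω ω' ∧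
      Same (vl (A ++ e :: B)) (vl (A ++ neg d :: e :: d :: B)) ∧
      ∀ q ∈ path (A ++ neg d :: e :: d :: B), q.1 ≤ (pos B).1 := by
  have hne : vec d ≠ 0 ∧ vec d ≠ vec e ∧ vec e + vec d ≠ 0 ∧ vec e + vec d ≠ vec e := by
    revert hp
    cases d <;> cases e <;> simp [vec, perp, ax]
  have hn1 : pos B + vec d ∉ path (A ++ e :: B) := by
    intro hq
    rcases hE _ hq with h5 | h5 | h5
    · rw [Prod.fst_add, hd, add_zero] at h5
      exact lt_irrefl _ h5
    · exact hne.1 (by simpa using h5)
    · exact hne.2.1 (add_left_cancel h5)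
  have hn2 : pos B + vec e + vec d ∉ path (A ++ e :: B) := by
    intro hq
    rcases hE _ hq with h5 | h5 | h5
    · rw [Prod.fst_add, Prod.fst_add, hd, he, add_zero, add_zero] at h5
      exact lt_irrefl _ h5
    · rw [add_assoc] at h5
      exact hne.2.2.1 (by simpa using h5)
    · exact hne.1 (by simpa using h5)
  obtain ⟨ω', g1, g2, g3, g4⟩ := hINS ω p A B e d h hs hp hn1 hn2 h1 h2 h3 h4
  refine ⟨ω', g1, g2, g3, g4, fun q hq => ?_⟩
  rcases path_ins hq with h5 | h5 | h5
  · rcases hE _ h5 with h6 | h6 | h6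
    · exact h6.le
    · rw [h6]
    · rw [h6, Prod.fst_add, he, add_zero]
  · rw [h5, Prod.fst_add, hd, add_zero]
  · rw [h5, Prod.fst_add, Prod.fst_add, hd, he, add_zero, add_zero]

end ModNIC

open ModNIC in
theorem nic (hINS : StmINS) : StmNIC := by
  intro ω p w hR hs
  obtain ⟨A, e, B, rfl, he, hM⟩ := extremal hR.1
  change C ω p (A ++ e :: B)
  obtain ⟨ω₁, h1, h2, h3, h4, h5, h6⟩ := out hINS hR hs he hM
  have hh := height hR hs
  have hh1 := height h1 h2
  obtain ⟨A1, hA1⟩ : ∃ A1, A1 = A ++ [Dir.xm] := ⟨_, rfl⟩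
  obtain ⟨B1, hB1⟩ : ∃ B1, B1 = Dir.xp :: B := ⟨_, rfl⟩
  rw [← hA1, ← hB1] at h1 h4 h5
  rw [← hB1] at h6 hh1
  have hflat : e = .yp ∨ e = .ym → C ω p (A ++ e :: B) := by
    intro hf
    have hz : (vec e).2.2 = 0 := by rcases hf with rfl | rfl <;> rfl
    rcases lt_or_eq_of_le hh.1.2 with h7 | h7
    · have h8 : (p + pos B).2.2 = 0 := by omega
      have h9 : (p + pos B1).2.2 = 0 := by rw [h6, h8]
      have e1 : (p + pos B1 + vec .zp).2.2 = 1 := by
        rw [Prod.snd_add, Prod.snd_add, h9]; rfl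
      have e2 : (p + pos B1 + vec e + vec .zp).2.2 = 1 := by
        rw [Prod.snd_add, Prod.snd_add, Prod.snd_add, Prod.snd_add, h9, hz]; rfl
      obtain ⟨ω₂, g1, g2, g3, g4, g5⟩ := side hINS (d := .zp) h1 h2 he rfl
        (by rcases hf with rfl | rfl <;> decide) h5 (by rw [e1]; norm_num) (by rw [e1])
        (by rw [e2]; norm_num) (by rw [e2])
      have hw : A1 ++ neg .zp :: e :: .zp :: B1 = (A1 ++ [.zm]) ++ e :: (.zp :: B1) := by
        simp [neg]
      rw [hw] at g1 g4 g5
      refine pull h3 h4 (pull g3 g4 (fin hINS g1 g2 hf ?_ ?_))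
      · simp only [pos]
        rw [← add_assoc]
        exact e1
      · intro q hq
        have := g5 q hq
        simp only [pos, Prod.fst_add]
        have e3 : (vec .zp).1 = 0 := rfl
        rw [e3, add_zero]
        exact this
    · exact fin hINS hR hs hf h7 hM
  cases e with
  | xp => simp [vec] at he
  | xm => simp [vec] at he
  | yp => exact hflat (Or.inl rfl)
  | ym => exact hflat (Or.inr rfl)
  | zp =>
    have h7 : (p + pos B1).2.2 = 0 := by
      have := hh1.2.2
      rw [Prod.snd_add, Prod.snd_add] at this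
      have e0 : (vec .zp).2.2 = 1 := rfl
      rw [e0] at this
      have := hh1.1.1
      omega
    have e1 : (p + pos B1 + vec .yp).2.2 = 0 := by
      rw [Prod.snd_add, Prod.snd_add, h7]; rfl
    have e2 : (p + pos B1 + vec .zp + vec .yp).2.2 = 1 := by
      rw [Prod.snd_add, Prod.snd_add, Prod.snd_add, Prod.snd_add, h7]; rfl
    obtain ⟨ω₂, g1, g2, g3, g4, g5⟩ := side hINS (d := .yp) h1 h2 rfl rfl (by decide) h5
      (by rw [e1]) (by rw [e1]; norm_num) (by rw [e2]; norm_num) (by rw [e2])
    have hw : A1 ++ neg .yp :: .zp :: .yp :: B1 = A1 ++ .ym :: (.zp :: .yp :: B1) := rfl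
    rw [hw] at g1 g4 g5
    refine pull h3 h4 (pull g3 g4 (fin hINS g1 g2 (Or.inr rfl) ?_ ?_))
    · simp only [pos, Prod.snd_add] at h7 ⊢
      have e3 : (vec .yp).2.2 = 0 := rfl
      have e4 : (vec .zp).2.2 = 1 := rfl
      rw [e3, e4]
      omega
    · intro q hq
      have := g5 q hq
      simp only [pos, Prod.fst_add]
      have e3 : (vec .yp).1 = 0 := rfl
      have e4 : (vec .zp).1 = 0 := rfl
      rw [e3, e4, add_zero, add_zero]
      exact this
  | zm =>
    have h7 : (p + pos B1).2.2 = 1 := by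
      have h8 := hh1.2.1
      rw [Prod.snd_add, Prod.snd_add] at h8
      have e0 : (vec .zm).2.2 = -1 := rfl
      rw [e0] at h8
      have := hh1.1.2
      omega
    have e1 : (p + pos B1 + vec .yp).2.2 = 1 := by
      rw [Prod.snd_add, Prod.snd_add, h7]; rfl
    have e2 : (p + pos B1 + vec .zm + vec .yp).2.2 = 0 := by
      rw [Prod.snd_add, Prod.snd_add, Prod.snd_add, Prod.snd_add, h7]; rfl
    obtain ⟨ω₂, g1, g2, g3, g4, g5⟩ := side hINS (d := .yp) h1 h2 rfl rfl (by decide) h5
      (by rw [e1]; norm_num) (by rw [e1]) (by rw [e2]) (by rw [e2]; norm_num)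
    have hw : A1 ++ neg .yp :: .zm :: .yp :: B1 = (A1 ++ [.ym, .zm]) ++ .yp :: B1 := by
      simp [neg]
    rw [hw] at g1 g4 g5
    exact pull h3 h4 (pull g3 g4 (fin hINS g1 g2 (Or.inl rfl) h7 g5))

end Pool.Agent.T6.H61.SL
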