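import Pool.Agent.T6.H61.SL.Defs

/-!
# TOP: moves across squares of the top layer do not decrease the number of colourings
-/

set_option autoImplicit false

namespace Pool.Agent.T6.H61.SL

open KN

namespace ModTOP

theorem ind_congr {P Q : Prop} [Decidable P] [Decidable Q] (h : P ↔ Q) : ind P = ind Q := by
  unfold ind
  by_cases hP : P
  · rw [if_pos hP, if_pos (h.1 hP)]
  · rw [if_neg hP, if_neg (fun hQ => hP (h.2 hQ))]

/-- the degrees at a corner -/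
theorem corner {e1 e2 o1 o2 o3 f1 f2 : Prop} [Decidable e1] [Decidable e2] [Decidable o1]
    [Decidable o2] [Decidable o3] [Decidable f1] [Decidable f2] (h1 : f1 ↔ ¬ e1) (h2 : f2 ↔ ¬ e2)
    {n n' : ℕ} (hn : n = ind e1 + ind e2 + (ind o1 + ind o2 + ind o3))
    (hn' : n' = ind f1 + ind f2 + (ind o1 + ind o2 + ind o3))
    (h : n = 0 ∨ n = 2) (h' : n' = 0 ∨ n' = 2) :
    (o1 ∨ o2 ∨ o3 → ((e1 ∧ ¬ e2) ∨ (¬ e1 ∧ e2))) ∧ (¬ e1 → ¬ e2 → n = 0) ∧ (n' = 0 → e1 ∧ e2) := by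
  unfold ind at *
  by_cases a1 : e1 <;> by_cases a2 : e2 <;> by_cases a3 : o1 <;> by_cases a4 : o2 <;>
    by_cases a5 : o3 <;> simp [a1, a2, a3, a4, a5, h1, h2] at hn hn' ⊢ <;> omega

variable {ω ω' : Finset Ed} {x y : ℤ}

theorem mem_plaq (x y : ℤ) (e : Ed) : e ∈ plaq (x, y, 1) 0 1 ↔
    e = ((x, y, 1), 0) ∨ e = ((x, y + 1, 1), 0) ∨ e = ((x, y, 1), 1) ∨ e = ((x + 1, y, 1), 1) := by
  unfold plaq un
  simp

theorem BX_iff (h : ω' = symmDiff ω (plaq (x, y, 1) 0 1)) (a c : ℤ) : BX ω' a c ↔ BX ω a c := by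
  unfold BX
  rw [h, Finset.mem_symmDiff, mem_plaq]
  simp

theorem BY_iff (h : ω' = symmDiff ω (plaq (x, y, 1) 0 1)) (a c : ℤ) : BY ω' a c ↔ BY ω a c := by
  unfold BY
  rw [h, Finset.mem_symmDiff, mem_plaq]
  simp

theorem ZZ_iff (h : ω' = symmDiff ω (plaq (x, y, 1) 0 1)) (a c : ℤ) : ZZ ω' a c ↔ ZZ ω a c := by
  unfold ZZ
  rw [h, Finset.mem_symmDiff, mem_plaq]
  simp

theorem TX_far (h : ω' = symmDiff ω (plaq (x, y, 1) 0 1)) {a c : ℤ}
    (hn : ¬ (a = x ∧ (c = y ∨ c = y + 1))) : TX ω' a c ↔ TX ω a c := by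
  unfold TX
  rw [h, Finset.mem_symmDiff, mem_plaq]
  simp only [Prod.mk.injEq]
  have : ¬ (((a = x ∧ c = y ∧ (1 : ℤ) = 1) ∧ (0 : Fin 3) = 0) ∨ ((a = x ∧ c = y + 1 ∧ (1 : ℤ) = 1) ∧
      (0 : Fin 3) = 0) ∨ ((a = x ∧ c = y ∧ (1 : ℤ) = 1) ∧ (0 : Fin 3) = 1) ∨
      ((a = x + 1 ∧ c = y ∧ (1 : ℤ) = 1) ∧ (0 : Fin 3) = 1)) := by
    rintro (h1 | h1 | h1 | h1)
    · exact hn ⟨h1.1.1, Or.inl h1.1.2.1⟩
    · exact hn ⟨h1.1.1, Or.inr h1.1.2.1⟩
    · exact absurd h1.2 (by decide)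
    · exact absurd h1.2 (by decide)
  tauto

theorem TX_near (h : ω' = symmDiff ω (plaq (x, y, 1) 0 1)) {a c : ℤ}
    (hn : a = x ∧ (c = y ∨ c = y + 1)) : TX ω' a c ↔ ¬ TX ω a c := by
  unfold TX
  rw [h, Finset.mem_symmDiff, mem_plaq]
  simp only [Prod.mk.injEq]
  have : (((a = x ∧ c = y ∧ (1 : ℤ) = 1) ∧ (0 : Fin 3) = 0) ∨ ((a = x ∧ c = y + 1 ∧ (1 : ℤ) = 1) ∧
      (0 : Fin 3) = 0) ∨ ((a = x ∧ c = y ∧ (1 : ℤ) = 1) ∧ (0 : Fin 3) = 1) ∨
      ((a = x + 1 ∧ c = y ∧ (1 : ℤ) = 1) ∧ (0 : Fin 3) = 1)) := by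
    obtain ⟨h1, h2 | h2⟩ := hn
    · exact Or.inl ⟨⟨h1, h2, rfl⟩, rfl⟩
    · exact Or.inr (Or.inl ⟨⟨h1, h2, rfl⟩, rfl⟩)
  tauto

theorem TY_far (h : ω' = symmDiff ω (plaq (x, y, 1) 0 1)) {a c : ℤ}
    (hn : ¬ (c = y ∧ (a = x ∨ a = x + 1))) : TY ω' a c ↔ TY ω a c := by
  unfold TY
  rw [h, Finset.mem_symmDiff, mem_plaq]
  simp only [Prod.mk.injEq]
  have : ¬ (((a = x ∧ c = y ∧ (1 : ℤ) = 1) ∧ (1 : Fin 3) = 0) ∨ ((a = x ∧ c = y + 1 ∧ (1 : ℤ) = 1) ∧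
      (1 : Fin 3) = 0) ∨ ((a = x ∧ c = y ∧ (1 : ℤ) = 1) ∧ (1 : Fin 3) = 1) ∨
      ((a = x + 1 ∧ c = y ∧ (1 : ℤ) = 1) ∧ (1 : Fin 3) = 1)) := by
    rintro (h1 | h1 | h1 | h1)
    · exact absurd h1.2 (by decide)
    · exact absurd h1.2 (by decide)
    · exact hn ⟨h1.1.2.1, Or.inl h1.1.1⟩
    · exact hn ⟨h1.1.2.1, Or.inr h1.1.1⟩
  tauto

theorem TY_near (h : ω' = symmDiff ω (plaq (x, y, 1) 0 1)) {a c : ℤ}
    (hn : c = y ∧ (a = x ∨ a = x + 1)) : TY ω' a c ↔ ¬ TY ω a c := by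
  unfold TY
  rw [h, Finset.mem_symmDiff, mem_plaq]
  simp only [Prod.mk.injEq]
  have : (((a = x ∧ c = y ∧ (1 : ℤ) = 1) ∧ (1 : Fin 3) = 0) ∨ ((a = x ∧ c = y + 1 ∧ (1 : ℤ) = 1) ∧
      (1 : Fin 3) = 0) ∨ ((a = x ∧ c = y ∧ (1 : ℤ) = 1) ∧ (1 : Fin 3) = 1) ∨
      ((a = x + 1 ∧ c = y ∧ (1 : ℤ) = 1) ∧ (1 : Fin 3) = 1)) := by
    obtain ⟨h1, h2 | h2⟩ := hn
    · exact Or.inr (Or.inr (Or.inl ⟨⟨h2, h1, rfl⟩, rfl⟩))
    · exact Or.inr (Or.inr (Or.inr ⟨⟨h2, h1, rfl⟩, rfl⟩))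
  tauto

/-- the colour of the strand -/
def kk (ω : Finset Ed) (x y : ℤ) (t : ℤ → ℤ → Fin 3) : Fin 3 :=
  if TX ω x y then t x y else if TX ω x (y + 1) then t x (y + 1) else
    if TY ω x y then t x y else t (x + 1) y

/-- the four corners -/
theorem kk_spec {b t : ℤ → ℤ → Fin 3} (hc : Col ω b t)
    (hG : G4 (TX ω x y) (TX ω x (y + 1)) (TY ω x y) (TY ω (x + 1) y)) :
    (TX ω x y → t x y = kk ω x y t ∧ t (x + 1) y = kk ω x y t) ∧
    (TX ω x (y + 1) → t x (y + 1) = kk ω x y t ∧ t (x + 1) (y + 1) = kk ω x y t) ∧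
    (TY ω x y → t x y = kk ω x y t ∧ t x (y + 1) = kk ω x y t) ∧
    (TY ω (x + 1) y → t (x + 1) y = kk ω x y t ∧ t (x + 1) (y + 1) = kk ω x y t) := by
  have h1 := hc.tx x y
  have h2 := hc.tx x (y + 1)
  have h3 := hc.ty x y
  have h4 := hc.ty (x + 1) y
  unfold G4 at hG
  unfold kk
  by_cases a1 : TX ω x y <;> by_cases a2 : TX ω x (y + 1) <;> by_cases a3 : TY ω x y <;>
    by_cases a4 : TY ω (x + 1) y <;> simp only [a1, a2, a3, a4, if_true, if_false, true_imp_iff,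
      false_imp_iff, not_true, not_false_iff, and_true, true_and, and_false, false_and] at h1 h2 h3 h4 hG ⊢ <;>
    simp_all

/-- a corner which lies on an edge of both -/
theorem mixed (hG : G4 (TX ω x y) (TX ω x (y + 1)) (TY ω x y) (TY ω (x + 1) y)) :
    (¬ (TX ω x y ↔ TY ω x y)) ∨ (¬ (TX ω x y ↔ TY ω (x + 1) y)) ∨
    (¬ (TX ω x (y + 1) ↔ TY ω x y)) ∨ (¬ (TX ω x (y + 1) ↔ TY ω (x + 1) y)) := by
  unfold G4 at hG
  tauto

open scoped Classical in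
/-- the new colours of the top layer -/
noncomputable def tn (ω : Finset Ed) (x y : ℤ) (t : ℤ → ℤ → Fin 3) (a c : ℤ) : Fin 3 :=
  if a = x ∧ c = y then (if ¬ TX ω x y ∨ ¬ TY ω x y then kk ω x y t else 0)
  else if a = x + 1 ∧ c = y then (if ¬ TX ω x y ∨ ¬ TY ω (x + 1) y then kk ω x y t else 0)
  else if a = x ∧ c = y + 1 then (if ¬ TX ω x (y + 1) ∨ ¬ TY ω x y then kk ω x y t else 0)
  else if a = x + 1 ∧ c = y + 1 then
    (if ¬ TX ω x (y + 1) ∨ ¬ TY ω (x + 1) y then kk ω x y t else 0)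
  else t a c

open scoped Classical in
/-- the new colours of the bottom layer -/
noncomputable def bn (ω : Finset Ed) (x y : ℤ) (t b : ℤ → ℤ → Fin 3) (a c : ℤ) : Fin 3 :=
  if a = x + 1 ∧ c = y + 1 then (if dB ω (x + 1) (y + 1) ≠ 0 then sc (kk ω x y t) (b a c) else 0)
  else b a c

/-- the data of a move -/
structure Dt (ω ω' : Finset Ed) (x y : ℤ) (b t : ℤ → ℤ → Fin 3) : Prop where
  h : ω' = symmDiff ω (plaq (x, y, 1) 0 1)
  d : Deg ω
  d' : Deg ω'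
  hG : G4 (TX ω x y) (TX ω x (y + 1)) (TY ω x y) (TY ω (x + 1) y)
  hc : Col ω b t

section
variable {b t : ℤ → ℤ → Fin 3}

/-- corner 00 -/
theorem c00 (D : Dt ω ω' x y b t) :
    (TX ω (x - 1) y ∨ TY ω x (y - 1) ∨ ZZ ω x y →
      ((TX ω x y ∧ ¬ TY ω x y) ∨ (¬ TX ω x y ∧ TY ω x y))) ∧
    (¬ TX ω x y → ¬ TY ω x y → dT ω x y = 0) ∧ (dT ω' x y = 0 → TX ω x y ∧ TY ω x y) := by
  refine corner (f1 := TX ω' x y) (f2 := TY ω' x y) (TX_near D.h ⟨rfl, Or.inl rfl⟩)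
    (TY_near D.h ⟨rfl, Or.inl rfl⟩) (n := dT ω x y) (n' := dT ω' x y) ?_ ?_ (D.d x y).2 (D.d' x y).2
  · unfold dT; omega
  · unfold dT
    rw [ind_congr (TX_far D.h (a := x - 1) (c := y) (by omega)),
      ind_congr (TY_far D.h (a := x) (c := y - 1) (by omega)), ind_congr (ZZ_iff D.h x y)]
    omega

/-- corner 10 -/
theorem c10 (D : Dt ω ω' x y b t) :
    (TX ω (x + 1) y ∨ TY ω (x + 1) (y - 1) ∨ ZZ ω (x + 1) y →
      ((TX ω x y ∧ ¬ TY ω (x + 1) y) ∨ (¬ TX ω x y ∧ TY ω (x + 1) y))) ∧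
    (¬ TX ω x y → ¬ TY ω (x + 1) y → dT ω (x + 1) y = 0) ∧
    (dT ω' (x + 1) y = 0 → TX ω x y ∧ TY ω (x + 1) y) := by
  refine corner (f1 := TX ω' x y) (f2 := TY ω' (x + 1) y) (TX_near D.h ⟨rfl, Or.inl rfl⟩)
    (TY_near D.h ⟨rfl, Or.inr rfl⟩) (n := dT ω (x + 1) y) (n' := dT ω' (x + 1) y) ?_ ?_
    (D.d (x + 1) y).2 (D.d' (x + 1) y).2
  · unfold dT; rw [add_sub_cancel_right]; omega
  · unfold dT
    rw [add_sub_cancel_right, ind_congr (TX_far D.h (a := x + 1) (c := y) (by omega)),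
      ind_congr (TY_far D.h (a := x + 1) (c := y - 1) (by omega)), ind_congr (ZZ_iff D.h (x + 1) y)]
    omega

/-- corner 01 -/
theorem c01 (D : Dt ω ω' x y b t) :
    (TX ω (x - 1) (y + 1) ∨ TY ω x (y + 1) ∨ ZZ ω x (y + 1) →
      ((TX ω x (y + 1) ∧ ¬ TY ω x y) ∨ (¬ TX ω x (y + 1) ∧ TY ω x y))) ∧
    (¬ TX ω x (y + 1) → ¬ TY ω x y → dT ω x (y + 1) = 0) ∧
    (dT ω' x (y + 1) = 0 → TX ω x (y + 1) ∧ TY ω x y) := by
  refine corner (f1 := TX ω' x (y + 1)) (f2 := TY ω' x y) (TX_near D.h ⟨rfl, Or.inr rfl⟩)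
    (TY_near D.h ⟨rfl, Or.inl rfl⟩) (n := dT ω x (y + 1)) (n' := dT ω' x (y + 1)) ?_ ?_
    (D.d x (y + 1)).2 (D.d' x (y + 1)).2
  · unfold dT; rw [add_sub_cancel_right]; omega
  · unfold dT
    rw [add_sub_cancel_right, ind_congr (TX_far D.h (a := x - 1) (c := y + 1) (by omega)),
      ind_congr (TY_far D.h (a := x) (c := y + 1) (by omega)), ind_congr (ZZ_iff D.h x (y + 1))]
    omega

/-- corner 11 -/
theorem c11 (D : Dt ω ω' x y b t) :
    (TX ω (x + 1) (y + 1) ∨ TY ω (x + 1) (y + 1) ∨ ZZ ω (x + 1) (y + 1) →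
      ((TX ω x (y + 1) ∧ ¬ TY ω (x + 1) y) ∨ (¬ TX ω x (y + 1) ∧ TY ω (x + 1) y))) ∧
    (¬ TX ω x (y + 1) → ¬ TY ω (x + 1) y → dT ω (x + 1) (y + 1) = 0) ∧
    (dT ω' (x + 1) (y + 1) = 0 → TX ω x (y + 1) ∧ TY ω (x + 1) y) := by
  refine corner (f1 := TX ω' x (y + 1)) (f2 := TY ω' (x + 1) y) (TX_near D.h ⟨rfl, Or.inr rfl⟩)
    (TY_near D.h ⟨rfl, Or.inr rfl⟩) (n := dT ω (x + 1) (y + 1)) (n' := dT ω' (x + 1) (y + 1)) ?_ ?_
    (D.d (x + 1) (y + 1)).2 (D.d' (x + 1) (y + 1)).2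
  · unfold dT; rw [add_sub_cancel_right, add_sub_cancel_right]; omega
  · unfold dT
    rw [add_sub_cancel_right, add_sub_cancel_right,
      ind_congr (TX_far D.h (a := x + 1) (c := y + 1) (by omega)),
      ind_congr (TY_far D.h (a := x + 1) (c := y + 1) (by omega)),
      ind_congr (ZZ_iff D.h (x + 1) (y + 1))]
    omega

theorem tn00 : tn ω x y t x y = if ¬ TX ω x y ∨ ¬ TY ω x y then kk ω x y t else 0 := by
  unfold tn
  rw [if_pos ⟨rfl, rfl⟩]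

theorem tn10 : tn ω x y t (x + 1) y =
    if ¬ TX ω x y ∨ ¬ TY ω (x + 1) y then kk ω x y t else 0 := by
  unfold tn
  rw [if_neg (by omega), if_pos ⟨rfl, rfl⟩]

theorem tn01 : tn ω x y t x (y + 1) =
    if ¬ TX ω x (y + 1) ∨ ¬ TY ω x y then kk ω x y t else 0 := by
  unfold tn
  rw [if_neg (by omega), if_neg (by omega), if_pos ⟨rfl, rfl⟩]

theorem tn11 : tn ω x y t (x + 1) (y + 1) =
    if ¬ TX ω x (y + 1) ∨ ¬ TY ω (x + 1) y then kk ω x y t else 0 := by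
  unfold tn
  rw [if_neg (by omega), if_neg (by omega), if_neg (by omega), if_pos ⟨rfl, rfl⟩]

theorem tn_far {a c : ℤ} (h : ¬ ((a = x ∨ a = x + 1) ∧ (c = y ∨ c = y + 1))) :
    tn ω x y t a c = t a c := by
  unfold tn
  rw [if_neg (by omega), if_neg (by omega), if_neg (by omega), if_neg (by omega)]

theorem bn_far {a c : ℤ} (h : ¬ (a = x + 1 ∧ c = y + 1)) : bn ω x y t b a c = b a c := by
  unfold bn
  rw [if_neg h]

theorem bn11 (h : dB ω (x + 1) (y + 1) ≠ 0) :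
    bn ω x y t b (x + 1) (y + 1) = sc (kk ω x y t) (b (x + 1) (y + 1)) := by
  unfold bn
  rw [if_pos ⟨rfl, rfl⟩, if_pos h]

/-- the colour of the top layer does not change at the ends of the other edges -/
theorem tn_eq (D : Dt ω ω' x y b t) {a c : ℤ}
    (h : (TX ω a c ∧ ¬ (a = x ∧ (c = y ∨ c = y + 1))) ∨
      (TX ω (a - 1) c ∧ ¬ (a - 1 = x ∧ (c = y ∨ c = y + 1))) ∨
      (TY ω a c ∧ ¬ (c = y ∧ (a = x ∨ a = x + 1))) ∨
      (TY ω a (c - 1) ∧ ¬ (c - 1 = y ∧ (a = x ∨ a = x + 1))) ∨ ZZ ω a c) :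
    tn ω x y t a c = t a c := by
  by_cases hcor : (a = x ∨ a = x + 1) ∧ (c = y ∨ c = y + 1)
  swap
  · exact tn_far hcor
  obtain ⟨kA, kB, kC, kD⟩ := kk_spec D.hc D.hG
  obtain ⟨rfl | rfl, rfl | rfl⟩ := hcor
  · obtain ⟨k1, -, -⟩ := c00 D
    have h1 : TX ω (a - 1) c ∨ TY ω a (c - 1) ∨ ZZ ω a c := by
      rcases h with h | h | h | h | h
      · exact absurd ⟨rfl, Or.inl rfl⟩ h.2
      · exact Or.inl h.1
      · exact absurd ⟨rfl, Or.inl rfl⟩ h.2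
      · exact Or.inr (Or.inl h.1)
      · exact Or.inr (Or.inr h)
    rw [tn00]
    rcases k1 h1 with ⟨k2, k3⟩ | ⟨k2, k3⟩
    · rw [if_pos (Or.inr k3)]
      exact (kA k2).1.symm
    · rw [if_pos (Or.inl k2)]
      exact (kC k3).1.symm
  · obtain ⟨k1, -, -⟩ := c01 D
    have h1 : TX ω (a - 1) (y + 1) ∨ TY ω a (y + 1) ∨ ZZ ω a (y + 1) := by
      rcases h with h | h | h | h | h
      · exact absurd ⟨rfl, Or.inr rfl⟩ h.2
      · exact Or.inl h.1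
      · exact Or.inr (Or.inl h.1)
      · exact absurd ⟨by omega, Or.inl rfl⟩ h.2
      · exact Or.inr (Or.inr h)
    rw [tn01]
    rcases k1 h1 with ⟨k2, k3⟩ | ⟨k2, k3⟩
    · rw [if_pos (Or.inr k3)]
      exact (kB k2).1.symm
    · rw [if_pos (Or.inl k2)]
      exact (kC k3).2.symm
  · obtain ⟨k1, -, -⟩ := c10 D
    have h1 : TX ω (x + 1) c ∨ TY ω (x + 1) (c - 1) ∨ ZZ ω (x + 1) c := by
      rcases h with h | h | h | h | h
      · exact Or.inl h.1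
      · exact absurd ⟨by omega, Or.inl rfl⟩ h.2
      · exact absurd ⟨rfl, Or.inr rfl⟩ h.2
      · exact Or.inr (Or.inl h.1)
      · exact Or.inr (Or.inr h)
    rw [tn10]
    rcases k1 h1 with ⟨k2, k3⟩ | ⟨k2, k3⟩
    · rw [if_pos (Or.inr k3)]
      exact (kA k2).2.symm
    · rw [if_pos (Or.inl k2)]
      exact (kD k3).1.symm
  · obtain ⟨k1, -, -⟩ := c11 D
    have h1 : TX ω (x + 1) (y + 1) ∨ TY ω (x + 1) (y + 1) ∨ ZZ ω (x + 1) (y + 1) := by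
      rcases h with h | h | h | h | h
      · exact Or.inl h.1
      · exact absurd ⟨by omega, Or.inr rfl⟩ h.2
      · exact Or.inr (Or.inl h.1)
      · exact absurd ⟨by omega, Or.inr rfl⟩ h.2
      · exact Or.inr (Or.inr h)
    rw [tn11]
    rcases k1 h1 with ⟨k2, k3⟩ | ⟨k2, k3⟩
    · rw [if_pos (Or.inr k3)]
      exact (kB k2).2.symm
    · rw [if_pos (Or.inl k2)]
      exact (kD k3).2.symm

theorem dB_eq (h : ω' = symmDiff ω (plaq (x, y, 1) 0 1)) (a c : ℤ) : dB ω' a c = dB ω a c := by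
  unfold dB
  rw [ind_congr (BX_iff h a c), ind_congr (BX_iff h (a - 1) c), ind_congr (BY_iff h a c),
    ind_congr (BY_iff h a (c - 1)), ind_congr (ZZ_iff h a c)]

theorem dB_ne {a c : ℤ} (h : BX ω a c ∨ BX ω (a - 1) c ∨ BY ω a c ∨ BY ω a (c - 1) ∨ ZZ ω a c) :
    dB ω a c ≠ 0 := by
  unfold dB ind
  rcases h with h | h | h | h | h
  all_goals rw [if_pos h]; omega

/-- the key computation at the vertex below the moving corner -/
theorem flip (P : Prop) [Decidable P] {Q : Prop} [Decidable Q] (hQ : Q ↔ ¬ P) (k c d u u' : Fin 3)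
    (hk : P → u = k) (hk' : ¬ P → u' = k) (h : c = if P then sc u d else d) :
    sc k c = if Q then sc u' d else d := by
  by_cases hP : P
  · rw [if_pos hP, hk hP] at h
    rw [if_neg (fun hq => hQ.1 hq hP), h, sc_sc]
  · rw [if_neg hP] at h
    rw [if_pos (hQ.2 hP), hk' hP, h]

theorem flip2 (P : Prop) [Decidable P] {Q : Prop} [Decidable Q] (hQ : Q ↔ ¬ P) (k c d u u' : Fin 3)
    (hk : P → u = k) (hk' : ¬ P → u' = k) (h : c = if P then sc u d else d) :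
    c = if Q then sc u' (sc k d) else sc k d := by
  by_cases hP : P
  · rw [if_pos hP, hk hP] at h
    rw [if_neg (fun hq => hQ.1 hq hP), h]
  · rw [if_neg hP] at h
    rw [if_pos (hQ.2 hP), hk' hP, h, sc_sc]

theorem if_iff {P Q : Prop} [Decidable P] [Decidable Q] (h : Q ↔ P) (u v : Fin 3) :
    (if Q then u else v) = if P then u else v := by
  by_cases hP : P
  · rw [if_pos hP, if_pos (h.2 hP)]
  · rw [if_neg hP, if_neg (fun hq => hP (h.1 hq))]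

/-- the new colouring -/
theorem col_new (D : Dt ω ω' x y b t) : Col ω' (bn ω x y t b) (tn ω x y t) := by
  obtain ⟨kA, kB, kC, kD⟩ := kk_spec D.hc D.hG
  constructor
  · intro a c hz
    rw [ZZ_iff D.h] at hz
    rw [tn_eq D (Or.inr (Or.inr (Or.inr (Or.inr hz))))]
    by_cases h1 : a = x + 1 ∧ c = y + 1
    · obtain ⟨rfl, rfl⟩ := h1
      rw [bn11 (dB_ne (Or.inr (Or.inr (Or.inr (Or.inr hz)))))]
      have h2 := D.hc.zz _ _ hz
      have h3 : t (x + 1) (y + 1) = kk ω x y t := by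
        rcases (c11 D).1 (Or.inr (Or.inr hz)) with ⟨k2, k3⟩ | ⟨k2, k3⟩
        · exact (kB k2).2
        · exact (kD k3).2
      rw [← h2, h3, sc_self]
    · rw [bn_far h1]
      exact D.hc.zz _ _ hz
  · intro a c hx
    by_cases h1 : a = x ∧ (c = y ∨ c = y + 1)
    · rw [TX_near D.h h1] at hx
      obtain ⟨rfl, rfl | rfl⟩ := h1
      · rw [tn00, tn10, if_pos (Or.inl hx), if_pos (Or.inl hx)]
      · rw [tn01, tn11, if_pos (Or.inl hx), if_pos (Or.inl hx)]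
    · rw [TX_far D.h h1] at hx
      rw [tn_eq D (Or.inl ⟨hx, h1⟩), tn_eq D (Or.inr (Or.inl (by
        rw [add_sub_cancel_right]; exact ⟨hx, h1⟩)))]
      exact D.hc.tx _ _ hx
  · intro a c hx
    by_cases h1 : c = y ∧ (a = x ∨ a = x + 1)
    · rw [TY_near D.h h1] at hx
      obtain ⟨rfl, rfl | rfl⟩ := h1
      · rw [tn00, tn01, if_pos (Or.inr hx), if_pos (Or.inr hx)]
      · rw [tn10, tn11, if_pos (Or.inr hx), if_pos (Or.inr hx)]
    · rw [TY_far D.h h1] at hx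
      rw [tn_eq D (Or.inr (Or.inr (Or.inl ⟨hx, h1⟩))), tn_eq D (Or.inr (Or.inr (Or.inr (Or.inl (by
        rw [add_sub_cancel_right]; exact ⟨hx, h1⟩)))))]
      exact D.hc.ty _ _ hx
  · intro a c hx
    rw [BX_iff D.h] at hx
    have h0 := D.hc.bx _ _ hx
    by_cases h1 : a = x ∧ c = y + 1
    · obtain ⟨rfl, rfl⟩ := h1
      rw [add_sub_cancel_right] at h0 ⊢
      rw [bn11 (dB_ne (Or.inr (Or.inl (by rw [add_sub_cancel_right]; exact hx)))),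
        bn_far (a := a) (by omega)]
      refine flip (TY ω a y) (TY_near D.h ⟨rfl, Or.inl rfl⟩) _ _ _ _ _ (fun h => (kC h).2) ?_ h0
      intro h
      rw [tn01, if_pos (Or.inr h)]
    · by_cases h2 : a = x + 1 ∧ c = y + 1
      · obtain ⟨rfl, rfl⟩ := h2
        rw [add_sub_cancel_right] at h0 ⊢
        rw [bn11 (dB_ne (Or.inl hx)), bn_far (a := x + 1 + 1) (by omega)]
        refine flip2 (TY ω (x + 1) y) (TY_near D.h ⟨rfl, Or.inr rfl⟩) _ _ _ _ _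
          (fun h => (kD h).2) ?_ h0
        intro h
        rw [tn11, if_pos (Or.inr h)]
      · have h3 : ¬ (c - 1 = y ∧ (a = x ∨ a = x + 1)) := by omega
        rw [bn_far (a := a + 1) (by omega), bn_far h2, if_iff (TY_far D.h h3), h0]
        by_cases h4 : TY ω a (c - 1)
        · rw [if_pos h4, if_pos h4, tn_eq D (Or.inr (Or.inr (Or.inr (Or.inl ⟨h4, h3⟩))))]
        · rw [if_neg h4, if_neg h4]
  · intro a c hx
    rw [BY_iff D.h] at hx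
    have h0 := D.hc.yb _ _ hx
    by_cases h1 : a = x + 1 ∧ c = y
    · obtain ⟨rfl, rfl⟩ := h1
      rw [add_sub_cancel_right] at h0 ⊢
      rw [bn11 (dB_ne (Or.inr (Or.inr (Or.inr (Or.inl (by rw [add_sub_cancel_right]; exact hx)))))),
        bn_far (c := c) (by omega)]
      refine flip (TX ω x c) (TX_near D.h ⟨rfl, Or.inl rfl⟩) _ _ _ _ _ (fun h => (kA h).2) ?_ h0
      intro h
      rw [tn10, if_pos (Or.inl h)]
    · by_cases h2 : a = x + 1 ∧ c = y + 1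
      · obtain ⟨rfl, rfl⟩ := h2
        rw [add_sub_cancel_right] at h0 ⊢
        rw [bn11 (dB_ne (Or.inr (Or.inr (Or.inl hx)))), bn_far (c := y + 1 + 1) (by omega)]
        refine flip2 (TX ω x (y + 1)) (TX_near D.h ⟨rfl, Or.inr rfl⟩) _ _ _ _ _
          (fun h => (kB h).2) ?_ h0
        intro h
        rw [tn11, if_pos (Or.inl h)]
      · have h3 : ¬ (a - 1 = x ∧ (c = y ∨ c = y + 1)) := by omega
        rw [bn_far (c := c + 1) (by omega), bn_far h2, if_iff (TX_far D.h h3), h0]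
        by_cases h4 : TX ω (a - 1) c
        · rw [if_pos h4, if_pos h4, tn_eq D (Or.inr (Or.inl ⟨h4, h3⟩))]
        · rw [if_neg h4, if_neg h4]
  · intro a c hd
    rw [dB_eq D.h] at hd
    by_cases h2 : a = x + 1 ∧ c = y + 1
    · obtain ⟨rfl, rfl⟩ := h2
      unfold bn
      rw [if_pos ⟨rfl, rfl⟩, if_neg (fun h => h hd)]
    · rw [bn_far h2]
      exact D.hc.b0 _ _ hd
  · intro a c hd
    by_cases hcor : (a = x ∨ a = x + 1) ∧ (c = y ∨ c = y + 1)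
    · obtain ⟨rfl | rfl, rfl | rfl⟩ := hcor
      · obtain ⟨h1, h2⟩ := (c00 D).2.2 hd
        rw [tn00, if_neg (by tauto)]
      · obtain ⟨h1, h2⟩ := (c01 D).2.2 hd
        rw [tn01, if_neg (by tauto)]
      · obtain ⟨h1, h2⟩ := (c10 D).2.2 hd
        rw [tn10, if_neg (by tauto)]
      · obtain ⟨h1, h2⟩ := (c11 D).2.2 hd
        rw [tn11, if_neg (by tauto)]
    · rw [tn_far hcor]
      apply D.hc.t0
      have e : dT ω' a c = dT ω a c := by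
        unfold dT
        rw [ind_congr (TX_far D.h (a := a) (c := c) (by omega)),
          ind_congr (TX_far D.h (a := a - 1) (c := c) (by omega)),
          ind_congr (TY_far D.h (a := a) (c := c) (by omega)),
          ind_congr (TY_far D.h (a := a) (c := c - 1) (by omega)), ind_congr (ZZ_iff D.h a c)]
      rw [← e]
      exact hd

end

/-- the colour of the strand can be read off -/
theorem kk_inj {b t b₂ t₂ : ℤ → ℤ → Fin 3} (D : Dt ω ω' x y b t) (D₂ : Dt ω ω' x y b₂ t₂)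
    (h : tn ω x y t = tn ω x y t₂) : kk ω x y t = kk ω x y t₂ := by
  rcases mixed D.hG with h1 | h1 | h1 | h1
  · have h2 := congrFun (congrFun h x) y
    rw [tn00, tn00, if_pos (by tauto), if_pos (by tauto)] at h2
    exact h2
  · have h2 := congrFun (congrFun h (x + 1)) y
    rw [tn10, tn10, if_pos (by tauto), if_pos (by tauto)] at h2
    exact h2
  · have h2 := congrFun (congrFun h x) (y + 1)
    rw [tn01, tn01, if_pos (by tauto), if_pos (by tauto)] at h2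
    exact h2
  · have h2 := congrFun (congrFun h (x + 1)) (y + 1)
    rw [tn11, tn11, if_pos (by tauto), if_pos (by tauto)] at h2
    exact h2

theorem t_inj {b t b₂ t₂ : ℤ → ℤ → Fin 3} (D : Dt ω ω' x y b t) (D₂ : Dt ω ω' x y b₂ t₂)
    (h : tn ω x y t = tn ω x y t₂) : t = t₂ := by
  have hk := kk_inj D D₂ h
  obtain ⟨kA, kB, kC, kD⟩ := kk_spec D.hc D.hG
  obtain ⟨kA₂, kB₂, kC₂, kD₂⟩ := kk_spec D₂.hc D₂.hG
  funext a c
  by_cases hcor : (a = x ∨ a = x + 1) ∧ (c = y ∨ c = y + 1)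
  · obtain ⟨rfl | rfl, rfl | rfl⟩ := hcor
    · by_cases h1 : TX ω a c
      · rw [(kA h1).1, (kA₂ h1).1, hk]
      · by_cases h2 : TY ω a c
        · rw [(kC h2).1, (kC₂ h2).1, hk]
        · rw [D.hc.t0 _ _ ((c00 D).2.1 h1 h2), D₂.hc.t0 _ _ ((c00 D).2.1 h1 h2)]
    · by_cases h1 : TX ω a (y + 1)
      · rw [(kB h1).1, (kB₂ h1).1, hk]
      · by_cases h2 : TY ω a y
        · rw [(kC h2).2, (kC₂ h2).2, hk]
        · rw [D.hc.t0 _ _ ((c01 D).2.1 h1 h2), D₂.hc.t0 _ _ ((c01 D).2.1 h1 h2)]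
    · by_cases h1 : TX ω x c
      · rw [(kA h1).2, (kA₂ h1).2, hk]
      · by_cases h2 : TY ω (x + 1) c
        · rw [(kD h2).1, (kD₂ h2).1, hk]
        · rw [D.hc.t0 _ _ ((c10 D).2.1 h1 h2), D₂.hc.t0 _ _ ((c10 D).2.1 h1 h2)]
    · by_cases h1 : TX ω x (y + 1)
      · rw [(kB h1).2, (kB₂ h1).2, hk]
      · by_cases h2 : TY ω (x + 1) y
        · rw [(kD h2).2, (kD₂ h2).2, hk]
        · rw [D.hc.t0 _ _ ((c11 D).2.1 h1 h2), D₂.hc.t0 _ _ ((c11 D).2.1 h1 h2)]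
  · have h2 := congrFun (congrFun h a) c
    rw [tn_far hcor, tn_far hcor] at h2
    exact h2

theorem b_inj {b t b₂ t₂ : ℤ → ℤ → Fin 3} (D : Dt ω ω' x y b t) (D₂ : Dt ω ω' x y b₂ t₂)
    (h : tn ω x y t = tn ω x y t₂) (h' : bn ω x y t b = bn ω x y t₂ b₂) : b = b₂ := by
  have hk := kk_inj D D₂ h
  funext a c
  have h2 := congrFun (congrFun h' a) c
  by_cases h1 : a = x + 1 ∧ c = y + 1
  · obtain ⟨rfl, rfl⟩ := h1
    by_cases hd : dB ω (x + 1) (y + 1) = 0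
    · rw [D.hc.b0 _ _ hd, D₂.hc.b0 _ _ hd]
    · rw [bn11 hd, bn11 hd, hk] at h2
      have h3 := congrArg (sc (kk ω x y t₂)) h2
      rwa [sc_sc, sc_sc] at h3
  · rw [bn_far h1, bn_far h1] at h2
    exact h2

end ModTOP

open ModTOP in
theorem top : StmTOP := by
  intro hF ω ω' x y hd hd' h hG
  unfold NC
  have hD : ∀ c ∈ CS ω, Dt ω ω' x y c.1 c.2 := fun c hc => ⟨h, hd, hd', hG, hc⟩
  refine Set.ncard_le_ncard_of_injOn (fun c => (bn ω x y c.2 c.1, tn ω x y c.2)) ?_ ?_ (hF ω')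
  · intro c hc
    exact col_new (hD c hc)
  · rintro ⟨b, t⟩ hc ⟨b₂, t₂⟩ hc₂ he
    have he1 : bn ω x y t b = bn ω x y t₂ b₂ := congrArg Prod.fst he
    have he2 : tn ω x y t = tn ω x y t₂ := congrArg Prod.snd he
    exact Prod.ext (b_inj (hD _ hc) (hD _ hc₂) he2 he1) (t_inj (hD _ hc) (hD _ hc₂) he2)

end Pool.Agent.T6.H61.SL
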