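import Pool.Agent.T6.H61.SL.Defs

/-!
# Module VX: vertical squares parallel to the first axis
-/

set_option autoImplicit false

namespace Pool.Agent.T6.H61.SL.ModVX

open KN Pool.Agent.T6.H61.SL

/-- the five kinds of edges -/
structure Fam where
  /-- bottom, first axis -/
  BX : ℤ → ℤ → Prop
  /-- bottom, second axis -/
  BY : ℤ → ℤ → Prop
  /-- top, first axis -/
  TX : ℤ → ℤ → Prop
  /-- top, second axis -/
  TY : ℤ → ℤ → Prop
  /-- vertical -/
  ZZ : ℤ → ℤ → Prop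

/-- colourings -/
structure ColP (F : Fam) (b t : ℤ → ℤ → Fin 3) : Prop where
  zz : ∀ u v, F.ZZ u v → t u v = b u v
  tx : ∀ u v, F.TX u v → t (u + 1) v = t u v
  ty : ∀ u v, F.TY u v → t u (v + 1) = t u v
  bx1 : ∀ u v, F.BX u v → F.TY u (v - 1) → b (u + 1) v = sc (t u v) (b u v)
  bx2 : ∀ u v, F.BX u v → ¬ F.TY u (v - 1) → b (u + 1) v = b u v
  yb1 : ∀ u v, F.BY u v → F.TX (u - 1) v → b u (v + 1) = sc (t u v) (b u v)
  yb2 : ∀ u v, F.BY u v → ¬ F.TX (u - 1) v → b u (v + 1) = b u v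
  b0 : ∀ u v, ¬ F.BX u v → ¬ F.BX (u - 1) v → ¬ F.BY u v → ¬ F.BY u (v - 1) → ¬ F.ZZ u v →
    b u v = 0
  t0 : ∀ u v, ¬ F.TX u v → ¬ F.TX (u - 1) v → ¬ F.TY u v → ¬ F.TY u (v - 1) → ¬ F.ZZ u v →
    t u v = 0

/-- the hypotheses about the square -/
structure Sq (F F' : Fam) (x y : ℤ) : Prop where
  fBX : F'.BX x y ↔ ¬ F.BX x y
  fTX : F'.TX x y ↔ ¬ F.TX x y
  fZ0 : F'.ZZ x y ↔ ¬ F.ZZ x y
  fZ1 : F'.ZZ (x + 1) y ↔ ¬ F.ZZ (x + 1) y
  eBX : ∀ u v, ¬ (u = x ∧ v = y) → (F'.BX u v ↔ F.BX u v)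
  eTX : ∀ u v, ¬ (u = x ∧ v = y) → (F'.TX u v ↔ F.TX u v)
  eZZ : ∀ u v, ¬ (u = x ∧ v = y) → ¬ (u = x + 1 ∧ v = y) → (F'.ZZ u v ↔ F.ZZ u v)
  eBY : ∀ u v, F'.BY u v ↔ F.BY u v
  eTY : ∀ u v, F'.TY u v ↔ F.TY u v
  kA0 : F.BX (x - 1) y ∨ F.BY x y ∨ F.BY x (y - 1) → ¬ (F.BX x y ↔ F.ZZ x y)
  kB0 : F.BX (x + 1) y ∨ F.BY (x + 1) y ∨ F.BY (x + 1) (y - 1) → ¬ (F.BX x y ↔ F.ZZ (x + 1) y)
  kA1 : F.TX (x - 1) y ∨ F.TY x y ∨ F.TY x (y - 1) → ¬ (F.TX x y ↔ F.ZZ x y)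
  kB1 : F.TX (x + 1) y ∨ F.TY (x + 1) y ∨ F.TY (x + 1) (y - 1) → ¬ (F.TX x y ↔ F.ZZ (x + 1) y)
  g4 : G4 (F.BX x y) (F.TX x y) (F.ZZ x y) (F.ZZ (x + 1) y)

open Classical in
/-- the colour of the moving strand -/
noncomputable def kk (F : Fam) (x y : ℤ) (c : (ℤ → ℤ → Fin 3) × (ℤ → ℤ → Fin 3)) : Fin 3 :=
  if F.ZZ x y then c.2 x y else if F.ZZ (x + 1) y then c.2 (x + 1) y else
    if F.TX x y then c.2 x y else c.1 x y

open Classical in
/-- the new colouring -/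
noncomputable def nb (F : Fam) (x y : ℤ) (c : (ℤ → ℤ → Fin 3) × (ℤ → ℤ → Fin 3)) (u v : ℤ) :
    Fin 3 :=
  if u = x ∧ v = y then (if F.BX x y ∧ F.ZZ x y then 0 else kk F x y c) else
    if u = x + 1 ∧ v = y then (if F.BX x y ∧ F.ZZ (x + 1) y then 0 else kk F x y c) else c.1 u v

open Classical in
/-- the new colouring -/
noncomputable def nt (F : Fam) (x y : ℤ) (c : (ℤ → ℤ → Fin 3) × (ℤ → ℤ → Fin 3)) (u v : ℤ) :
    Fin 3 :=
  if u = x ∧ v = y then (if F.TX x y ∧ F.ZZ x y then 0 else kk F x y c) else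
    if u = x + 1 ∧ v = y then (if F.TX x y ∧ F.ZZ (x + 1) y then 0 else kk F x y c) else c.2 u v

section

variable {F F' : Fam} {x y : ℤ} {c : (ℤ → ℤ → Fin 3) × (ℤ → ℤ → Fin 3)}

theorem nb_A (c : (ℤ → ℤ → Fin 3) × (ℤ → ℤ → Fin 3)) (h : ¬ (F.BX x y ∧ F.ZZ x y)) :
    nb F x y c x y = kk F x y c := by
  unfold nb
  rw [if_pos ⟨rfl, rfl⟩, if_neg h]

theorem nb_A0 (c : (ℤ → ℤ → Fin 3) × (ℤ → ℤ → Fin 3)) (h : F.BX x y ∧ F.ZZ x y) :
    nb F x y c x y = 0 := by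
  unfold nb
  rw [if_pos ⟨rfl, rfl⟩, if_pos h]

theorem nb_B (c : (ℤ → ℤ → Fin 3) × (ℤ → ℤ → Fin 3)) (h : ¬ (F.BX x y ∧ F.ZZ (x + 1) y)) :
    nb F x y c (x + 1) y = kk F x y c := by
  unfold nb
  rw [if_neg (by rintro ⟨h, -⟩; omega), if_pos ⟨rfl, rfl⟩, if_neg h]

theorem nb_B0 (c : (ℤ → ℤ → Fin 3) × (ℤ → ℤ → Fin 3)) (h : F.BX x y ∧ F.ZZ (x + 1) y) :
    nb F x y c (x + 1) y = 0 := by
  unfold nb
  rw [if_neg (by rintro ⟨h, -⟩; omega), if_pos ⟨rfl, rfl⟩, if_pos h]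

theorem nb_O (c : (ℤ → ℤ → Fin 3) × (ℤ → ℤ → Fin 3)) {u v : ℤ} (h : ¬ (u = x ∧ v = y))
    (h' : ¬ (u = x + 1 ∧ v = y)) : nb F x y c u v = c.1 u v := by
  unfold nb
  rw [if_neg h, if_neg h']

theorem nt_A (c : (ℤ → ℤ → Fin 3) × (ℤ → ℤ → Fin 3)) (h : ¬ (F.TX x y ∧ F.ZZ x y)) :
    nt F x y c x y = kk F x y c := by
  unfold nt
  rw [if_pos ⟨rfl, rfl⟩, if_neg h]

theorem nt_A0 (c : (ℤ → ℤ → Fin 3) × (ℤ → ℤ → Fin 3)) (h : F.TX x y ∧ F.ZZ x y) :
    nt F x y c x y = 0 := by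
  unfold nt
  rw [if_pos ⟨rfl, rfl⟩, if_pos h]

theorem nt_B (c : (ℤ → ℤ → Fin 3) × (ℤ → ℤ → Fin 3)) (h : ¬ (F.TX x y ∧ F.ZZ (x + 1) y)) :
    nt F x y c (x + 1) y = kk F x y c := by
  unfold nt
  rw [if_neg (by rintro ⟨h, -⟩; omega), if_pos ⟨rfl, rfl⟩, if_neg h]

theorem nt_B0 (c : (ℤ → ℤ → Fin 3) × (ℤ → ℤ → Fin 3)) (h : F.TX x y ∧ F.ZZ (x + 1) y) :
    nt F x y c (x + 1) y = 0 := by
  unfold nt
  rw [if_neg (by rintro ⟨h, -⟩; omega), if_pos ⟨rfl, rfl⟩, if_pos h]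

theorem nt_O (c : (ℤ → ℤ → Fin 3) × (ℤ → ℤ → Fin 3)) {u v : ℤ} (h : ¬ (u = x ∧ v = y))
    (h' : ¬ (u = x + 1 ∧ v = y)) : nt F x y c u v = c.2 u v := by
  unfold nt
  rw [if_neg h, if_neg h']

theorem sc_eq : ∀ {a b : Fin 3}, sc a b = a → b = a := by decide

/-- all corners on the strand have the colour `kk` -/
theorem strand (hS : Sq F F' x y) (hc : ColP F c.1 c.2) :
    (F.BX x y ∨ F.ZZ x y → c.1 x y = kk F x y c) ∧
    (F.BX x y ∨ F.ZZ (x + 1) y → c.1 (x + 1) y = kk F x y c) ∧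
    (F.TX x y ∨ F.ZZ x y → c.2 x y = kk F x y c) ∧
    (F.TX x y ∨ F.ZZ (x + 1) y → c.2 (x + 1) y = kk F x y c) := by
  have z0 := hc.zz x y
  have z1 := hc.zz (x + 1) y
  have t := hc.tx x y
  have g4 := hS.g4
  have hb : F.BX x y → c.1 (x + 1) y = c.1 x y := by
    intro B
    by_cases Y : F.TY x (y - 1)
    · have kA1 := hS.kA1 (Or.inr (Or.inr Y))
      have b1 := hc.bx1 x y B Y
      by_cases Z0 : F.ZZ x y
      · rw [b1, z0 Z0, sc_self]
      · have T : F.TX x y := by tauto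
        have Z1 : F.ZZ (x + 1) y := by
          unfold G4 at g4
          tauto
        have e1 : c.1 (x + 1) y = c.2 x y := by rw [← z1 Z1, t T]
        have e2 : c.1 x y = c.2 x y := by
          apply sc_eq
          rw [← b1, e1]
        rw [e1, e2]
    · exact hc.bx2 x y B Y
  unfold G4 at g4
  unfold kk
  clear hS hc
  generalize c.1 x y = b00 at *
  generalize c.1 (x + 1) y = b10 at *
  generalize c.2 x y = t00 at *
  generalize c.2 (x + 1) y = t10 at *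
  by_cases B : F.BX x y <;> by_cases T : F.TX x y <;> by_cases Z0 : F.ZZ x y <;>
    by_cases Z1 : F.ZZ (x + 1) y <;> simp_all

/-- the colours of corners at which another edge ends are kept -/
theorem keepA0 (hS : Sq F F' x y) (hc : ColP F c.1 c.2)
    (h : F.BX (x - 1) y ∨ F.BY x y ∨ F.BY x (y - 1)) : nb F x y c x y = c.1 x y := by
  have h1 := hS.kA0 h
  have h2 := (strand hS hc).1
  rw [nb_A _ (by tauto), h2 (by tauto)]

theorem keepB0 (hS : Sq F F' x y) (hc : ColP F c.1 c.2)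
    (h : F.BX (x + 1) y ∨ F.BY (x + 1) y ∨ F.BY (x + 1) (y - 1)) :
    nb F x y c (x + 1) y = c.1 (x + 1) y := by
  have h1 := hS.kB0 h
  have h2 := (strand hS hc).2.1
  rw [nb_B _ (by tauto), h2 (by tauto)]

theorem keepA1 (hS : Sq F F' x y) (hc : ColP F c.1 c.2)
    (h : F.TX (x - 1) y ∨ F.TY x y ∨ F.TY x (y - 1)) : nt F x y c x y = c.2 x y := by
  have h1 := hS.kA1 h
  have h2 := (strand hS hc).2.2.1
  rw [nt_A _ (by tauto), h2 (by tauto)]

theorem keepB1 (hS : Sq F F' x y) (hc : ColP F c.1 c.2)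
    (h : F.TX (x + 1) y ∨ F.TY (x + 1) y ∨ F.TY (x + 1) (y - 1)) :
    nt F x y c (x + 1) y = c.2 (x + 1) y := by
  have h1 := hS.kB1 h
  have h2 := (strand hS hc).2.2.2
  rw [nt_B _ (by tauto), h2 (by tauto)]

/-- ends of the other bottom edges keep their colours -/
theorem keep_bxr (hS : Sq F F' x y) (hc : ColP F c.1 c.2) {u v : ℤ} (h : F.BX u v)
    (hne : ¬ (u = x ∧ v = y)) : nb F x y c (u + 1) v = c.1 (u + 1) v := by
  by_cases h1 : u + 1 = x ∧ v = y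
  · obtain ⟨h1, rfl⟩ := h1
    obtain rfl : u = x - 1 := by omega
    rw [sub_add_cancel]
    exact keepA0 hS hc (Or.inl h)
  · by_cases h2 : u + 1 = x + 1 ∧ v = y
    · exact absurd ⟨by omega, h2.2⟩ hne
    · exact nb_O c h1 h2

theorem keep_bxl (hS : Sq F F' x y) (hc : ColP F c.1 c.2) {u v : ℤ} (h : F.BX u v)
    (hne : ¬ (u = x ∧ v = y)) : nb F x y c u v = c.1 u v := by
  by_cases h2 : u = x + 1 ∧ v = y
  · obtain ⟨rfl, rfl⟩ := h2
    exact keepB0 hS hc (Or.inl h)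
  · exact nb_O c hne h2

theorem keep_byt (hS : Sq F F' x y) (hc : ColP F c.1 c.2) {u v : ℤ} (h : F.BY u v) :
    nb F x y c u (v + 1) = c.1 u (v + 1) := by
  by_cases h1 : u = x ∧ v + 1 = y
  · obtain ⟨rfl, rfl⟩ := h1
    exact keepA0 hS hc (Or.inr (Or.inr (by rwa [add_sub_cancel_right])))
  · by_cases h2 : u = x + 1 ∧ v + 1 = y
    · obtain ⟨rfl, rfl⟩ := h2
      exact keepB0 hS hc (Or.inr (Or.inr (by rwa [add_sub_cancel_right])))
    · exact nb_O c h1 h2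

theorem keep_byb (hS : Sq F F' x y) (hc : ColP F c.1 c.2) {u v : ℤ} (h : F.BY u v) :
    nb F x y c u v = c.1 u v := by
  by_cases h1 : u = x ∧ v = y
  · obtain ⟨rfl, rfl⟩ := h1
    exact keepA0 hS hc (Or.inr (Or.inl h))
  · by_cases h2 : u = x + 1 ∧ v = y
    · obtain ⟨rfl, rfl⟩ := h2
      exact keepB0 hS hc (Or.inr (Or.inl h))
    · exact nb_O c h1 h2

theorem keep_txr (hS : Sq F F' x y) (hc : ColP F c.1 c.2) {u v : ℤ} (h : F.TX u v)
    (hne : ¬ (u = x ∧ v = y)) : nt F x y c (u + 1) v = c.2 (u + 1) v := by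
  by_cases h1 : u + 1 = x ∧ v = y
  · obtain ⟨h1, rfl⟩ := h1
    obtain rfl : u = x - 1 := by omega
    rw [sub_add_cancel]
    exact keepA1 hS hc (Or.inl h)
  · by_cases h2 : u + 1 = x + 1 ∧ v = y
    · exact absurd ⟨by omega, h2.2⟩ hne
    · exact nt_O c h1 h2

theorem keep_txl (hS : Sq F F' x y) (hc : ColP F c.1 c.2) {u v : ℤ} (h : F.TX u v)
    (hne : ¬ (u = x ∧ v = y)) : nt F x y c u v = c.2 u v := by
  by_cases h2 : u = x + 1 ∧ v = y
  · obtain ⟨rfl, rfl⟩ := h2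
    exact keepB1 hS hc (Or.inl h)
  · exact nt_O c hne h2

theorem keep_tyt (hS : Sq F F' x y) (hc : ColP F c.1 c.2) {u v : ℤ} (h : F.TY u v) :
    nt F x y c u (v + 1) = c.2 u (v + 1) := by
  by_cases h1 : u = x ∧ v + 1 = y
  · obtain ⟨rfl, rfl⟩ := h1
    exact keepA1 hS hc (Or.inr (Or.inr (by rwa [add_sub_cancel_right])))
  · by_cases h2 : u = x + 1 ∧ v + 1 = y
    · obtain ⟨rfl, rfl⟩ := h2
      exact keepB1 hS hc (Or.inr (Or.inr (by rwa [add_sub_cancel_right])))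
    · exact nt_O c h1 h2

theorem keep_tyb (hS : Sq F F' x y) (hc : ColP F c.1 c.2) {u v : ℤ} (h : F.TY u v) :
    nt F x y c u v = c.2 u v := by
  by_cases h1 : u = x ∧ v = y
  · obtain ⟨rfl, rfl⟩ := h1
    exact keepA1 hS hc (Or.inr (Or.inl h))
  · by_cases h2 : u = x + 1 ∧ v = y
    · obtain ⟨rfl, rfl⟩ := h2
      exact keepB1 hS hc (Or.inr (Or.inl h))
    · exact nt_O c h1 h2

/-- the new colouring is a colouring of the new polygon -/
theorem new_col (hS : Sq F F' x y) (hc : ColP F c.1 c.2) :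
    ColP F' (nb F x y c) (nt F x y c) where
  zz := by
    intro u v h
    by_cases h1 : u = x ∧ v = y
    · obtain ⟨rfl, rfl⟩ := h1
      have h2 := hS.fZ0.mp h
      rw [nt_A _ (by tauto), nb_A _ (by tauto)]
    · by_cases h2 : u = x + 1 ∧ v = y
      · obtain ⟨rfl, rfl⟩ := h2
        have h2 := hS.fZ1.mp h
        rw [nt_B _ (by tauto), nb_B _ (by tauto)]
      · rw [nt_O _ h1 h2, nb_O _ h1 h2]
        exact hc.zz u v ((hS.eZZ u v h1 h2).mp h)
  tx := by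
    intro u v h
    by_cases h1 : u = x ∧ v = y
    · obtain ⟨rfl, rfl⟩ := h1
      have h2 := hS.fTX.mp h
      rw [nt_A _ (by tauto), nt_B _ (by tauto)]
    · have h2 := (hS.eTX u v h1).mp h
      rw [keep_txr hS hc h2 h1, keep_txl hS hc h2 h1]
      exact hc.tx u v h2
  ty := by
    intro u v h
    have h2 := (hS.eTY u v).mp h
    rw [keep_tyt hS hc h2, keep_tyb hS hc h2]
    exact hc.ty u v h2
  bx1 := by
    intro u v h hY
    have hY' := (hS.eTY u (v - 1)).mp hY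
    have h3 := keep_tyt hS hc hY'
    rw [sub_add_cancel] at h3
    by_cases h1 : u = x ∧ v = y
    · obtain ⟨rfl, rfl⟩ := h1
      have h2 := hS.fBX.mp h
      have h4 := hS.kA1 (Or.inr (Or.inr hY'))
      rw [nt_A _ (by tauto), nb_A _ (by tauto), nb_B _ (by tauto), sc_self]
    · have h2 := (hS.eBX u v h1).mp h
      rw [h3, keep_bxr hS hc h2 h1, keep_bxl hS hc h2 h1]
      exact hc.bx1 u v h2 hY'
  bx2 := by
    intro u v h hY
    have hY' : ¬ F.TY u (v - 1) := fun h' => hY ((hS.eTY u (v - 1)).mpr h')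
    by_cases h1 : u = x ∧ v = y
    · obtain ⟨rfl, rfl⟩ := h1
      have h2 := hS.fBX.mp h
      rw [nb_A _ (by tauto), nb_B _ (by tauto)]
    · have h2 := (hS.eBX u v h1).mp h
      rw [keep_bxr hS hc h2 h1, keep_bxl hS hc h2 h1]
      exact hc.bx2 u v h2 hY'
  yb1 := by
    intro u v h hX
    have h2 := (hS.eBY u v).mp h
    rw [keep_byt hS hc h2, keep_byb hS hc h2]
    by_cases h1 : u - 1 = x ∧ v = y
    · obtain ⟨h1, rfl⟩ := h1
      obtain rfl : u = x + 1 := by omega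
      have h3 := hS.kB0 (Or.inr (Or.inl h2))
      have h4 := (strand hS hc).2.1 (by tauto)
      rw [add_sub_cancel_right] at hX
      have h5 := hS.fTX.mp hX
      have h6 := hc.yb2 (x + 1) v h2 (by rwa [add_sub_cancel_right])
      rw [nt_B _ (by tauto), h6, h4, sc_self]
    · have h3 := (hS.eTX (u - 1) v h1).mp hX
      have h4 := keep_txr hS hc h3 h1
      rw [sub_add_cancel] at h4
      rw [h4]
      exact hc.yb1 u v h2 h3
  yb2 := by
    intro u v h hX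
    have h2 := (hS.eBY u v).mp h
    rw [keep_byt hS hc h2, keep_byb hS hc h2]
    by_cases h1 : u - 1 = x ∧ v = y
    · obtain ⟨h1, rfl⟩ := h1
      obtain rfl : u = x + 1 := by omega
      have h3 := hS.kB0 (Or.inr (Or.inl h2))
      have h4 := (strand hS hc).2.1 (by tauto)
      rw [add_sub_cancel_right] at hX
      have h5 : F.TX x v := by
        by_contra h5
        exact hX (hS.fTX.mpr h5)
      have h6 := hc.yb1 (x + 1) v h2 (by rwa [add_sub_cancel_right])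
      rw [h6, (strand hS hc).2.2.2 (Or.inl h5), h4, sc_self]
    · have h3 : ¬ F.TX (u - 1) v := fun h' => hX ((hS.eTX (u - 1) v h1).mpr h')
      exact hc.yb2 u v h2 h3
  b0 := by
    intro u v h1 h2 h3 h4 h5
    rw [hS.eBY] at h3 h4
    by_cases e1 : u = x ∧ v = y
    · obtain ⟨rfl, rfl⟩ := e1
      rw [hS.fBX, not_not] at h1
      rw [hS.fZ0, not_not] at h5
      exact nb_A0 c ⟨h1, h5⟩
    · by_cases e2 : u = x + 1 ∧ v = y
      · obtain ⟨rfl, rfl⟩ := e2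
        rw [add_sub_cancel_right, hS.fBX, not_not] at h2
        rw [hS.fZ1, not_not] at h5
        exact nb_B0 c ⟨h2, h5⟩
      · rw [nb_O c e1 e2]
        rw [hS.eBX u v e1] at h1
        rw [hS.eBX (u - 1) v (by omega)] at h2
        rw [hS.eZZ u v e1 e2] at h5
        exact hc.b0 u v h1 h2 h3 h4 h5
  t0 := by
    intro u v h1 h2 h3 h4 h5
    rw [hS.eTY] at h3 h4
    by_cases e1 : u = x ∧ v = y
    · obtain ⟨rfl, rfl⟩ := e1
      rw [hS.fTX, not_not] at h1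
      rw [hS.fZ0, not_not] at h5
      exact nt_A0 c ⟨h1, h5⟩
    · by_cases e2 : u = x + 1 ∧ v = y
      · obtain ⟨rfl, rfl⟩ := e2
        rw [add_sub_cancel_right, hS.fTX, not_not] at h2
        rw [hS.fZ1, not_not] at h5
        exact nt_B0 c ⟨h2, h5⟩
      · rw [nt_O c e1 e2]
        rw [hS.eTX u v e1] at h1
        rw [hS.eTX (u - 1) v (by omega)] at h2
        rw [hS.eZZ u v e1 e2] at h5
        exact hc.t0 u v h1 h2 h3 h4 h5

/-- the colours of the corners in terms of `kk` -/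
theorem corners (hS : Sq F F' x y) (hc : ColP F c.1 c.2) :
    (¬ (F.BX x y ∨ F.ZZ x y) → c.1 x y = 0) ∧
    (¬ (F.BX x y ∨ F.ZZ (x + 1) y) → c.1 (x + 1) y = 0) ∧
    (¬ (F.TX x y ∨ F.ZZ x y) → c.2 x y = 0) ∧
    (¬ (F.TX x y ∨ F.ZZ (x + 1) y) → c.2 (x + 1) y = 0) := by
  refine ⟨fun h => ?_, fun h => ?_, fun h => ?_, fun h => ?_⟩
  · have h1 : ¬ (F.BX (x - 1) y ∨ F.BY x y ∨ F.BY x (y - 1)) := fun h' => hS.kA0 h' (by tauto)
    exact hc.b0 x y (by tauto) (by tauto) (by tauto) (by tauto) (by tauto)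
  · have h1 : ¬ (F.BX (x + 1) y ∨ F.BY (x + 1) y ∨ F.BY (x + 1) (y - 1)) :=
      fun h' => hS.kB0 h' (by tauto)
    exact hc.b0 (x + 1) y (by tauto) (by rw [add_sub_cancel_right]; tauto) (by tauto) (by tauto)
      (by tauto)
  · have h1 : ¬ (F.TX (x - 1) y ∨ F.TY x y ∨ F.TY x (y - 1)) := fun h' => hS.kA1 h' (by tauto)
    exact hc.t0 x y (by tauto) (by tauto) (by tauto) (by tauto) (by tauto)
  · have h1 : ¬ (F.TX (x + 1) y ∨ F.TY (x + 1) y ∨ F.TY (x + 1) (y - 1)) :=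
      fun h' => hS.kB1 h' (by tauto)
    exact hc.t0 (x + 1) y (by tauto) (by rw [add_sub_cancel_right]; tauto) (by tauto) (by tauto)
      (by tauto)

theorem inj {d : (ℤ → ℤ → Fin 3) × (ℤ → ℤ → Fin 3)} (hS : Sq F F' x y) (hc : ColP F c.1 c.2)
    (hd : ColP F d.1 d.2) (h1 : nb F x y c = nb F x y d) (h2 : nt F x y c = nt F x y d) :
    c = d := by
  have hk : kk F x y c = kk F x y d := by
    have g4 := hS.g4
    unfold G4 at g4
    by_cases e1 : F.BX x y ∧ F.ZZ x y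
    · by_cases e2 : F.BX x y ∧ F.ZZ (x + 1) y
      · by_cases e3 : F.TX x y ∧ F.ZZ x y
        · exact absurd ⟨e1.1, e3.1, e1.2, e2.2⟩ g4.1
        · have := congrFun (congrFun h2 x) y
          rwa [nt_A c e3, nt_A d e3] at this
      · have := congrFun (congrFun h1 (x + 1)) y
        rwa [nb_B c e2, nb_B d e2] at this
    · have := congrFun (congrFun h1 x) y
      rwa [nb_A c e1, nb_A d e1] at this
  have sc1 := strand hS hc
  have sd1 := strand hS hd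
  have cc := corners hS hc
  have cd := corners hS hd
  refine Prod.ext ?_ ?_
  · funext u v
    by_cases e1 : u = x ∧ v = y
    · obtain ⟨rfl, rfl⟩ := e1
      by_cases e3 : F.BX u v ∨ F.ZZ u v
      · rw [sc1.1 e3, sd1.1 e3, hk]
      · rw [cc.1 e3, cd.1 e3]
    · by_cases e2 : u = x + 1 ∧ v = y
      · obtain ⟨rfl, rfl⟩ := e2
        by_cases e3 : F.BX x v ∨ F.ZZ (x + 1) v
        · rw [sc1.2.1 e3, sd1.2.1 e3, hk]
        · rw [cc.2.1 e3, cd.2.1 e3]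
      · have := congrFun (congrFun h1 u) v
        rwa [nb_O c e1 e2, nb_O d e1 e2] at this
  · funext u v
    by_cases e1 : u = x ∧ v = y
    · obtain ⟨rfl, rfl⟩ := e1
      by_cases e3 : F.TX u v ∨ F.ZZ u v
      · rw [sc1.2.2.1 e3, sd1.2.2.1 e3, hk]
      · rw [cc.2.2.1 e3, cd.2.2.1 e3]
    · by_cases e2 : u = x + 1 ∧ v = y
      · obtain ⟨rfl, rfl⟩ := e2
        by_cases e3 : F.TX x v ∨ F.ZZ (x + 1) v
        · rw [sc1.2.2.2 e3, sd1.2.2.2 e3, hk]
        · rw [cc.2.2.2 e3, cd.2.2.2 e3]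
      · have := congrFun (congrFun h2 u) v
        rwa [nt_O c e1 e2, nt_O d e1 e2] at this

end

/-! ### Application -/

theorem ind_pos {P : Prop} [Decidable P] (h : P) : ind P = 1 := if_pos h

theorem ind_neg {P : Prop} [Decidable P] (h : ¬ P) : ind P = 0 := if_neg h

theorem ind_le {P : Prop} [Decidable P] : ind P ≤ 1 := by
  unfold ind
  split_ifs <;> omega

theorem dB_zero {ω : Finset Ed} {u v : ℤ} (h1 : ¬ BX ω u v) (h2 : ¬ BX ω (u - 1) v)
    (h3 : ¬ BY ω u v) (h4 : ¬ BY ω u (v - 1)) (h5 : ¬ ZZ ω u v) : dB ω u v = 0 := by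
  unfold dB
  rw [ind_neg h1, ind_neg h2, ind_neg h3, ind_neg h4, ind_neg h5]

theorem dT_zero {ω : Finset Ed} {u v : ℤ} (h1 : ¬ TX ω u v) (h2 : ¬ TX ω (u - 1) v)
    (h3 : ¬ TY ω u v) (h4 : ¬ TY ω u (v - 1)) (h5 : ¬ ZZ ω u v) : dT ω u v = 0 := by
  unfold dT
  rw [ind_neg h1, ind_neg h2, ind_neg h3, ind_neg h4, ind_neg h5]

theorem of_ind {P : Prop} [Decidable P] (h : ind P = 0) : ¬ P := by
  intro hP
  rw [ind_pos hP] at h
  exact one_ne_zero h

theorem dB_iff {ω : Finset Ed} {u v : ℤ} (h : dB ω u v = 0) : ¬ BX ω u v ∧ ¬ BX ω (u - 1) v ∧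
    ¬ BY ω u v ∧ ¬ BY ω u (v - 1) ∧ ¬ ZZ ω u v := by
  unfold dB at h
  exact ⟨of_ind (by omega), of_ind (by omega), of_ind (by omega), of_ind (by omega),
    of_ind (by omega)⟩

theorem dT_iff {ω : Finset Ed} {u v : ℤ} (h : dT ω u v = 0) : ¬ TX ω u v ∧ ¬ TX ω (u - 1) v ∧
    ¬ TY ω u v ∧ ¬ TY ω u (v - 1) ∧ ¬ ZZ ω u v := by
  unfold dT at h
  exact ⟨of_ind (by omega), of_ind (by omega), of_ind (by omega), of_ind (by omega),
    of_ind (by omega)⟩

/-- the family of a polygon -/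
def fam (ω : Finset Ed) : Fam := ⟨BX ω, BY ω, TX ω, TY ω, ZZ ω⟩

theorem col_iff {ω : Finset Ed} {b t : ℤ → ℤ → Fin 3} : Col ω b t ↔ ColP (fam ω) b t := by
  constructor
  · intro h
    refine ⟨h.zz, h.tx, h.ty, ?_, ?_, ?_, ?_, ?_, ?_⟩
    · intro u v h1 h2
      rw [h.bx u v h1]; exact if_pos h2
    · intro u v h1 h2
      rw [h.bx u v h1]; exact if_neg h2
    · intro u v h1 h2
      rw [h.yb u v h1]; exact if_pos h2
    · intro u v h1 h2
      rw [h.yb u v h1]; exact if_neg h2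
    · intro u v h1 h2 h3 h4 h5
      exact h.b0 u v (dB_zero h1 h2 h3 h4 h5)
    · intro u v h1 h2 h3 h4 h5
      exact h.t0 u v (dT_zero h1 h2 h3 h4 h5)
  · intro h
    refine ⟨h.zz, h.tx, h.ty, ?_, ?_, ?_, ?_⟩
    · intro u v h1
      by_cases h2 : TY ω u (v - 1)
      · rw [if_pos h2]; exact h.bx1 u v h1 h2
      · rw [if_neg h2]; exact h.bx2 u v h1 h2
    · intro u v h1
      by_cases h2 : TX ω (u - 1) v
      · rw [if_pos h2]; exact h.yb1 u v h1 h2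
      · rw [if_neg h2]; exact h.yb2 u v h1 h2
    · intro u v h1
      obtain ⟨a1, a2, a3, a4, a5⟩ := dB_iff h1
      exact h.b0 u v a1 a2 a3 a4 a5
    · intro u v h1
      obtain ⟨a1, a2, a3, a4, a5⟩ := dT_iff h1
      exact h.t0 u v a1 a2 a3 a4 a5

/-- the parity argument at a corner -/
theorem parity {P Q P' Q' R1 R2 R3 : Prop} [Decidable P] [Decidable Q] [Decidable P']
    [Decidable Q'] [Decidable R1] [Decidable R2] [Decidable R3]
    (hP : P' ↔ ¬ P) (hQ : Q' ↔ ¬ Q)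
    (h : ind P + ind Q + (ind R1 + ind R2 + ind R3) = 0 ∨
      ind P + ind Q + (ind R1 + ind R2 + ind R3) = 2)
    (h' : ind P' + ind Q' + (ind R1 + ind R2 + ind R3) = 0 ∨
      ind P' + ind Q' + (ind R1 + ind R2 + ind R3) = 2) :
    R1 ∨ R2 ∨ R3 → ¬ (P ↔ Q) := by
  intro hR hPQ
  have hr : 1 ≤ ind R1 + ind R2 + ind R3 := by
    rcases hR with h1 | h1 | h1
    · rw [ind_pos h1]; omega
    · rw [ind_pos h1]; omega
    · rw [ind_pos h1]; omega
  by_cases p : P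
  · have q : Q := hPQ.mp p
    rw [ind_pos p, ind_pos q] at h
    omega
  · have q : ¬ Q := fun q => p (hPQ.mpr q)
    rw [ind_pos (hP.mpr p), ind_pos (hQ.mpr q)] at h'
    omega

theorem ind_congr {P Q : Prop} [Decidable P] [Decidable Q] (h : P ↔ Q) : ind P = ind Q := by
  unfold ind
  by_cases p : P
  · rw [if_pos p, if_pos (h.mp p)]
  · rw [if_neg p, if_neg (fun q => p (h.mpr q))]

theorem mem_plaq {x y : ℤ} {e : Ed} : e ∈ plaq (x, y, 0) 0 2 ↔
    e = ((x, y, 0), 0) ∨ e = ((x, y, 1), 0) ∨ e = ((x, y, 0), 2) ∨ e = ((x + 1, y, 0), 2) := by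
  simp [plaq, un]

theorem mem_in {ω p : Finset Ed} {e : Ed} (h : e ∈ p) : e ∈ symmDiff ω p ↔ ¬ e ∈ ω := by
  rw [Finset.mem_symmDiff]
  tauto

theorem mem_out {ω p : Finset Ed} {e : Ed} (h : e ∉ p) : e ∈ symmDiff ω p ↔ e ∈ ω := by
  rw [Finset.mem_symmDiff]
  tauto

theorem sqX {ω ω' : Finset Ed} {x y : ℤ} (h : Deg ω) (h' : Deg ω')
    (hω : ω' = symmDiff ω (plaq (x, y, 0) 0 2))
    (hG : G4 (BX ω x y) (TX ω x y) (ZZ ω x y) (ZZ ω (x + 1) y)) : Sq (fam ω) (fam ω') x y := by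
  have fBX : BX ω' x y ↔ ¬ BX ω x y := by
    rw [hω]; exact mem_in (mem_plaq.mpr (Or.inl rfl))
  have fTX : TX ω' x y ↔ ¬ TX ω x y := by
    rw [hω]; exact mem_in (mem_plaq.mpr (Or.inr (Or.inl rfl)))
  have fZ0 : ZZ ω' x y ↔ ¬ ZZ ω x y := by
    rw [hω]; exact mem_in (mem_plaq.mpr (Or.inr (Or.inr (Or.inl rfl))))
  have fZ1 : ZZ ω' (x + 1) y ↔ ¬ ZZ ω (x + 1) y := by
    rw [hω]; exact mem_in (mem_plaq.mpr (Or.inr (Or.inr (Or.inr rfl))))
  have eBX : ∀ u v, ¬ (u = x ∧ v = y) → (BX ω' u v ↔ BX ω u v) := by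
    intro u v huv
    rw [hω]
    refine mem_out (fun hm => ?_)
    rw [mem_plaq] at hm
    simp only [Prod.mk.injEq] at hm
    rcases hm with hm | hm | hm | hm
    · exact huv ⟨hm.1.1, hm.1.2.1⟩
    · exact absurd hm.1.2.2 (by decide)
    · exact absurd hm.2 (by decide)
    · exact absurd hm.2 (by decide)
  have eTX : ∀ u v, ¬ (u = x ∧ v = y) → (TX ω' u v ↔ TX ω u v) := by
    intro u v huv
    rw [hω]
    refine mem_out (fun hm => ?_)
    rw [mem_plaq] at hm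
    simp only [Prod.mk.injEq] at hm
    rcases hm with hm | hm | hm | hm
    · exact absurd hm.1.2.2 (by decide)
    · exact huv ⟨hm.1.1, hm.1.2.1⟩
    · exact absurd hm.2 (by decide)
    · exact absurd hm.2 (by decide)
  have eZZ : ∀ u v, ¬ (u = x ∧ v = y) → ¬ (u = x + 1 ∧ v = y) → (ZZ ω' u v ↔ ZZ ω u v) := by
    intro u v huv huv'
    rw [hω]
    refine mem_out (fun hm => ?_)
    rw [mem_plaq] at hm
    simp only [Prod.mk.injEq] at hm
    rcases hm with hm | hm | hm | hm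
    · exact absurd hm.2 (by decide)
    · exact absurd hm.2 (by decide)
    · exact huv ⟨hm.1.1, hm.1.2.1⟩
    · exact huv' ⟨hm.1.1, hm.1.2.1⟩
  have eBY : ∀ u v, BY ω' u v ↔ BY ω u v := by
    intro u v
    rw [hω]
    refine mem_out (fun hm => ?_)
    rw [mem_plaq] at hm
    simp only [Prod.mk.injEq] at hm
    rcases hm with hm | hm | hm | hm <;> exact absurd hm.2 (by decide)
  have eTY : ∀ u v, TY ω' u v ↔ TY ω u v := by
    intro u v
    rw [hω]
    refine mem_out (fun hm => ?_)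
    rw [mem_plaq] at hm
    simp only [Prod.mk.injEq] at hm
    rcases hm with hm | hm | hm | hm <;> exact absurd hm.2 (by decide)
  refine ⟨fBX, fTX, fZ0, fZ1, eBX, eTX, eZZ, eBY, eTY, ?_, ?_, ?_, ?_, hG⟩
  · have a := (h x y).1
    have a' := (h' x y).1
    unfold dB at a a'
    have c1 := ind_congr (eBX (x - 1) y (by omega))
    have c2 := ind_congr (eBY x y)
    have c3 := ind_congr (eBY x (y - 1))
    have := parity (P := BX ω x y) (Q := ZZ ω x y) fBX fZ0 (R1 := BX ω (x - 1) y)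
      (R2 := BY ω x y) (R3 := BY ω x (y - 1)) (by omega) (by omega)
    exact this
  · have a := (h (x + 1) y).1
    have a' := (h' (x + 1) y).1
    unfold dB at a a'
    rw [add_sub_cancel_right] at a a'
    have c1 := ind_congr (eBX (x + 1) y (by omega))
    have c2 := ind_congr (eBY (x + 1) y)
    have c3 := ind_congr (eBY (x + 1) (y - 1))
    have := parity (P := BX ω x y) (Q := ZZ ω (x + 1) y) fBX fZ1 (R1 := BX ω (x + 1) y)
      (R2 := BY ω (x + 1) y) (R3 := BY ω (x + 1) (y - 1)) (by omega) (by omega)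
    exact this
  · have a := (h x y).2
    have a' := (h' x y).2
    unfold dT at a a'
    have c1 := ind_congr (eTX (x - 1) y (by omega))
    have c2 := ind_congr (eTY x y)
    have c3 := ind_congr (eTY x (y - 1))
    have := parity (P := TX ω x y) (Q := ZZ ω x y) fTX fZ0 (R1 := TX ω (x - 1) y)
      (R2 := TY ω x y) (R3 := TY ω x (y - 1)) (by omega) (by omega)
    exact this
  · have a := (h (x + 1) y).2
    have a' := (h' (x + 1) y).2
    unfold dT at a a'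
    rw [add_sub_cancel_right] at a a'
    have c1 := ind_congr (eTX (x + 1) y (by omega))
    have c2 := ind_congr (eTY (x + 1) y)
    have c3 := ind_congr (eTY (x + 1) (y - 1))
    have := parity (P := TX ω x y) (Q := ZZ ω (x + 1) y) fTX fZ1 (R1 := TX ω (x + 1) y)
      (R2 := TY ω (x + 1) y) (R3 := TY ω (x + 1) (y - 1)) (by omega) (by omega)
    exact this

end Pool.Agent.T6.H61.SL.ModVX

namespace Pool.Agent.T6.H61.SL

open ModVX in
theorem vx : StmVX := by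
  intro hfin ω ω' x y h h' hω hG
  have hS := sqX h h' hω hG
  unfold NC
  refine Set.ncard_le_ncard_of_injOn (fun c => (nb (fam ω) x y c, nt (fam ω) x y c)) ?_ ?_
    (hfin ω')
  · intro c hc
    exact col_iff.mpr (new_col hS (col_iff.mp hc))
  · intro c hc d hd hcd
    exact inj hS (col_iff.mp hc) (col_iff.mp hd) (congrArg Prod.fst hcd) (congrArg Prod.snd hcd)

end Pool.Agent.T6.H61.SL
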