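import Pool.Agent.T6.H61.SL.VX

/-!
# Module VY: vertical squares parallel to the second axis (the mirror image of `VX`)
-/

set_option autoImplicit false

namespace Pool.Agent.T6.H61.SL.ModVY

open KN Pool.Agent.T6.H61.SL ModVX

/-- the family of a polygon with the two axes exchanged -/
def famS (ω : Finset Ed) : Fam := ⟨fun u v => BY ω v u, fun u v => BX ω v u, fun u v => TY ω v u,
  fun u v => TX ω v u, fun u v => ZZ ω v u⟩

/-- exchange of the axes -/
def sw (b : ℤ → ℤ → Fin 3) : ℤ → ℤ → Fin 3 := fun u v => b v u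

theorem sw_sw (b : ℤ → ℤ → Fin 3) : sw (sw b) = b := rfl

theorem col_iff' {ω : Finset Ed} {b t : ℤ → ℤ → Fin 3} :
    Col ω b t ↔ ColP (famS ω) (sw b) (sw t) := by
  constructor
  · intro h
    refine ⟨fun u v => h.zz v u, fun u v => h.ty v u, fun u v => h.tx v u, ?_, ?_, ?_, ?_, ?_, ?_⟩
    · intro u v h1 h2
      exact (h.yb v u h1).trans (if_pos h2)
    · intro u v h1 h2
      exact (h.yb v u h1).trans (if_neg h2)
    · intro u v h1 h2
      exact (h.bx v u h1).trans (if_pos h2)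
    · intro u v h1 h2
      exact (h.bx v u h1).trans (if_neg h2)
    · intro u v h1 h2 h3 h4 h5
      exact h.b0 v u (dB_zero h3 h4 h1 h2 h5)
    · intro u v h1 h2 h3 h4 h5
      exact h.t0 v u (dT_zero h3 h4 h1 h2 h5)
  · intro h
    refine ⟨fun u v => h.zz v u, fun u v => h.ty v u, fun u v => h.tx v u, ?_, ?_, ?_, ?_⟩
    · intro u v h1
      by_cases h2 : TY ω u (v - 1)
      · rw [if_pos h2]; exact h.yb1 v u h1 h2
      · rw [if_neg h2]; exact h.yb2 v u h1 h2
    · intro u v h1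
      by_cases h2 : TX ω (u - 1) v
      · rw [if_pos h2]; exact h.bx1 v u h1 h2
      · rw [if_neg h2]; exact h.bx2 v u h1 h2
    · intro u v h1
      obtain ⟨a1, a2, a3, a4, a5⟩ := dB_iff h1
      exact h.b0 v u a3 a4 a1 a2 a5
    · intro u v h1
      obtain ⟨a1, a2, a3, a4, a5⟩ := dT_iff h1
      exact h.t0 v u a3 a4 a1 a2 a5

theorem mem_plaq' {x y : ℤ} {e : Ed} : e ∈ plaq (x, y, 0) 1 2 ↔
    e = ((x, y, 0), 1) ∨ e = ((x, y, 1), 1) ∨ e = ((x, y, 0), 2) ∨ e = ((x, y + 1, 0), 2) := by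
  simp [plaq, un]

theorem sqY {ω ω' : Finset Ed} {x y : ℤ} (h : Deg ω) (h' : Deg ω')
    (hω : ω' = symmDiff ω (plaq (x, y, 0) 1 2))
    (hG : G4 (BY ω x y) (TY ω x y) (ZZ ω x y) (ZZ ω x (y + 1))) :
    Sq (famS ω) (famS ω') y x := by
  have fBY : BY ω' x y ↔ ¬ BY ω x y := by
    rw [hω]; exact mem_in (mem_plaq'.mpr (Or.inl rfl))
  have fTY : TY ω' x y ↔ ¬ TY ω x y := by
    rw [hω]; exact mem_in (mem_plaq'.mpr (Or.inr (Or.inl rfl)))
  have fZ0 : ZZ ω' x y ↔ ¬ ZZ ω x y := by
    rw [hω]; exact mem_in (mem_plaq'.mpr (Or.inr (Or.inr (Or.inl rfl))))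
  have fZ1 : ZZ ω' x (y + 1) ↔ ¬ ZZ ω x (y + 1) := by
    rw [hω]; exact mem_in (mem_plaq'.mpr (Or.inr (Or.inr (Or.inr rfl))))
  have eBY : ∀ v u, ¬ (u = x ∧ v = y) → (BY ω' u v ↔ BY ω u v) := by
    intro v u huv
    rw [hω]
    refine mem_out (fun hm => ?_)
    rw [mem_plaq'] at hm
    simp only [Prod.mk.injEq] at hm
    rcases hm with hm | hm | hm | hm
    · exact huv ⟨hm.1.1, hm.1.2.1⟩
    · exact absurd hm.1.2.2 (by decide)
    · exact absurd hm.2 (by decide)
    · exact absurd hm.2 (by decide)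
  have eTY : ∀ v u, ¬ (u = x ∧ v = y) → (TY ω' u v ↔ TY ω u v) := by
    intro v u huv
    rw [hω]
    refine mem_out (fun hm => ?_)
    rw [mem_plaq'] at hm
    simp only [Prod.mk.injEq] at hm
    rcases hm with hm | hm | hm | hm
    · exact absurd hm.1.2.2 (by decide)
    · exact huv ⟨hm.1.1, hm.1.2.1⟩
    · exact absurd hm.2 (by decide)
    · exact absurd hm.2 (by decide)
  have eZZ : ∀ v u, ¬ (u = x ∧ v = y) → ¬ (u = x ∧ v = y + 1) → (ZZ ω' u v ↔ ZZ ω u v) := by
    intro v u huv huv'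
    rw [hω]
    refine mem_out (fun hm => ?_)
    rw [mem_plaq'] at hm
    simp only [Prod.mk.injEq] at hm
    rcases hm with hm | hm | hm | hm
    · exact absurd hm.2 (by decide)
    · exact absurd hm.2 (by decide)
    · exact huv ⟨hm.1.1, hm.1.2.1⟩
    · exact huv' ⟨hm.1.1, hm.1.2.1⟩
  have eBX : ∀ v u, BX ω' u v ↔ BX ω u v := by
    intro v u
    rw [hω]
    refine mem_out (fun hm => ?_)
    rw [mem_plaq'] at hm
    simp only [Prod.mk.injEq] at hm
    rcases hm with hm | hm | hm | hm <;> exact absurd hm.2 (by decide)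
  have eTX : ∀ v u, TX ω' u v ↔ TX ω u v := by
    intro v u
    rw [hω]
    refine mem_out (fun hm => ?_)
    rw [mem_plaq'] at hm
    simp only [Prod.mk.injEq] at hm
    rcases hm with hm | hm | hm | hm <;> exact absurd hm.2 (by decide)
  refine ⟨fBY, fTY, fZ0, fZ1, fun u v huv => eBY u v (fun hh => huv ⟨hh.2, hh.1⟩),
    fun u v huv => eTY u v (fun hh => huv ⟨hh.2, hh.1⟩),
    fun u v huv huv' => eZZ u v (fun hh => huv ⟨hh.2, hh.1⟩) (fun hh => huv' ⟨hh.2, hh.1⟩),
    eBX, eTX, ?_, ?_, ?_, ?_, hG⟩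
  · have a := (h x y).1
    have a' := (h' x y).1
    unfold dB at a a'
    have c1 := ind_congr (eBY (y - 1) x (by omega))
    have c2 := ind_congr (eBX y x)
    have c3 := ind_congr (eBX y (x - 1))
    have := parity (P := BY ω x y) (Q := ZZ ω x y) fBY fZ0 (R1 := BY ω x (y - 1))
      (R2 := BX ω x y) (R3 := BX ω (x - 1) y) (by omega) (by omega)
    exact this
  · have a := (h x (y + 1)).1
    have a' := (h' x (y + 1)).1
    unfold dB at a a'
    rw [add_sub_cancel_right] at a a'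
    have c1 := ind_congr (eBY (y + 1) x (by omega))
    have c2 := ind_congr (eBX (y + 1) x)
    have c3 := ind_congr (eBX (y + 1) (x - 1))
    have := parity (P := BY ω x y) (Q := ZZ ω x (y + 1)) fBY fZ1 (R1 := BY ω x (y + 1))
      (R2 := BX ω x (y + 1)) (R3 := BX ω (x - 1) (y + 1)) (by omega) (by omega)
    exact this
  · have a := (h x y).2
    have a' := (h' x y).2
    unfold dT at a a'
    have c1 := ind_congr (eTY (y - 1) x (by omega))
    have c2 := ind_congr (eTX y x)
    have c3 := ind_congr (eTX y (x - 1))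
    have := parity (P := TY ω x y) (Q := ZZ ω x y) fTY fZ0 (R1 := TY ω x (y - 1))
      (R2 := TX ω x y) (R3 := TX ω (x - 1) y) (by omega) (by omega)
    exact this
  · have a := (h x (y + 1)).2
    have a' := (h' x (y + 1)).2
    unfold dT at a a'
    rw [add_sub_cancel_right] at a a'
    have c1 := ind_congr (eTY (y + 1) x (by omega))
    have c2 := ind_congr (eTX (y + 1) x)
    have c3 := ind_congr (eTX (y + 1) (x - 1))
    have := parity (P := TY ω x y) (Q := ZZ ω x (y + 1)) fTY fZ1 (R1 := TY ω x (y + 1))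
      (R2 := TX ω x (y + 1)) (R3 := TX ω (x - 1) (y + 1)) (by omega) (by omega)
    exact this

end Pool.Agent.T6.H61.SL.ModVY

namespace Pool.Agent.T6.H61.SL

open ModVX ModVY in
theorem vy : StmVY := by
  intro hfin ω ω' x y h h' hω hG
  have hS := sqY h h' hω hG
  unfold NC
  refine Set.ncard_le_ncard_of_injOn (fun c => (sw (nb (famS ω) y x (sw c.1, sw c.2)),
    sw (nt (famS ω) y x (sw c.1, sw c.2)))) ?_ ?_ (hfin ω')
  · intro c hc
    refine col_iff'.mpr ?_
    exact new_col (c := (sw c.1, sw c.2)) hS (col_iff'.mp hc)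
  · intro c hc d hd hcd
    have h1 := congrArg Prod.fst hcd
    have h2 := congrArg Prod.snd hcd
    have := inj (c := (sw c.1, sw c.2)) (d := (sw d.1, sw d.2)) hS (col_iff'.mp hc)
      (col_iff'.mp hd) (congrArg sw h1) (congrArg sw h2)
    have e1 := congrArg sw (congrArg Prod.fst this)
    have e2 := congrArg sw (congrArg Prod.snd this)
    exact Prod.ext e1 e2

end Pool.Agent.T6.H61.SL
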