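import Pool.Agent.T6.H61.SL.Defs

/-!
# Final assembly (helper61)
-/

set_option autoImplicit false

namespace Pool.Agent.T6.H61.SL

open KN

namespace ModFinal

/-- a polygon with a starting point and a word -/
structure St where
  ω : Finset Ed
  p : Z3
  w : List Dir
  rep : Rep ω p w
  slab : Slab ω

theorem eqv (hV : ∀ ω ω', Mv ω ω' → NC ω = NC ω') {a b : Finset Ed}
    (h : Relation.EqvGen Mv a b) : NC a = NC b := by
  induction h with
  | rel a b h => exact hV a b h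
  | refl a => rfl
  | symm a b _ ih => exact ih.symm
  | trans a b c _ _ ih1 ih2 => exact ih1.trans ih2

theorem step (hF : StmFIN) (hV : ∀ ω ω', Mv ω ω' → NC ω = NC ω') (hN : StmNIC) (hG : StmGRO)
    (hC : StmCNT) (s : St) : ∃ s' : St, Same (vl s.w) (vl s'.w) ∧ NC s.ω < NC s'.ω := by
  obtain ⟨ω, A, f, B, h1, h2, h3, h4, h5⟩ := hN s.ω s.p s.w s.rep s.slab
  have hreg : ∀ q ∈ path (A ++ f :: B), q.1 ≤ (pos B).1 := by
    intro q hq
    rcases h5.2.2 q hq with h | h | h
    · omega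
    · rw [h]
    · rw [h, Prod.fst_add]
      have : (vec f).1 = 0 := by
        rcases h5.1 with rfl | rfl <;> rfl
      rw [this]; omega
  obtain ⟨g1, g2⟩ := hG A f B h5.1 h1.1 hreg
  have hrep : Rep (es s.p (A ++ TT f ++ B)).toFinset s.p (A ++ TT f ++ B) := ⟨g1, rfl⟩
  obtain ⟨c1, c2⟩ := hC hF ω _ s.p A f B h1 h2 h5 hrep
  have hinv : NC s.ω = NC ω := eqv hV h3
  exact ⟨⟨_, s.p, _, hrep, c1⟩, h4.trans g2, by rw [hinv]; exact c2⟩

end ModFinal

open ModFinal in
/-- every knot type that occurs in the slab splits into infinitely many ergodicity classes -/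
theorem final (hF : StmFIN) (hV : ∀ ω ω', Mv ω ω' → NC ω = NC ω') (hN : StmNIC) (hG : StmGRO)
    (hC : StmCNT) (ω : Finset Ed) (hP : Poly ω) (hS : Slab ω) :
    ∃ φ : ℕ → Finset Ed, φ 0 = ω ∧ (∀ k, Poly (φ k) ∧ Slab (φ k) ∧ SameKnot ω (φ k)) ∧
      ∀ j k, j ≠ k → ¬ Relation.EqvGen Mv (φ j) (φ k) := by
  obtain ⟨p, w, hR⟩ := hP
  choose nx hnx1 hnx2 using step hF hV hN hG hC
  let s : ℕ → St := fun k => Nat.rec ⟨ω, p, w, hR, hS⟩ (fun _ s => nx s) k
  have hs : ∀ k, s (k + 1) = nx (s k) := fun k => rfl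
  have hsame : ∀ k, Same (vl w) (vl (s k).w) := by
    intro k
    induction k with
    | zero => exact Same.refl _
    | succ k ih =>
      rw [hs]
      exact ih.trans (hnx1 _)
  have hmono : StrictMono fun k => NC (s k).ω := by
    apply strictMono_nat_of_lt_succ
    intro k
    rw [hs]
    exact hnx2 _
  refine ⟨fun k => (s k).ω, rfl, fun k => ⟨⟨_, _, (s k).rep⟩, (s k).slab,
    ⟨p, w, (s k).p, (s k).w, hR, (s k).rep, hsame k⟩⟩, ?_⟩
  intro j k hjk h
  have hinv : NC (s j).ω = NC (s k).ω := eqv hV h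
  exact hjk (hmono.injective hinv)

end Pool.Agent.T6.H61.SL
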