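import Pool.Agent.T6.H61.SL.Defs

/-!
# Module CNT: the long word increases the number of colourings (helper61)
-/

set_option autoImplicit false

namespace Pool.Agent.T6.H61.SL

open KN

namespace ModCNT

/-! ## Local data -/

/-- the edges of the long word, started at `(0, 0, 1)` -/
def E0 (f : Dir) : List Ed := es (0, 0, 1) (TT f)

/-- its vertices -/
def V0 (f : Dir) : List Z3 := (path (TT f)).map (fun q => q + (0, 0, 1))

/-- the colours of a colouring which is not constant, from `P` to `Q` -/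
def cols : List (Fin 3) := [
  0, 0, 0, 0, 0, 0, 0, 2, 2, 2, 2, 2, 2, 1, 1, 1, 1, 1, 1, 1,
  1, 1, 2, 2, 2, 2, 2, 2, 1, 1, 1, 1, 1, 1, 1, 1, 2, 1, 2, 2,
  2, 2, 0, 0, 0, 0, 0, 0, 0, 0, 0, 0, 0, 0, 0, 0, 0, 0, 0, 0,
  0, 0]

/-- the colouring which is not constant -/
def gs (f : Dir) (v : Z3) : Fin 3 :=
  (((V0 f).zip (if f = .yp then cols.reverse else cols)).lookup v).getD 0

/-- the constant colourings -/
def gk (f : Dir) (k : Fin 3) (v : Z3) : Fin 3 := if v ∈ V0 f then k else 0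

/-- the relation at an edge -/
def relOK (E : List Ed) (g : Z3 → Fin 3) (e : Ed) : Prop :=
  if e.2 = 2 then g (e.1.1, e.1.2.1, 1) = g (e.1.1, e.1.2.1, 0)
  else if e.1.2.2 = 1 then
    (if e.2 = 0 then g (e.1.1 + 1, e.1.2.1, 1) = g (e.1.1, e.1.2.1, 1)
      else g (e.1.1, e.1.2.1 + 1, 1) = g (e.1.1, e.1.2.1, 1))
  else if e.2 = 0 then g (e.1.1 + 1, e.1.2.1, 0) =
    (if ((e.1.1, e.1.2.1 - 1, (1 : ℤ)), (1 : Fin 3)) ∈ E then
      sc (g (e.1.1, e.1.2.1, 1)) (g (e.1.1, e.1.2.1, 0)) else g (e.1.1, e.1.2.1, 0))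
  else g (e.1.1, e.1.2.1 + 1, 0) =
    (if ((e.1.1 - 1, e.1.2.1, (1 : ℤ)), (0 : Fin 3)) ∈ E then
      sc (g (e.1.1, e.1.2.1, 1)) (g (e.1.1, e.1.2.1, 0)) else g (e.1.1, e.1.2.1, 0))

instance (E : List Ed) (g : Z3 → Fin 3) (e : Ed) : Decidable (relOK E g e) := by
  unfold relOK; infer_instance

theorem rel_gs : ∀ f : Dir, (f = .yp ∨ f = .ym) → ∀ e ∈ E0 f, relOK (E0 f) (gs f) e := by
  intro f hf
  rcases hf with rfl | rfl
  · decide +kernel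
  · decide +kernel

theorem rel_gk : ∀ f : Dir, (f = .yp ∨ f = .ym) → ∀ k : Fin 3,
    ∀ e ∈ E0 f, relOK (E0 f) (gk f k) e := by
  intro f hf
  rcases hf with rfl | rfl
  · decide +kernel
  · decide +kernel

theorem E0_pos : ∀ f : Dir, (f = .yp ∨ f = .ym) → ∀ e ∈ E0 f,
    (1 ≤ e.1.1 ∨ (e.1.1 = 0 ∧ e.2 = 0 ∧ e.1.2.2 = 1 ∧ (e.1 = (0, 0, 1) ∨ e.1 = (0, 0, 1) + vec f)))
      ∧ 0 ≤ e.1.2.2 ∧ (e.1 + un e.2).2.2 ≤ 1 := by
  intro f hf
  rcases hf with rfl | rfl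
  · decide +kernel
  · decide +kernel

theorem E0_conn : ∀ f : Dir, (f = .yp ∨ f = .ym) →
    (((0, 0, 1), 0) : Ed) ∈ E0 f ∧ (((0, 0, 1) + vec f, 0) : Ed) ∈ E0 f := by
  intro f hf
  rcases hf with rfl | rfl
  · decide +kernel
  · decide +kernel

/-- some edge of the bottom layer or vertical edge at `(x, y, 0)` -/
def atB (E : List Ed) (v : Z3) : Prop :=
  (((v.1, v.2.1, 0), 0) : Ed) ∈ E ∨ (((v.1 - 1, v.2.1, 0), 0) : Ed) ∈ E ∨
    (((v.1, v.2.1, 0), 1) : Ed) ∈ E ∨ (((v.1, v.2.1 - 1, 0), 1) : Ed) ∈ E ∨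
    (((v.1, v.2.1, 0), 2) : Ed) ∈ E

/-- some edge of the top layer or vertical edge at `(x, y, 1)` -/
def atT (E : List Ed) (v : Z3) : Prop :=
  (((v.1, v.2.1, 1), 0) : Ed) ∈ E ∨ (((v.1 - 1, v.2.1, 1), 0) : Ed) ∈ E ∨
    (((v.1, v.2.1, 1), 1) : Ed) ∈ E ∨ (((v.1, v.2.1 - 1, 1), 1) : Ed) ∈ E ∨
    (((v.1, v.2.1, 0), 2) : Ed) ∈ E

instance (E : List Ed) (v : Z3) : Decidable (atB E v) := by unfold atB; infer_instance
instance (E : List Ed) (v : Z3) : Decidable (atT E v) := by unfold atT; infer_instance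

theorem V0_edge : ∀ f : Dir, (f = .yp ∨ f = .ym) → ∀ v ∈ V0 f,
    (v.2.2 = 0 ∧ atB (E0 f) v) ∨ (v.2.2 = 1 ∧ atT (E0 f) v) := by
  intro f hf
  rcases hf with rfl | rfl
  · decide +kernel
  · decide +kernel

theorem gs_ends : ∀ f : Dir, (f = .yp ∨ f = .ym) →
    gs f (0, 0, 1) = 0 ∧ gs f ((0, 0, 1) + vec f) = 0 := by
  intro f hf
  rcases hf with rfl | rfl
  · decide +kernel
  · decide +kernel

theorem gs_non : ∀ f : Dir, (f = .yp ∨ f = .ym) →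
    ∃ v ∈ V0 f, 1 ≤ v.1 ∧ v.2.2 = 1 ∧ gs f v ≠ 0 := by
  intro f hf
  rcases hf with rfl | rfl
  · decide +kernel
  · decide +kernel

theorem ends_mem : ∀ f : Dir, (f = .yp ∨ f = .ym) →
    ((0, 0, 1) : Z3) ∈ V0 f ∧ ((0, 0, 1) + vec f : Z3) ∈ V0 f := by
  intro f hf
  rcases hf with rfl | rfl
  · decide +kernel
  · decide +kernel

end ModCNT

end Pool.Agent.T6.H61.SL
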