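import Pool.Agent.H246KN.Stubs

/-!
# Polygons in the slab of width one: the long word and the scripts (helper61)
-/

set_option autoImplicit false

namespace Pool.Agent.T6.H61.SL

open KN

/-- local changes of words: flip of two letters, insertion, removal -/
inductive Op
  | F (i : ℕ)
  | I (i : ℕ) (d : Dir)
  | R (i : ℕ)

/-- one local change of a word, with all checks: the new vertices are at the right side
(`1 ≤ x`) and not on the word -/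
def stepO (u : List Dir) : Op → Option (List Dir)
  | .F i => match u.drop i with
    | a :: b :: u2 =>
      if perp a b ∧ 1 ≤ (pos u2 + vec a).1 ∧ pos u2 + vec a ∉ path u then
        some (u.take i ++ b :: a :: u2) else none
    | _ => none
  | .I i d => match u.drop i with
    | e :: u2 =>
      if perp d e ∧ 1 ≤ (pos u2 + vec d).1 ∧ 1 ≤ (pos u2 + vec e + vec d).1 ∧
        pos u2 + vec d ∉ path u ∧ pos u2 + vec e + vec d ∉ path u then
        some (u.take i ++ neg d :: e :: d :: u2) else none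
    | _ => none
  | .R i => match u.drop i with
    | a :: e :: d :: u2 =>
      if a = neg d ∧ perp d e ∧ 1 ≤ (pos u2 + vec d).1 ∧ 1 ≤ (pos u2 + vec e + vec d).1 ∧
        pos u2 + vec d ∉ path (u.take i ++ e :: u2) ∧
        pos u2 + vec e + vec d ∉ path (u.take i ++ e :: u2) then
        some (u.take i ++ e :: u2) else none
    | _ => none

/-- a sequence of local changes -/
def runO : List Op → List Dir → Option (List Dir)
  | [], u => some u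
  | o :: os, u => match stepO u o with
    | some u' => runO os u'
    | none => none

/-- the long word for the edge `yp` -/
def wT : List Dir := [
  .xm, .ym, .ym, .xm, .xm, .xm, .xm, .yp, .xm, .yp, .yp, .xp, .zp, .yp, .yp, .zm,
  .xp, .xp, .zp, .xp, .xp, .ym, .ym, .ym, .ym, .xm, .xm, .yp, .zm, .xm, .xm, .zp,
  .xm, .yp, .yp, .zm, .xp, .xp, .zp, .yp, .yp, .xp, .xp, .zm, .ym, .ym, .zp, .ym,
  .ym, .zm, .ym, .xm, .xm, .zp, .yp, .yp, .xp, .zm, .xp, .xp, .xp]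

/-- the script for `yp` -/
def scA : List Op := [
  .I 1 .xp, .I 3 .ym, .I 2 .xp, .I 3 .xp, .F 6, .F 5, .F 8, .F 7, .I 5 .xp, .F 4, .F 8, .I 6 .zm,
  .I 7 .xp, .F 9, .I 7 .yp, .F 10, .I 7 .xm, .F 12, .I 7 .ym, .I 19 .zp, .I 20 .ym, .I 8 .ym, .I 9 .zp, .F 27,
  .F 18, .I 12 .xm, .F 14, .F 19, .F 15, .F 11, .F 12, .F 30, .F 19, .F 13, .R 24, .F 28,
  .F 26, .F 9, .F 26, .F 4, .F 25, .F 23, .F 9, .F 23, .F 13, .F 4, .F 13, .F 19,
  .F 24, .F 9, .I 24 .zm, .F 30, .F 10, .I 4 .yp, .F 21, .F 22, .F 3, .F 2, .F 16, .F 22,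
  .F 21, .F 1, .I 27 .xm, .F 34, .F 17, .F 21, .F 22, .I 7 .xp, .F 14, .F 13, .F 1, .F 6,
  .F 20, .I 31 .yp, .I 29 .ym, .F 1, .F 40, .I 30 .ym, .I 33 .xm, .F 1, .F 35, .F 32, .F 30, .F 29,
  .F 36, .F 29, .I 37 .yp, .F 1, .F 30, .I 16 .zm, .F 41, .F 39, .F 18, .F 39, .F 16, .F 48,
  .F 32, .F 48, .F 1, .F 41, .F 32, .F 48, .F 41, .F 48, .F 19, .I 37 .zp, .F 16, .F 47,
  .F 1, .F 39, .I 3 .yp, .F 49, .F 2, .F 42, .F 49, .F 5, .I 21 .xm, .I 22 .xm, .F 5, .F 53,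
  .F 5, .F 42, .F 20, .F 41, .F 21, .F 23, .F 19, .F 23, .F 20, .F 47, .I 44 .zm, .F 40,
  .F 49, .F 55, .F 54, .F 49, .F 6, .F 50, .F 40, .F 54, .I 24 .yp, .F 26, .F 24, .F 42,
  .F 57, .F 24, .F 57, .F 48, .F 41, .F 60, .F 41, .R 58, .F 56, .F 7, .F 42, .F 7]

/-- the script for `ym` -/
def scB : List Op := [
  .I 1 .xp, .I 1 .ym, .I 4 .xp, .I 5 .xp, .F 3, .F 4, .F 1, .F 2, .I 5 .xp, .F 7, .F 3, .I 6 .zm,
  .I 7 .xp, .F 6, .I 9 .yp, .F 7, .I 11 .xm, .F 7, .I 13 .ym, .I 3 .zp, .I 4 .ym, .I 18 .ym, .I 19 .zp, .F 2,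
  .F 11, .I 18 .xm, .F 17, .F 12, .F 16, .F 20, .F 19, .F 1, .F 12, .F 18, .R 6, .F 1,
  .F 3, .F 20, .F 3, .F 25, .F 4, .F 6, .F 20, .F 6, .F 16, .F 25, .F 16, .F 10,
  .F 5, .F 20, .I 6 .zm, .F 1, .F 21, .I 28 .yp, .F 12, .F 11, .F 30, .F 31, .F 17, .F 11,
  .F 12, .F 32, .I 7 .xm, .F 1, .F 18, .F 14, .F 13, .I 29 .xp, .F 23, .F 24, .F 36, .F 31,
  .F 17, .I 7 .yp, .I 11 .ym, .F 40, .F 1, .I 12 .ym, .I 11 .xm, .F 44, .F 10, .F 13, .F 15, .F 16,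
  .F 9, .F 16, .I 9 .yp, .F 46, .F 17, .I 32 .zm, .F 8, .F 10, .F 31, .F 10, .F 33, .F 1,
  .F 17, .F 1, .F 48, .F 8, .F 17, .F 1, .F 8, .F 1, .F 30, .I 13 .zp, .F 35, .F 4,
  .F 50, .F 12, .I 49 .yp, .F 4, .F 51, .F 11, .F 4, .F 48, .I 33 .xm, .I 34 .xm, .F 52, .F 4,
  .F 52, .F 15, .F 37, .F 16, .F 36, .F 34, .F 38, .F 34, .F 37, .F 10, .I 14 .zm, .F 19,
  .F 10, .F 4, .F 5, .F 10, .F 53, .F 9, .F 19, .F 5, .I 36 .yp, .F 35, .F 37, .F 19,
  .F 4, .F 37, .F 4, .F 13, .F 20, .F 1, .F 20, .R 2, .F 3, .F 52, .F 17, .F 52]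

/-- the word that replaces the letter `f` (`yp` or `ym`) -/
def TT (f : Dir) : List Dir := if f = .yp then wT else (wT.map neg).reverse

theorem runA : runO (.I 0 .xp :: scA) [.yp] = some (TT .yp) := by
  decide +kernel

theorem runB : runO (.I 0 .xp :: scB) [.ym] = some (TT .ym) := by
  decide +kernel

end Pool.Agent.T6.H61.SL
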