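import Pool.Agent.T6.H61.SL.Data

/-!
# The BFACF algorithm in the slab of width one (MP_dd2c10_pr): definitions and module statements

helper61. A polygon is its set of edges. A colouring of a polygon in the slab assigns a colour to
every vertex: the colours of the ends of an edge of the top layer and of a vertical edge are equal,
and the colour changes along an edge of the bottom layer by `sc (over colour)` if the top layer,
shifted by `(ε, ε)`, passes over this edge. `sc` is not distributive: there is no third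
Reidemeister move in the slab of width one.
-/

set_option autoImplicit false

namespace Pool.Agent.T6.H61.SL

open KN

/-! ## Polygons as sets of edges -/

/-- the unit vectors -/
def un (i : Fin 3) : Z3 := if i = 0 then (1, 0, 0) else if i = 1 then (0, 1, 0) else (0, 0, 1)

/-- an edge of `ℤ³`: its lower end point and its axis; the edge `(v, i)` joins `v` and `v + un i` -/
abbrev Ed := Z3 × Fin 3

/-- the edge which joins `p` and `p + vec d` -/
def edg (p : Z3) : Dir → Ed
  | .xp => (p, 0)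
  | .xm => (p - un 0, 0)
  | .yp => (p, 1)
  | .ym => (p - un 1, 1)
  | .zp => (p, 2)
  | .zm => (p - un 2, 2)

/-- the edges of the walk `w` from the point `p` (the last letter of `w` is the first step) -/
def es (p : Z3) : List Dir → List Ed
  | [] => []
  | d :: w => edg (p + pos w) d :: es p w

/-- `ω` is the set of edges of the polygon which starts at `p` and follows the closed self-avoiding
word `w` -/
def Rep (ω : Finset Ed) (p : Z3) (w : List Dir) : Prop := SAP w ∧ ω = (es p w).toFinset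

/-- lattice polygons -/
def Poly (ω : Finset Ed) : Prop := ∃ p w, Rep ω p w

/-- all vertices of the edges of `ω` have third coordinate between `0` and `1` -/
def Slab (ω : Finset Ed) : Prop := ∀ e ∈ ω, 0 ≤ e.1.2.2 ∧ (e.1 + un e.2).2.2 ≤ 1

/-- the four edges of the unit square with lower corner `v` and axes `i`, `j` -/
def plaq (v : Z3) (i j : Fin 3) : Finset Ed := {(v, i), (v + un j, i), (v, j), (v + un i, j)}

/-- elementary BFACF moves in the slab: symmetric difference with a unit square which shares one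
edge, two adjacent edges or three edges with the polygon -/
def Mv (ω ω' : Finset Ed) : Prop := Poly ω ∧ Slab ω ∧ Poly ω' ∧ Slab ω' ∧
  ∃ (v : Z3) (i j : Fin 3), i ≠ j ∧ ω' = symmDiff ω (plaq v i j) ∧ (ω ∩ plaq v i j).Nonempty ∧
    ¬ plaq v i j ⊆ ω ∧ ω ∩ plaq v i j ≠ {(v, i), (v + un j, i)} ∧
    ω ∩ plaq v i j ≠ {(v, j), (v + un i, j)}

/-- the same knot type: for some starting points and orientations the polygons are equivalent -/
def SameKnot (ω ω' : Finset Ed) : Prop := ∃ p w p' w', Rep ω p w ∧ Rep ω' p' w' ∧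
  Same (vl w) (vl w')

/-! ## Local description -/

def BX (ω : Finset Ed) (x y : ℤ) : Prop := ((x, y, 0), 0) ∈ ω
def BY (ω : Finset Ed) (x y : ℤ) : Prop := ((x, y, 0), 1) ∈ ω
def TX (ω : Finset Ed) (x y : ℤ) : Prop := ((x, y, 1), 0) ∈ ω
def TY (ω : Finset Ed) (x y : ℤ) : Prop := ((x, y, 1), 1) ∈ ω
def ZZ (ω : Finset Ed) (x y : ℤ) : Prop := ((x, y, 0), 2) ∈ ω

instance (ω : Finset Ed) (x y : ℤ) : Decidable (BX ω x y) := inferInstanceAs (Decidable (_ ∈ ω))
instance (ω : Finset Ed) (x y : ℤ) : Decidable (BY ω x y) := inferInstanceAs (Decidable (_ ∈ ω))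
instance (ω : Finset Ed) (x y : ℤ) : Decidable (TX ω x y) := inferInstanceAs (Decidable (_ ∈ ω))
instance (ω : Finset Ed) (x y : ℤ) : Decidable (TY ω x y) := inferInstanceAs (Decidable (_ ∈ ω))
instance (ω : Finset Ed) (x y : ℤ) : Decidable (ZZ ω x y) := inferInstanceAs (Decidable (_ ∈ ω))

/-- indicator -/
def ind (P : Prop) [Decidable P] : ℕ := if P then 1 else 0

/-- the degree of the vertex `(x, y, 0)` -/
def dB (ω : Finset Ed) (x y : ℤ) : ℕ := ind (BX ω x y) + ind (BX ω (x - 1) y) + ind (BY ω x y) +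
  ind (BY ω x (y - 1)) + ind (ZZ ω x y)

/-- the degree of the vertex `(x, y, 1)` -/
def dT (ω : Finset Ed) (x y : ℤ) : ℕ := ind (TX ω x y) + ind (TX ω (x - 1) y) + ind (TY ω x y) +
  ind (TY ω x (y - 1)) + ind (ZZ ω x y)

/-- all degrees are `0` or `2` -/
def Deg (ω : Finset Ed) : Prop := ∀ x y : ℤ, (dB ω x y = 0 ∨ dB ω x y = 2) ∧
  (dT ω x y = 0 ∨ dT ω x y = 2)

/-! ## Colourings -/

/-- change of the colour `a` under a strand of colour `b`: the involutions are `(1 2)`, `(0 2)` and
the identity for `b = 0, 1, 2` -/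
def sc (b a : Fin 3) : Fin 3 :=
  if b = 0 then (if a = 1 then 2 else if a = 2 then 1 else a)
  else if b = 1 then (if a = 0 then 2 else if a = 2 then 0 else a) else a

theorem sc_sc : ∀ b a : Fin 3, sc b (sc b a) = a := by decide

theorem sc_self : ∀ b : Fin 3, sc b b = b := by decide

/-- colourings: `b x y` is the colour of `(x, y, 0)` and `t x y` the colour of `(x, y, 1)` -/
structure Col (ω : Finset Ed) (b t : ℤ → ℤ → Fin 3) : Prop where
  zz : ∀ x y, ZZ ω x y → t x y = b x y
  tx : ∀ x y, TX ω x y → t (x + 1) y = t x y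
  ty : ∀ x y, TY ω x y → t x (y + 1) = t x y
  bx : ∀ x y, BX ω x y → b (x + 1) y = if TY ω x (y - 1) then sc (t x y) (b x y) else b x y
  yb : ∀ x y, BY ω x y → b x (y + 1) = if TX ω (x - 1) y then sc (t x y) (b x y) else b x y
  b0 : ∀ x y, dB ω x y = 0 → b x y = 0
  t0 : ∀ x y, dT ω x y = 0 → t x y = 0

/-- the set of colourings -/
def CS (ω : Finset Ed) : Set ((ℤ → ℤ → Fin 3) × (ℤ → ℤ → Fin 3)) := {c | Col ω c.1 c.2}

/-- the number of colourings -/
noncomputable def NC (ω : Finset Ed) : ℕ := (CS ω).ncard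

/-- `P1, P2` and `Q1, Q2` tell which of the two pairs of opposite edges of a square are used: not
all, not none, and not exactly one of the two pairs -/
def G4 (P1 P2 Q1 Q2 : Prop) : Prop := ¬ (P1 ∧ P2 ∧ Q1 ∧ Q2) ∧ ¬ (¬ P1 ∧ ¬ P2 ∧ ¬ Q1 ∧ ¬ Q2) ∧
  ¬ (P1 ∧ P2 ∧ ¬ Q1 ∧ ¬ Q2) ∧ ¬ (¬ P1 ∧ ¬ P2 ∧ Q1 ∧ Q2)

/-! ## Module statements -/

/-- DEG: degrees of polygons -/
def StmDEG : Prop := ∀ ω, Poly ω → Slab ω → Deg ω

/-- FIN: there are finitely many colourings -/
def StmFIN : Prop := ∀ ω, (CS ω).Finite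

/-- TOP: squares of the top layer. The new colouring: colour `k` of the moving strand at all its
new vertices, and the colour of the vertex `(x + 1, y + 1, 0)` (if it is a vertex) is changed by
`sc k`. -/
def StmTOP : Prop := StmFIN → ∀ (ω ω' : Finset Ed) (x y : ℤ), Deg ω → Deg ω' →
  ω' = symmDiff ω (plaq (x, y, 1) 0 1) → G4 (TX ω x y) (TX ω x (y + 1)) (TY ω x y) (TY ω (x + 1) y) →
  NC ω ≤ NC ω'

/-- BOT: squares of the bottom layer -/
def StmBOT : Prop := StmFIN → ∀ (ω ω' : Finset Ed) (x y : ℤ), Deg ω → Deg ω' →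
  ω' = symmDiff ω (plaq (x, y, 0) 0 1) → G4 (BX ω x y) (BX ω x (y + 1)) (BY ω x y) (BY ω (x + 1) y) →
  NC ω ≤ NC ω'

/-- VX: vertical squares parallel to the first axis -/
def StmVX : Prop := StmFIN → ∀ (ω ω' : Finset Ed) (x y : ℤ), Deg ω → Deg ω' →
  ω' = symmDiff ω (plaq (x, y, 0) 0 2) → G4 (BX ω x y) (TX ω x y) (ZZ ω x y) (ZZ ω (x + 1) y) →
  NC ω ≤ NC ω'

/-- VY: vertical squares parallel to the second axis -/
def StmVY : Prop := StmFIN → ∀ (ω ω' : Finset Ed) (x y : ℤ), Deg ω → Deg ω' →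
  ω' = symmDiff ω (plaq (x, y, 0) 1 2) → G4 (BY ω x y) (TY ω x y) (ZZ ω x y) (ZZ ω x (y + 1)) →
  NC ω ≤ NC ω'

/-- INV: moves do not change the number of colourings -/
def StmINV : Prop := StmDEG → StmFIN → StmTOP → StmBOT → StmVX → StmVY →
  ∀ ω ω', Mv ω ω' → NC ω = NC ω'

/-- INS: a letter is replaced by three letters around a square -/
def StmINS : Prop := ∀ (ω : Finset Ed) (p : Z3) (A B : List Dir) (e d : Dir),
  Rep ω p (A ++ e :: B) → Slab ω → perp d e → pos B + vec d ∉ path (A ++ e :: B) →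
  pos B + vec e + vec d ∉ path (A ++ e :: B) →
  0 ≤ (p + pos B + vec d).2.2 → (p + pos B + vec d).2.2 ≤ 1 →
  0 ≤ (p + pos B + vec e + vec d).2.2 → (p + pos B + vec e + vec d).2.2 ≤ 1 →
  ∃ ω', Rep ω' p (A ++ neg d :: e :: d :: B) ∧ Slab ω' ∧ Mv ω ω' ∧
    Same (vl (A ++ e :: B)) (vl (A ++ neg d :: e :: d :: B))

/-- the letter `f` of the word `A ++ f :: B` is `yp` or `ym`, it is an edge of the top layer, and
all other vertices have smaller first coordinates -/
def Nice (p : Z3) (A : List Dir) (f : Dir) (B : List Dir) : Prop := (f = .yp ∨ f = .ym) ∧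
  (p + pos B).2.2 = 1 ∧ ∀ q ∈ path (A ++ f :: B), q.1 < (pos B).1 ∨ q = pos B ∨ q = pos B + vec f

/-- NIC: every polygon can be changed by moves into a nice one -/
def StmNIC : Prop := ∀ (ω : Finset Ed) (p : Z3) (w : List Dir), Rep ω p w → Slab ω →
  ∃ (ω' : Finset Ed) (A : List Dir) (f : Dir) (B : List Dir), Rep ω' p (A ++ f :: B) ∧ Slab ω' ∧
    Relation.EqvGen Mv ω ω' ∧ Same (vl w) (vl (A ++ f :: B)) ∧ Nice p A f B

/-- GRO: the long word can be inserted without changing the knot type -/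
def StmGRO : Prop := ∀ (A : List Dir) (f : Dir) (B : List Dir), (f = .yp ∨ f = .ym) →
  SAP (A ++ f :: B) → (∀ q ∈ path (A ++ f :: B), q.1 ≤ (pos B).1) →
  SAP (A ++ TT f ++ B) ∧ Same (vl (A ++ f :: B)) (vl (A ++ TT f ++ B))

/-- CNT: the long word increases the number of colourings -/
def StmCNT : Prop := StmFIN → ∀ (ω ω' : Finset Ed) (p : Z3) (A : List Dir) (f : Dir) (B : List Dir),
  Rep ω p (A ++ f :: B) → Slab ω → Nice p A f B → Rep ω' p (A ++ TT f ++ B) →
  Slab ω' ∧ NC ω < NC ω'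

end Pool.Agent.T6.H61.SL
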